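import Pool.Agent.MP_ca1109_lc.Rf.Defs
import Pool.Agent.MP_ca1109_lc.Pt.MZ
import Pool.Agent.MP_ca1109_lc.Pt.IN

/-!
# Row MWa: the weight of the random shift
-/

namespace Pool.Agent.MP_ca1109_lc.Rf

open Finset Pool.Agent.H66 Pool.Agent.MP_ca1109_lc.Mpg Pool.Agent.MP_ca1109_lc.Agp
  Pool.Agent.MP_ca1109_lc.Xp Pool.Agent.MP_ca1109_lc.Pt
open Pool.Agent.MP_ca1109_lc.Dnf (Cube ch one On)

variable {n L T : ℕ}

/-- The shift of the random string. -/
def Wd (l t : ℕ) (z : Cube (n * (L + T))) (d : Cube T) : Cube n := wv (eta z l) (hv z) t d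

/-- The weight: `2 ^ |η ∩ B|` if the shift vanishes on `B`, and zero otherwise. -/
noncomputable def wB (B : Finset (Fin n)) (l t : ℕ) (d : Cube T) (z : Cube (n * (L + T))) : ℝ :=
  ∏ i ∈ B, (1 + (if i ∈ eta z l then 1 else 0) * (if ip t d (hv z i) = true then -1 else 1))

/-! ## One block -/

/-- The last bits of the block. -/
def mwa_hb (b : Cube (L + T)) : Cube T := fun r => b (Fin.natAdd L r)

/-- The sign of the inner product. -/
noncomputable def mwa_s (t : ℕ) (d h : Cube T) : ℝ := if ip t d h = true then -1 else 1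

/-- The support of the inner product. -/
def mwa_D (t : ℕ) (d : Cube T) : Finset (Fin T) :=
  univ.filter fun r : Fin T => (r : ℕ) < t ∧ d r = true

theorem mwa_s_eq (t : ℕ) (d h : Cube T) :
    mwa_s t d h = (-1) ^ (mwa_D t d).card * ch (mwa_D t d) h := by
  have h1 : mwa_s t d h = (-1) ^ (univ.filter fun r : Fin T =>
      (r : ℕ) < t ∧ d r = true ∧ h r = true).card := by
    unfold mwa_s ip
    set N := (univ.filter fun r : Fin T => (r : ℕ) < t ∧ d r = true ∧ h r = true).card
    rcases Nat.even_or_odd N with hN | hN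
    · rw [if_neg (by rw [decide_eq_true_iff, Nat.even_iff.1 hN]; decide), hN.neg_one_pow]
    · rw [if_pos (by rw [decide_eq_true_iff, Nat.odd_iff.1 hN]), hN.neg_one_pow]
  have h2 : (univ.filter fun r : Fin T => (r : ℕ) < t ∧ d r = true ∧ h r = true) =
      (mwa_D t d).filter fun r => h r = true := by
    unfold mwa_D
    rw [filter_filter]
    refine filter_congr fun r _ => ?_
    rw [and_assoc]
  have h3 : ∀ A : Finset (Fin T), ((-1 : ℝ)) ^ (A.filter fun r => h r = true).card =
      (-1) ^ A.card * ch A h := by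
    intro A
    unfold ch
    rw [← prod_const, ← prod_const, ← prod_mul_distrib, prod_filter]
    refine prod_congr rfl fun r _ => ?_
    cases h r <;> simp [Dnf.sg]
  rw [h1, h2, h3]

theorem mwa_s_abs (t : ℕ) (d h : Cube T) : |mwa_s t d h| = 1 := by
  unfold mwa_s
  split_ifs <;> simp

theorem mwa_avg_s (t : ℕ) (d : Cube T) :
    avg (mwa_s t d) = one (∀ r : Fin T, (r : ℕ) < t → d r = false) := by
  have h1 : avg (mwa_s t d) = (-1) ^ (mwa_D t d).card * avg (ch (mwa_D t d)) := by
    rw [← avg_mul_left]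
    exact congr_arg _ (funext fun h => mwa_s_eq t d h)
  rw [h1, spb_avg_E, Dnf.E_ch]
  by_cases hd : ∀ r : Fin T, (r : ℕ) < t → d r = false
  · have : mwa_D t d = ∅ := by
      unfold mwa_D
      rw [filter_eq_empty_iff]
      rintro r - ⟨h2, h3⟩
      rw [hd r h2] at h3
      exact Bool.false_ne_true h3
    rw [this, if_pos rfl, Dnf.one_true hd]
    simp
  · have : mwa_D t d ≠ ∅ := by
      intro h0
      refine hd fun r hr => ?_
      by_contra h2
      have h3 : r ∈ mwa_D t d :=
        mem_filter.2 ⟨mem_univ _, hr, by simpa using h2⟩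
      rw [h0] at h3
      exact absurd h3 (notMem_empty r)
    rw [if_neg this, Dnf.one_false hd, mul_zero]

/-- The average of a product over a block. -/
theorem mwa_block {l : ℕ} (hl : l ≤ L) (G : Cube T → ℝ) :
    (avg fun b : Cube (L + T) => one (bt l b) * G (mwa_hb b)) = (1 / 2) ^ l * avg G := by
  have h1 : ∀ (u : Cube L) (v : Cube T), one (bt l (Fin.append u v)) * G (mwa_hb (Fin.append u v)) =
      Xp.mon (univ.filter fun t : Fin L => (t : ℕ) < l) u * G v := by
    intro u v
    congr 1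
    · unfold Xp.mon
      congr 1
      refine propext ⟨fun h t ht => ?_, fun h t ht => ?_⟩
      · rw [mem_filter] at ht
        have := h (Fin.castAdd T t) (by simpa using ht.2)
        rwa [Fin.append_left] at this
      · have ht' : (t : ℕ) < L := lt_of_lt_of_le ht hl
        have e : t = Fin.castAdd T ⟨t, ht'⟩ := by ext; rfl
        rw [e, Fin.append_left]
        exact h _ (by simpa using ht)
    · unfold mwa_hb
      simp only [Fin.append_right]
  have h2 : (avg fun b : Cube (L + T) => one (bt l b) * G (mwa_hb b)) =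
      avg (Xp.mon (univ.filter fun t : Fin L => (t : ℕ) < l)) * avg G := by
    unfold avg
    rw [← Equiv.sum_comp (Fin.appendEquiv L T), Fintype.sum_prod_type]
    have h3 : ∀ (u : Cube L) (v : Cube T), one (bt l (Fin.appendEquiv L T (u, v))) *
        G (mwa_hb (Fin.appendEquiv L T (u, v))) =
        Xp.mon (univ.filter fun t : Fin L => (t : ℕ) < l) u * G v := fun u v => h1 u v
    simp only [h3]
    rw [← Finset.sum_mul_sum, div_mul_div_comm]
    congr 1
    rw [← Nat.cast_mul, Fintype.card_fun, Fintype.card_fun, Fintype.card_fun, Fintype.card_bool,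
      Fintype.card_fin, Fintype.card_fin, Fintype.card_fin, pow_add]
  rw [h2, Xp.avg_mon]
  congr 2
  rw [Fin.card_filter_val_lt]
  exact min_eq_right hl

/-- The factor of the weight. -/
noncomputable def mwa_p (l t : ℕ) (d : Cube T) (b : Cube (L + T)) : ℝ :=
  1 + one (bt l b) * mwa_s t d (mwa_hb b)

/-- The factor of the character. -/
noncomputable def mwa_q (l t : ℕ) (d : Cube T) (b : Cube (L + T)) : ℝ :=
  1 - one (bt l b) * 1 + one (bt l b) * mwa_s t d (mwa_hb b)

theorem mwa_avg_p {l : ℕ} (hl : l ≤ L) (t : ℕ) (d : Cube T) :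
    (avg fun b : Cube (L + T) => mwa_p l t d b) =
      1 + (1 / 2) ^ l * one (∀ r : Fin T, (r : ℕ) < t → d r = false) := by
  have h1 := mwa_block (L := L) hl (mwa_s t d)
  rw [mwa_avg_s] at h1
  unfold mwa_p
  have h2 := avg_add (fun _ : Cube (L + T) => (1 : ℝ))
    (fun b => one (bt l b) * mwa_s t d (mwa_hb b))
  rw [avg_const, h1] at h2
  exact h2

theorem mwa_avg_q {l : ℕ} (hl : l ≤ L) (t : ℕ) (d : Cube T) :
    (avg fun b : Cube (L + T) => mwa_q l t d b) =
      1 - (1 / 2) ^ l + (1 / 2) ^ l * one (∀ r : Fin T, (r : ℕ) < t → d r = false) := by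
  have h1 := mwa_block (L := L) hl (mwa_s t d)
  rw [mwa_avg_s] at h1
  have h0 := mwa_block (L := L) (T := T) hl (fun _ => 1)
  rw [avg_const, mul_one] at h0
  unfold mwa_q
  have h2 := avg_add (fun b : Cube (L + T) => 1 - one (bt l b) * 1)
    (fun b => one (bt l b) * mwa_s t d (mwa_hb b))
  have h3 := avg_sub (fun _ : Cube (L + T) => (1 : ℝ)) (fun b => one (bt l b) * 1)
  rw [avg_const, h0] at h3
  rw [h1, h3] at h2
  exact h2

/-! ## The weight and the character as products over the blocks -/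

theorem mwa_mem {z : Cube (n * (L + T))} {l : ℕ} {i : Fin n} :
    i ∈ eta z l ↔ bt l (Pt.blk z i) := by
  unfold eta bt Pt.blk
  simp

theorem mwa_wB (B : Finset (Fin n)) (l t : ℕ) (d : Cube T) (z : Cube (n * (L + T))) :
    wB B l t d z = ∏ i ∈ B, mwa_p l t d (Pt.blk z i) := by
  unfold wB
  refine prod_congr rfl fun i _ => ?_
  unfold mwa_p
  congr 1
  have h1 : mwa_hb (Pt.blk z i) = hv z i := rfl
  rw [h1]
  congr 1
  by_cases h : i ∈ eta z l
  · rw [if_pos h, Dnf.one_true (mwa_mem.1 h)]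
  · rw [if_neg h, Dnf.one_false fun h' => h (mwa_mem.2 h')]

theorem mwa_cc (U : Finset (Fin n)) (l t : ℕ) (d : Cube T) (z : Cube (n * (L + T))) :
    cc U (Wd l t z d) = ∏ i ∈ U, mwa_q l t d (Pt.blk z i) := by
  unfold cc
  refine prod_congr rfl fun i _ => ?_
  unfold mwa_q mwa_s
  have h1 : mwa_hb (Pt.blk z i) = hv z i := rfl
  have h2 : Wd l t z d i = (decide (i ∈ eta z l) && ip t d (hv z i)) := rfl
  rw [h1, h2]
  by_cases h : i ∈ eta z l
  · rw [Dnf.one_true (mwa_mem.1 h), decide_eq_true h, Bool.true_and]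
    ring
  · rw [Dnf.one_false fun h' => h (mwa_mem.2 h'), decide_eq_false h, Bool.false_and]
    simp

theorem wB_eq (B : Finset (Fin n)) (l t : ℕ) (d : Cube T) (z : Cube (n * (L + T))) :
    wB B l t d z = 2 ^ (eta z l ∩ B).card * one (∀ i ∈ B, Wd l t z d i = false) := by
  have h1 : ∀ i, (1 + (if i ∈ eta z l then 1 else 0) * (if ip t d (hv z i) = true then -1 else 1)
      : ℝ) = (if i ∈ eta z l then 2 else 1) * one (Wd l t z d i = false) := by
    intro i
    have h2 : Wd l t z d i = (decide (i ∈ eta z l) && ip t d (hv z i)) := rfl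
    rw [h2]
    by_cases h : i ∈ eta z l
    · rw [if_pos h, if_pos h, decide_eq_true h, Bool.true_and]
      cases ip t d (hv z i)
      · rw [if_neg (by simp), Dnf.one_true rfl]; norm_num
      · rw [if_pos rfl, Dnf.one_false (by simp)]; norm_num
    · rw [if_neg h, if_neg h, decide_eq_false h, Bool.false_and, Dnf.one_true rfl]
      norm_num
  have h3 : ∀ A : Finset (Fin n), ∏ i ∈ A, one (Wd l t z d i = false) =
      one (∀ i ∈ A, Wd l t z d i = false) := by
    intro A
    by_cases h : ∀ i ∈ A, Wd l t z d i = false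
    · rw [Dnf.one_true h]
      exact prod_eq_one fun i hi => Dnf.one_true (h i hi)
    · rw [Dnf.one_false h]
      push Not at h
      obtain ⟨i, hi, h'⟩ := h
      exact prod_eq_zero hi (Dnf.one_false h')
  unfold wB
  rw [prod_congr rfl fun i _ => h1 i, prod_mul_distrib, h3, prod_ite, prod_const, prod_const_one,
    mul_one]
  congr 3
  ext i
  rw [mem_filter, mem_inter, and_comm]

/-! ## Spectral norms -/

theorem mwa_sp_bt (l : ℕ) (i : Fin n) : Sp 1 (fun Z : Cube (n * (L + T)) =>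
    ((one (bt l (Pt.blk Z i)) : ℝ) : ℂ)) := by
  refine (Sp.mon ((univ.filter fun t : Fin (L + T) => (t : ℕ) < l).image
        fun t => finProdFinEquiv (i, t))).of_eq fun Z => ?_
  unfold Xp.mon
  congr 2
  refine propext ⟨fun h t ht => ?_, fun h t ht => ?_⟩
  · exact h _ (mem_image.mpr ⟨t, mem_filter.mpr ⟨mem_univ _, ht⟩, rfl⟩)
  · rw [mem_image] at ht
    obtain ⟨u, hu, rfl⟩ := ht
    rw [mem_filter] at hu
    exact h u hu.2

theorem mwa_sp_s (t : ℕ) (d : Cube T) (i : Fin n) : Sp 1 (fun Z : Cube (n * (L + T)) =>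
    ((mwa_s t d (mwa_hb (Pt.blk Z i)) : ℝ) : ℂ)) := by
  have h1 := Sp.prod (mwa_D t d) (fun _ => (1 : ℝ))
    (fun r (Z : Cube (n * (L + T))) => ((ch {finProdFinEquiv (i, Fin.natAdd L r)} Z : ℝ) : ℂ))
    fun r _ => (Sp_real (ch {finProdFinEquiv (i, Fin.natAdd L r)} : Cube (n * (L + T)) → ℝ)).mono
      (Dnf.L1_ch _).le
  rw [prod_const_one] at h1
  have h2 := Sp.smul ((-1) ^ (mwa_D t d).card) h1
  refine (h2.of_eq fun Z => ?_).mono (le_of_eq ?_)
  · rw [mwa_s_eq]
    push_cast
    congr 1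
    unfold ch
    rw [Complex.ofReal_prod]
    refine prod_congr rfl fun r _ => ?_
    rw [prod_singleton]
    rfl
  · rw [norm_pow, norm_neg, norm_one, one_pow, mul_one]

theorem mwa_sp_p (l t : ℕ) (d : Cube T) (i : Fin n) : Sp 2 (fun Z : Cube (n * (L + T)) =>
    ((mwa_p l t d (Pt.blk Z i) : ℝ) : ℂ)) := by
  have h := (Sp.const (1 : ℂ)).add ((mwa_sp_bt (L := L) (T := T) l i).mul (mwa_sp_s t d i))
  refine (h.of_eq fun Z => ?_).mono (le_of_eq ?_)
  · unfold mwa_p
    push_cast
    rfl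
  · norm_num

theorem mwa_sp_q (l t : ℕ) (d : Cube T) (i : Fin n) : Sp 3 (fun Z : Cube (n * (L + T)) =>
    ((mwa_q l t d (Pt.blk Z i) : ℝ) : ℂ)) := by
  have h := ((Sp.const (1 : ℂ)).add (Sp.smul (-1) (mwa_sp_bt (L := L) (T := T) l i))).add
    ((mwa_sp_bt (L := L) (T := T) l i).mul (mwa_sp_s t d i))
  refine (h.of_eq fun Z => ?_).mono (le_of_eq ?_)
  · unfold mwa_q
    push_cast
    ring
  · norm_num

theorem wB_sp {l : ℕ} (_hl : l ≤ L) (B : Finset (Fin n)) (t : ℕ) (d : Cube T) :
    Sp (2 ^ B.card) (fun z : Cube (n * (L + T)) => ((wB B l t d z : ℝ) : ℂ)) := by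
  have h := Sp.prod B (fun _ => (2 : ℝ))
    (fun i (z : Cube (n * (L + T))) => ((mwa_p l t d (Pt.blk z i) : ℝ) : ℂ))
    fun i _ => mwa_sp_p l t d i
  rw [prod_const] at h
  refine h.of_eq fun z => ?_
  rw [mwa_wB, Complex.ofReal_prod]

theorem cc_spv {l : ℕ} (_hl : l ≤ L) (t : ℕ) (d : Cube T) (U : Finset (Fin n)) :
    Sp (3 ^ U.card) (fun z : Cube (n * (L + T)) => ((cc U (Wd l t z d) : ℝ) : ℂ)) := by
  have h := Sp.prod U (fun _ => (3 : ℝ))
    (fun i (z : Cube (n * (L + T))) => ((mwa_q l t d (Pt.blk z i) : ℝ) : ℂ))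
    fun i _ => mwa_sp_q l t d i
  rw [prod_const] at h
  refine h.of_eq fun z => ?_
  rw [mwa_cc, Complex.ofReal_prod]

/-! ## Averages -/

/-- The average of the weight, `d = 0`. -/
theorem wB_zero {l t : ℕ} (hl : l ≤ L) (B : Finset (Fin n)) {d : Cube T}
    (hd : ∀ r : Fin T, (r : ℕ) < t → d r = false) :
    (avg fun z : Cube (n * (L + T)) => wB B l t d z) = (1 + (1 / 2) ^ l) ^ B.card := by
  simp only [mwa_wB]
  rw [avg_blocks B fun _ => mwa_p l t d, prod_const]
  congr 1
  have := mwa_avg_p (L := L) hl t d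
  rw [Dnf.one_true hd, mul_one] at this
  exact this

/-- The average of the weight and of a function of the shift outside `B`, `d ≠ 0`. -/
theorem wB_avg {l t : ℕ} (hl : l ≤ L) (_ht : t ≤ T) {B U : Finset (Fin n)} (hU : Disjoint U B)
    {d : Cube T} (hd : ¬ ∀ r : Fin T, (r : ℕ) < t → d r = false) :
    (avg fun z : Cube (n * (L + T)) => wB B l t d z * cc U (Wd l t z d)) =
      (1 - 2 * (1 / 2) ^ (l + 1)) ^ U.card := by
  classical
  have h1 : ∀ z : Cube (n * (L + T)), wB B l t d z * cc U (Wd l t z d) =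
      ∏ i ∈ B ∪ U, (if i ∈ B then mwa_p l t d else mwa_q l t d) (Pt.blk z i) := by
    intro z
    rw [prod_union hU.symm, mwa_wB, mwa_cc]
    congr 1
    · exact prod_congr rfl fun i hi => by rw [if_pos hi]
    · exact prod_congr rfl fun i hi => by rw [if_neg (Finset.disjoint_left.1 hU hi)]
  simp only [h1]
  rw [avg_blocks (B ∪ U) fun i => if i ∈ B then mwa_p l t d else mwa_q l t d,
    prod_union hU.symm]
  have h2 : ∀ i ∈ B, avg (if i ∈ B then mwa_p l t d else mwa_q l t d : Cube (L + T) → ℝ) = 1 := by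
    intro i hi
    rw [if_pos hi]
    have := mwa_avg_p (L := L) hl t d
    rw [Dnf.one_false hd, mul_zero, add_zero] at this
    exact this
  have h3 : ∀ i ∈ U, avg (if i ∈ B then mwa_p l t d else mwa_q l t d : Cube (L + T) → ℝ) =
      1 - 2 * (1 / 2) ^ (l + 1) := by
    intro i hi
    rw [if_neg (Finset.disjoint_left.1 hU hi)]
    have := mwa_avg_q (L := L) hl t d
    rw [Dnf.one_false hd, mul_zero, add_zero] at this
    rw [show avg (mwa_q l t d : Cube (L + T) → ℝ) = avg fun b => mwa_q l t d b from rfl, this]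
    ring
  rw [prod_congr rfl h2, prod_congr rfl h3, prod_const, prod_const, one_pow, one_mul]

end Pool.Agent.MP_ca1109_lc.Rf
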