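import Pool.Agent.MP_ca1109_lc.Rf.Defs
import Pool.Agent.MP_ca1109_lc.Ph.SH
import Pool.Agent.MP_ca1109_lc.Pt.SF

/-!
# Row RE: relative small bias
-/

namespace Pool.Agent.MP_ca1109_lc.Rf

open Finset Pool.Agent.H66 Pool.Agent.MP_ca1109_lc.Mpg Pool.Agent.MP_ca1109_lc.Agp
  Pool.Agent.MP_ca1109_lc.Xp Pool.Agent.MP_ca1109_lc.Pt
open Pool.Agent.MP_ca1109_lc.Dnf (Cube ch one On Term)
open Pool.Agent.MP_ca1109_lc.Ph (Ev Dp Bd1 Dj BC PFools bst)

variable {n : ℕ}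

theorem re_pc (B : Finset (Fin n)) (v x : Cube n) :
    pc B v x = (((⟨B, v⟩ : Term n).f x : ℝ) : ℂ) := rfl

theorem sp_pc (B : Finset (Fin n)) (v : Cube n) : Sp 1 (pc B v) :=
  (Sp_real (⟨B, v⟩ : Term n).f).mono (Dnf.L1_term _)

theorem re_on (B : Finset (Fin n)) (v : Cube n) : On B (pc B v) := by
  intro x y h
  unfold pc pat
  congr 3
  refine propext ⟨fun h1 i hi => (h i hi).symm.trans (h1 i hi),
    fun h1 i hi => (h i hi).trans (h1 i hi)⟩

theorem re_mean (B : Finset (Fin n)) (v : Cube n) : av (pc B v) = (1 / 2) ^ B.card := by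
  have h1 : (av fun x => pc B v x) = (((avg fun x => (⟨B, v⟩ : Term n).f x) : ℝ) : ℂ) :=
    in_ofReal _
  rw [show av (pc B v) = av fun x => pc B v x from rfl, h1, spb_avg_E, Dnf.E_term]
  push_cast
  rfl

theorem av_pc (B : Finset (Fin n)) (v : Cube n) {t : Cube n → ℂ} (ht : On Bᶜ t) :
    av (fun x => pc B v x * t x) = (1 / 2) ^ B.card * av t := by
  rw [av_mul_on disjoint_compl_right (re_on B v) ht, re_mean]

theorem pc_xo (B : Finset (Fin n)) (v x s : Cube n) : pc B v (xo x s) = pc B (xo v s) x := by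
  unfold pc pat
  congr 3
  refine propext (forall_congr' fun i => imp_congr_right fun _ => ?_)
  unfold xo
  cases x i <;> cases s i <;> cases v i <;> decide

theorem rel {B : Finset (Fin n)} {v : Cube n} {M δ : ℝ} {t : Cube n → ℂ} (ht : Sp M t)
    (hB : On Bᶜ t) {Ω : Type} [Fintype Ω] [Nonempty Ω] {Y : Ω → Cube n} (hδ : 0 ≤ δ)
    (hY : Bias δ Y) :
    ‖av (fun ω => pc B v (Y ω) * t (Y ω)) - (1 / 2) ^ B.card * av t‖ ≤ δ * M := by
  have h1 : Sp M fun x => pc B v x * t x := ((sp_pc B v).mul ht).mono (one_mul M).le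
  have h2 := fool hδ hY h1
  rwa [av_pc B v hB] at h2

theorem re_nonneg (B : Finset (Fin n)) (v x : Cube n) : 0 ≤ one (pat B v x) := Dnf.one_nonneg _

/-- The average of `R` over the pattern. -/
theorem re_real {B : Finset (Fin n)} {v : Cube n} {M δ : ℝ} {R : Cube n → ℝ}
    (ht : Sp M fun x => ((R x : ℝ) : ℂ)) (hB : On Bᶜ R) {Ω : Type} [Fintype Ω] [Nonempty Ω]
    {Y : Ω → Cube n} (hδ : 0 ≤ δ) (hY : Bias δ Y) :
    (avg fun ω => one (pat B v (Y ω)) * R (Y ω)) ≤ (1 / 2) ^ B.card * avg R + δ * M := by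
  have hB' : On Bᶜ fun x => ((R x : ℝ) : ℂ) := by
    intro x y h
    have := hB x y h
    simp only [this]
  have h1 := rel (v := v) ht hB' hδ hY
  have h2 : (av fun ω => pc B v (Y ω) * ((R (Y ω) : ℝ) : ℂ)) =
      (((avg fun ω => one (pat B v (Y ω)) * R (Y ω)) : ℝ) : ℂ) := by
    rw [← in_ofReal]
    congr 1
    funext ω
    unfold pc
    push_cast
    rfl
  have h3 : ((1 / 2 : ℂ)) ^ B.card * (av fun x => ((R x : ℝ) : ℂ)) =
      (((1 / 2) ^ B.card * avg R : ℝ) : ℂ) := by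
    rw [in_ofReal]
    push_cast
    rfl
  rw [h2, h3, ← Complex.ofReal_sub, Complex.norm_real, Real.norm_eq_abs] at h1
  linarith [(abs_le.1 h1).2]

/-- Small bias fools product tests of bounded loss, conditionally. -/
theorem relSB {Lam ε : ℝ} (hε : 0 < ε) : ∃ K : ℕ, ∀ (n N : ℕ) (J : Finset (Fin n))
    (I : Fin n → Finset (Fin n)) (g : Fin n → Cube n → ℂ), Blk N J I g →
    ∑ j ∈ J, (1 - ‖av (g j)‖) ≤ Lam → ∀ (B : Finset (Fin n)), (∀ j ∈ J, Disjoint (I j) B) →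
    ∀ (v : Cube n) (S : Finset (Fin n)), Disjoint S B →
    ∀ {Ω : Type} [Fintype Ω] [Nonempty Ω] (Y : Ω → Cube n) (δ : ℝ), 0 ≤ δ → Bias δ Y →
      ‖av (fun ω => pc B v (Y ω) * (((ch S (Y ω) : ℝ) : ℂ) * ∏ j ∈ J, g j (Y ω))) -
        (1 / 2) ^ B.card * av (fun x => ((ch S x : ℝ) : ℂ) * ∏ j ∈ J, g j x)‖ ≤
        (1 / 2) ^ B.card * ε + δ * bd K n N := by
  obtain ⟨K, hK⟩ := sb (Lam := Lam) (ε := ε / 2) (by linarith)
  refine ⟨2 * K, fun n N J I g hg hL B hIB v S hS Ω _ _ Y δ hδ hY => ?_⟩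
  obtain ⟨t₀, R₀, h1, h2, h3, h4⟩ := hK n N J I g hg hL
  set P : Cube n → ℂ := fun x => ∏ j ∈ J, g j x with hP
  have hPB : On Bᶜ P := by
    intro x y hxy
    refine prod_congr rfl fun j hj => hg.on j hj x y fun i hi => hxy i ?_
    rw [mem_compl]
    exact Finset.disjoint_left.1 (hIB j hj) hi
  set t : Cube n → ℂ := Ph.ac' B t₀ with ht
  set R : Cube n → ℝ := Ph.ar B R₀ with hR
  have t1 : ∀ x, ‖P x - t x‖ ≤ R x := Ph.ac_close hPB h1
  have t2 : avg R ≤ ε / 2 := (Ph.avg_ar B R₀).trans_le h2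
  have t3 : Sp (bd K n N) t := Ph.sp_ac B h3
  have t4 : Sp (bd K n N) fun x => ((R x : ℝ) : ℂ) := Ph.sp_ar B h4
  have t5 : On Bᶜ t := Ph.ac_on B t₀
  have t6 : On Bᶜ R := Ph.ar_on B R₀
  have hch : On Bᶜ fun x : Cube n => ((ch S x : ℝ) : ℂ) := by
    intro x y hxy
    have : ch S x = ch S y := by
      unfold ch
      refine prod_congr rfl fun i hi => ?_
      rw [hxy i (mem_compl.2 (Finset.disjoint_left.1 hS hi))]
    simp only [this]
  -- the first error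
  have e1 : ‖av (fun ω => pc B v (Y ω) * (((ch S (Y ω) : ℝ) : ℂ) * P (Y ω))) -
      av (fun ω => pc B v (Y ω) * (((ch S (Y ω) : ℝ) : ℂ) * t (Y ω)))‖ ≤
      avg fun ω => one (pat B v (Y ω)) * R (Y ω) := by
    rw [← sf_av_sub]
    refine (norm_av_le _).trans (avg_mono fun ω => ?_)
    rw [← mul_sub, ← mul_sub, norm_mul, norm_mul, sf_norm_ch, one_mul]
    have h5 : ‖pc B v (Y ω)‖ = one (pat B v (Y ω)) := by
      unfold pc
      rw [Complex.norm_real, Real.norm_eq_abs, abs_of_nonneg (Dnf.one_nonneg _)]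
    rw [h5]
    exact mul_le_mul_of_nonneg_left (t1 _) (Dnf.one_nonneg _)
  have e2 := re_real (v := v) t4 t6 hδ hY
  -- the second error
  have e3 : ‖av (fun ω => pc B v (Y ω) * (((ch S (Y ω) : ℝ) : ℂ) * t (Y ω))) -
      (1 / 2) ^ B.card * av (fun x => ((ch S x : ℝ) : ℂ) * t x)‖ ≤ δ * bd K n N :=
    rel (v := v) (t := fun x => ((ch S x : ℝ) : ℂ) * t x) (t3.ch_mul S)
      (fun x y hxy => congr_arg₂ (· * ·) (hch x y hxy) (t5 x y hxy)) hδ hY
  -- the third error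
  have e4 : ‖av (fun x : Cube n => ((ch S x : ℝ) : ℂ) * P x) -
      av (fun x => ((ch S x : ℝ) : ℂ) * t x)‖ ≤ avg R :=
    sf_err (P := P) (t := t) (R := R) t1 S (fun x : Cube n => x)
  have e5 : δ * (2 * bd K n N) ≤ δ * bd (2 * K) n N :=
    mul_le_mul_of_nonneg_left (sf_bd_two K n N hg.pos) hδ
  have hp : (0 : ℝ) ≤ (1 / 2) ^ B.card := by positivity
  change ‖av (fun ω => pc B v (Y ω) * (((ch S (Y ω) : ℝ) : ℂ) * P (Y ω))) -
    (1 / 2) ^ B.card * av (fun x => ((ch S x : ℝ) : ℂ) * P x)‖ ≤ _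
  set a := av (fun ω => pc B v (Y ω) * (((ch S (Y ω) : ℝ) : ℂ) * P (Y ω)))
  set b := av (fun x : Cube n => ((ch S x : ℝ) : ℂ) * P x)
  set c := av (fun ω => pc B v (Y ω) * (((ch S (Y ω) : ℝ) : ℂ) * t (Y ω)))
  set d := av (fun x : Cube n => ((ch S x : ℝ) : ℂ) * t x)
  have e6 : ‖((1 / 2 : ℂ)) ^ B.card * (b - d)‖ ≤ (1 / 2) ^ B.card * avg R := by
    rw [norm_mul, norm_pow, norm_div, norm_one, Complex.norm_ofNat]
    exact mul_le_mul_of_nonneg_left e4 hp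
  have e7 : ‖a - (1 / 2) ^ B.card * b‖ ≤ ‖a - c‖ + ‖c - (1 / 2) ^ B.card * d‖ +
      ‖((1 / 2 : ℂ)) ^ B.card * (b - d)‖ := by
    have : a - (1 / 2) ^ B.card * b = (a - c) + (c - (1 / 2) ^ B.card * d) -
        (1 / 2) ^ B.card * (b - d) := by ring
    rw [this]
    exact (norm_sub_le _ _).trans (add_le_add (norm_add_le _ _) le_rfl)
  have e8 : (1 / 2) ^ B.card * avg R ≤ (1 / 2) ^ B.card * (ε / 2) :=
    mul_le_mul_of_nonneg_left t2 hp
  nlinarith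

end Pool.Agent.MP_ca1109_lc.Rf
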