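import Mathlib

/-!
# Decision trees over programs and gates which read disjoint unordered blocks of bits: the class
-/

namespace Pool.Agent.MP_ca1109_lc.Rf

/-- The `a j` are functions of the blocks `{i | b i = j}`. -/
def Blo {n : ℕ} {α : Type} (b : Fin n → Fin n) (a : Fin n → (Fin n → Bool) → α) : Prop :=
  ∀ j x y, (∀ i, b i = j → x i = y i) → a j x = a j y

/-- The last state of a program which reads the blocks in the order `π` and starts in `q`; the
transition of the block `j` is `τ j x`. -/
def run {n : ℕ} {Q : Type} (π : Equiv.Perm (Fin n)) (τ : Fin n → (Fin n → Bool) → Q → Q) (q : Q)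
    (x : Fin n → Bool) : Q :=
  (List.finRange n).foldl (fun s i => τ (π i) x s) q

/-- The map is constant. -/
def Const {Q : Type} (f : Q → Q) : Prop := ∃ c, ∀ s, f s = c

/-- A gate over the blocks `{i | b i = j}` of bits:
* a read-once program with at most `B` states which reads the blocks in an arbitrary order; the
  transition of a block is an arbitrary function of its bits, but any two transitions which are not
  constant commute (no condition for two states);
* or the question whether a sum of arbitrary functions of the blocks with values in a finite abelian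
  group lies in a set of at most `B` elements;
* or the question whether a sum of arbitrary real functions of the blocks is at least `θ`. -/
def RGate (B : ℕ) {n : ℕ} (b : Fin n → Fin n) (g : (Fin n → Bool) → Bool) : Prop :=
  (∃ (Q : Type) (_ : Fintype Q) (π : Equiv.Perm (Fin n)) (τ : Fin n → (Fin n → Bool) → Q → Q)
    (q : Q) (A : Set Q), Fintype.card Q ≤ B ∧ Blo b τ ∧
    (∀ j x j' x', Const (τ j x) ∨ Const (τ j' x') ∨ ∀ s, τ j x (τ j' x' s) = τ j' x' (τ j x s)) ∧
    ∀ x, g x = true ↔ run π τ q x ∈ A) ∨
  (∃ (G : Type) (_ : AddCommGroup G) (_ : Finite G) (a : Fin n → (Fin n → Bool) → G)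
    (A : Finset G), A.card ≤ B ∧ Blo b a ∧ ∀ x, g x = true ↔ ∑ j, a j x ∈ A) ∨
  ∃ (w : Fin n → (Fin n → Bool) → ℝ) (θ : ℝ), Blo b w ∧ ∀ x, g x = true ↔ θ ≤ ∑ j, w j x

/-- `T` is a Boolean function of `k` gates over the same blocks, of at most `c log n` bits. -/
def RTest (c B k n : ℕ) (T : (Fin n → Bool) → Bool) : Prop :=
  ∃ (b : Fin n → Fin n) (g : Fin k → (Fin n → Bool) → Bool) (F : (Fin k → Bool) → Bool),
    (∀ j, 2 ^ (Finset.univ.filter fun i => b i = j).card ≤ n ^ c) ∧ (∀ i, RGate B b (g i)) ∧
    ∀ x, T x = F fun i => g i x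

/-- Decision trees of depth `d` which query single bits and have the tests in `𝒯` at their leaves. -/
inductive DTree {n : ℕ} (𝒯 : ((Fin n → Bool) → Bool) → Prop) :
    ℕ → ((Fin n → Bool) → Bool) → Prop
  | leaf {T : (Fin n → Bool) → Bool} : 𝒯 T → DTree 𝒯 0 T
  | node {d : ℕ} {T U : (Fin n → Bool) → Bool} (i : Fin n) : DTree 𝒯 d T → DTree 𝒯 d U →
      DTree 𝒯 (d + 1) fun x => if x i = true then U x else T x

/-- `T` has a decision tree of depth at most `c log n` whose leaves are Boolean functions of `k`
gates, with their own blocks at every leaf. -/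
def DTest (c B k n : ℕ) (T : (Fin n → Bool) → Bool) : Prop :=
  ∃ d : ℕ, 2 ^ d ≤ n ^ c ∧ DTree (RTest c B k n) d T

end Pool.Agent.MP_ca1109_lc.Rf
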