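import Pool.Agent.MP_ca1109_lc.Rf.Defs
import Pool.Agent.MP_ca1109_lc.Rf.Test

/-!
# Row DT: decision trees

* `dtree`: if the leaf tests are fooled conditionally on the patterns of at most `d` bits, then the
  trees of depth `d` are fooled.
-/

namespace Pool.Agent.MP_ca1109_lc.Rf

open Finset Pool.Agent.H66 Pool.Agent.MP_ca1109_lc.Mpg Pool.Agent.MP_ca1109_lc.Agp
  Pool.Agent.MP_ca1109_lc.Xp Pool.Agent.MP_ca1109_lc.Pt
open Pool.Agent.MP_ca1109_lc.Dnf (Cube ch one On)

variable {n : ℕ}

theorem dt_avg_add {Ω : Type*} [Fintype Ω] (f g : Ω → ℝ) :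
    (avg fun ω => f ω + g ω) = avg f + avg g := by
  simp only [avg, Finset.sum_add_distrib, add_div]

theorem dt_one_true {P : Prop} (h : P) : one P = 1 := by simp [one, h]

theorem dt_one_false {P : Prop} (h : ¬ P) : one P = 0 := by simp [one, h]

/-- A query of a bit which is known. -/
theorem dt_mem {D : Finset (Fin n)} {v x : Cube n} {i : Fin n} (hi : i ∈ D) (U T : Cube n → Bool) :
    one (pat D v x) * one ((if x i = true then U x else T x) = true) =
      one (pat D v x) * one ((if v i = true then U x else T x) = true) := by
  by_cases h : pat D v x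
  · rw [h i hi]
  · rw [dt_one_false h, zero_mul, zero_mul]

/-- A query of a new bit. -/
theorem dt_not {D : Finset (Fin n)} {v : Cube n} {i : Fin n} (hi : i ∉ D) (U T : Cube n → Bool)
    (x : Cube n) :
    one (pat D v x) * one ((if x i = true then U x else T x) = true) =
      one (pat (insert i D) (Function.update v i true) x) * one (U x = true) +
        one (pat (insert i D) (Function.update v i false) x) * one (T x = true) := by
  have key : ∀ c : Bool, pat (insert i D) (Function.update v i c) x ↔ (x i = c ∧ pat D v x) := by
    intro c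
    constructor
    · intro h
      refine ⟨by simpa using h i (mem_insert_self i D), fun j hj => ?_⟩
      have hji : j ≠ i := fun e => hi (e ▸ hj)
      simpa [Function.update_of_ne hji] using h j (mem_insert_of_mem hj)
    · rintro ⟨h1, h2⟩ j hj
      rcases mem_insert.1 hj with rfl | hj
      · simpa using h1
      · have hji : j ≠ i := fun e => hi (e ▸ hj)
        simpa [Function.update_of_ne hji] using h2 j hj
  by_cases hp : pat D v x
  · cases hx : x i
    · have h1 : ¬ pat (insert i D) (Function.update v i true) x := by
        rw [key]; simp [hx]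
      have h2 : pat (insert i D) (Function.update v i false) x := by
        rw [key]; exact ⟨hx, hp⟩
      rw [dt_one_true hp, dt_one_false h1, dt_one_true h2]
      simp
    · have h1 : pat (insert i D) (Function.update v i true) x := by
        rw [key]; exact ⟨hx, hp⟩
      have h2 : ¬ pat (insert i D) (Function.update v i false) x := by
        rw [key]; simp [hx]
      rw [dt_one_true hp, dt_one_true h1, dt_one_false h2]
      simp
  · have h1 : ¬ pat (insert i D) (Function.update v i true) x := fun h => hp ((key _).1 h).2
    have h2 : ¬ pat (insert i D) (Function.update v i false) x := fun h => hp ((key _).1 h).2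
    rw [dt_one_false hp, dt_one_false h1, dt_one_false h2]
    simp

theorem dt_ind {d : ℕ} {ε τ : ℝ} (hτ : 0 ≤ τ)
    {𝒯 : (Cube n → Bool) → Prop} {Ω : Type} [Fintype Ω] [Nonempty Ω] (X : Ω → Cube n)
    (H : ∀ T, 𝒯 T → ∀ (D : Finset (Fin n)) (v : Cube n), D.card ≤ d →
      |(avg fun ω => one (pat D v (X ω)) * one (T (X ω) = true)) -
        avg fun x => one (pat D v x) * one (T x = true)| ≤ (1 / 2) ^ D.card * ε + τ)
    {e : ℕ} {T : Cube n → Bool} (hT : DTree 𝒯 e T) :
    ∀ (D : Finset (Fin n)) (v : Cube n), D.card + e ≤ d →
      |(avg fun ω => one (pat D v (X ω)) * one (T (X ω) = true)) -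
        avg fun x => one (pat D v x) * one (T x = true)| ≤ (1 / 2) ^ D.card * ε + 2 ^ e * τ := by
  induction hT with
  | leaf h =>
    intro D v hD
    simpa using H _ h D v (by omega)
  | @node e T U i hT hU ihT ihU =>
    intro D v hD
    have h2 : (2 : ℝ) ^ e * τ ≤ 2 ^ (e + 1) * τ := by
      have : (0 : ℝ) ≤ 2 ^ e * τ := by positivity
      rw [pow_succ]; linarith
    by_cases hi : i ∈ D
    · have e1 : (fun ω => one (pat D v (X ω)) *
          one ((if (X ω) i = true then U (X ω) else T (X ω)) = true)) =
          fun ω => one (pat D v (X ω)) *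
            one ((if v i = true then U (X ω) else T (X ω)) = true) :=
        funext fun ω => dt_mem hi U T
      have e2 : (fun x => one (pat D v x) * one ((if x i = true then U x else T x) = true)) =
          fun x => one (pat D v x) * one ((if v i = true then U x else T x) = true) :=
        funext fun x => dt_mem hi U T
      rw [e1, e2]
      cases hv : v i
      · simpa only [Bool.false_eq_true, if_false] using
          (ihT D v (by omega)).trans (add_le_add le_rfl h2)
      · simpa only [if_true] using (ihU D v (by omega)).trans (add_le_add le_rfl h2)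
    · have e1 : (fun ω => one (pat D v (X ω)) *
          one ((if (X ω) i = true then U (X ω) else T (X ω)) = true)) = fun ω =>
          one (pat (insert i D) (Function.update v i true) (X ω)) * one (U (X ω) = true) +
            one (pat (insert i D) (Function.update v i false) (X ω)) * one (T (X ω) = true) :=
        funext fun ω => dt_not hi U T (X ω)
      have e2 : (fun x => one (pat D v x) * one ((if x i = true then U x else T x) = true)) =
          fun x => one (pat (insert i D) (Function.update v i true) x) * one (U x = true) +
            one (pat (insert i D) (Function.update v i false) x) * one (T x = true) :=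
        funext fun x => dt_not hi U T x
      rw [e1, e2, dt_avg_add, dt_avg_add]
      have hc : (insert i D).card = D.card + 1 := card_insert_of_notMem hi
      have a1 := ihU (insert i D) (Function.update v i true) (by omega)
      have a2 := ihT (insert i D) (Function.update v i false) (by omega)
      rw [hc] at a1 a2
      rw [abs_le] at a1 a2 ⊢
      have p1 : (1 / 2 : ℝ) ^ (D.card + 1) * ε + (1 / 2 : ℝ) ^ (D.card + 1) * ε =
          (1 / 2 : ℝ) ^ D.card * ε := by rw [pow_succ]; ring
      have p2 : (2 : ℝ) ^ (e + 1) * τ = 2 ^ e * τ + 2 ^ e * τ := by rw [pow_succ]; ring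
      constructor <;> linarith [a1.1, a1.2, a2.1, a2.2]

theorem dtree {N b d : ℕ} {ε τ : ℝ} (hε : 0 ≤ ε) (hτ : 0 ≤ τ)
    {𝒯 : (Cube n → Bool) → Prop} {Ω : Type} [Fintype Ω] [Nonempty Ω] (X : Ω → Cube n)
    (H : ∀ T, 𝒯 T → ∀ (D : Finset (Fin n)) (v : Cube n), D.card ≤ d →
      |(avg fun ω => one (pat D v (X ω)) * one (T (X ω) = true)) -
        avg fun x => one (pat D v x) * one (T x = true)| ≤ (1 / 2) ^ D.card * ε + τ)
    {T : Cube n → Bool} (hT : DTree 𝒯 d T) :
    |(avg fun ω => one (T (X ω) = true)) - avg fun x => one (T x = true)| ≤ ε + 2 ^ d * τ := by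
  have h := dt_ind hτ X H hT ∅ (fun _ => false) (by simp)
  have hp : ∀ x : Cube n, one (pat ∅ (fun _ => false) x) = 1 := fun x =>
    dt_one_true fun i hi => absurd hi (notMem_empty i)
  simpa [hp] using h

end Pool.Agent.MP_ca1109_lc.Rf
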