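import Pool.Agent.MP_ca1109_lc.Rf.Defs
import Pool.Agent.MP_ca1109_lc.Pt.XZ

/-!
# The generator: vector hashing, `t l` random bits at the level `l`

The number of random bits of the level `l` is `a + b (C / 2 ^ l)`, `C = clog n`. The first `a` bits
of the level `l` are at the positions `a l + r`, the others at `a (C + 1) + b (C / 2 ^ l) + r'`.
-/

namespace Pool.Agent.MP_ca1109_lc.Rf

open Finset Pool.Agent.H66 Pool.Agent.MP_ca1109_lc.Mpg Pool.Agent.MP_ca1109_lc.Agp
  Pool.Agent.MP_ca1109_lc.Xp Pool.Agent.MP_ca1109_lc.Pt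
open Pool.Agent.MP_ca1109_lc.Dnf (Cube ch one On)

variable {n : ℕ}

/-! ### The ingredients, on natural numbers -/

/-- The number of levels. -/
def geL (n : ℕ) : ℕ := Nat.clog 2 n + 1

/-- The number of random bits of the level `l`. -/
def geTl (a b n l : ℕ) : ℕ := a + b * (Nat.clog 2 n / 2 ^ l)

/-- The length of a vector. -/
def geT (a b n : ℕ) : ℕ := a + b * Nat.clog 2 n

/-- The length of the second string. -/
def geN (a b n : ℕ) : ℕ := n * (geL n + geT a b n)

/-- The number of random bits. -/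
def geR (a b n : ℕ) : ℕ := a * geL n + 2 * b * Nat.clog 2 n

/-- The number of values of the true random bits. -/
def geV (a b n : ℕ) : ℕ := 2 ^ geR a b n

/-- The position of the bit `r` of the level `l`. -/
def gePo (a b n l r : ℕ) : ℕ :=
  if r < a then a * l + r else a * geL n + b * (Nat.clog 2 n / 2 ^ l) + (r - a)

/-- The bit `t` of the block `i` of the second string. -/
def geZ (a b : ℕ) (G : ℕ → ℕ → ℕ → Bool) (n p i t : ℕ) : Bool :=
  G (geN a b n) p (t + (geL n + geT a b n) * i)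

/-- The inner product. -/
def geI (a b : ℕ) (G : ℕ → ℕ → ℕ → Bool) (n p v i l : ℕ) : Bool :=
  decide (((List.range (geTl a b n l)).filter fun r =>
    decide (v / 2 ^ (gePo a b n l r) % 2 = 1) && geZ a b G n p i (geL n + r)).length % 2 = 1)

/-- The levels which change the bit `i`. -/
def geU (a b : ℕ) (G : ℕ → ℕ → ℕ → Bool) (n p v i l : ℕ) : Bool :=
  ((List.range l).filter fun t => !geZ a b G n p i t).isEmpty && geI a b G n p v i l

/-- The number of seeds of the second string. -/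
def geM (a b : ℕ) (E : ℕ → ℕ) (n : ℕ) : ℕ := 2 ^ E (geN a b n)

/-- The generator. -/
def geG (a b : ℕ) (E₂ : ℕ → ℕ) (G₁ G₂ : ℕ → ℕ → ℕ → Bool) (n p i : ℕ) : Bool :=
  xor (G₁ n (p / geV a b n / geM a b E₂ n) i)
    (decide (((List.range (geL n)).filter fun l =>
      geU a b G₂ n (p / geV a b n % geM a b E₂ n) (p % geV a b n) i l).length % 2 = 1))

/-- The length of the seed. -/
def geE (a b : ℕ) (E₁ E₂ : ℕ → ℕ) (n : ℕ) : ℕ := E₁ n + E₂ (geN a b n) + geR a b n

/-! ### It is explicit -/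

theorem geL_poly : PolyTime fun n : ℕ => geL n :=
  PolyTime.add polyTime_clog (PolyTime.const 1)

theorem geT_poly (a b : ℕ) : PolyTime fun n : ℕ => geT a b n :=
  PolyTime.add (PolyTime.const a) (PolyTime.mul (PolyTime.const b) polyTime_clog)

theorem geN_poly (a b : ℕ) : PolyTime fun n : ℕ => geN a b n :=
  PolyTime.mul PolyTime.id (PolyTime.add geL_poly (geT_poly a b))

theorem geR_poly (a b : ℕ) : PolyTime fun n : ℕ => geR a b n :=
  PolyTime.add (PolyTime.mul (PolyTime.const a) geL_poly)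
    (PolyTime.mul (PolyTime.const (2 * b)) polyTime_clog)

theorem geV_eq (a b n : ℕ) : geV a b n = 2 ^ a * nseed (a + 2 * b) n := by
  unfold geV nseed geR geL
  rw [← pow_mul, ← pow_add]
  congr 1
  ring

theorem geV_poly (a b : ℕ) : PolyTime fun n : ℕ => geV a b n :=
  (PolyTime.mul (PolyTime.const (2 ^ a)) (polyTime_nseed (a + 2 * b))).of_eq
    fun n => (geV_eq a b n).symm

theorem geM_poly (a b : ℕ) {E : ℕ → ℕ} (h : PolyTime fun n : ℕ => 2 ^ E n) :
    PolyTime fun n : ℕ => geM a b E n := h.comp (geN_poly a b)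

theorem geE_pow (a b : ℕ) (E₁ E₂ : ℕ → ℕ) (n : ℕ) :
    2 ^ geE a b E₁ E₂ n = 2 ^ E₁ n * geM a b E₂ n * geV a b n := by
  unfold geE geM geV
  rw [pow_add, pow_add]

theorem ge_clog (n : ℕ) : Nat.clog 2 n ≤ n := by
  rcases Nat.eq_zero_or_pos n with rfl | h
  · simp
  · exact Nat.clog_le_of_le_pow (Nat.lt_two_pow_self).le

theorem geN_bound (a b : ℕ) : ∃ c : ℕ, ∀ n : ℕ, geN a b n + 1 ≤ c * (n + 1) ^ c := by
  refine ⟨a + b + 2, fun n => ?_⟩
  have h1 := ge_clog n
  have h2 : geN a b n + 1 ≤ (a + b + 2) * (n + 1) ^ 2 := by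
    unfold geN geL geT
    have h3 : n * (Nat.clog 2 n + 1 + (a + b * Nat.clog 2 n)) ≤ n * (n + 1 + (a + b * n)) :=
      Nat.mul_le_mul_left _ (by
        have := Nat.mul_le_mul_left b h1
        omega)
    have h4 : (a + b + 2) * (n + 1) ^ 2 = n * (n + 1 + (a + b * n)) + 1 +
        ((a + 1) * n ^ 2 + (a + 2 * b + 3) * n + (a + b + 1)) := by ring
    omega
  exact h2.trans (Nat.mul_le_mul_left _ (Nat.pow_le_pow_right (by omega) (by omega)))

theorem geM_bound (a b : ℕ) {E : ℕ → ℕ} (h : ∃ c : ℕ, ∀ n, 2 ^ E n ≤ c * (n + 1) ^ c) :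
    ∃ c : ℕ, ∀ n, geM a b E n ≤ c * (n + 1) ^ c := by
  obtain ⟨c, hc⟩ := h
  obtain ⟨d, hd⟩ := pb_mul (pb_const c) (pb_pow (geN_bound a b) c)
  exact ⟨d, fun n => (hc _).trans (hd n)⟩

theorem geZ_poly (a b : ℕ) {E : ℕ → ℕ} {G : ℕ → ℕ → ℕ → Bool} (h : NG E G) {γ : Type} [Enc γ]
    {n p i t : γ → ℕ} (hn : PolyTime n) (hp : PolyTime p) (hi : PolyTime i) (ht : PolyTime t) :
    PolyTime fun c => geZ a b G (n c) (p c) (i c) (t c) := by
  unfold geZ
  exact polyTime_out h ((geN_poly a b).comp hn) hp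
    (PolyTime.add ht (PolyTime.mul (PolyTime.add (geL_poly.comp hn) ((geT_poly a b).comp hn)) hi))

/-- The number `C / 2 ^ l`. -/
theorem ge_div_poly {γ : Type} [Enc γ] {n l : γ → ℕ} (hn : PolyTime n) (hl : PolyTime l) :
    PolyTime fun c => Nat.clog 2 (n c) / 2 ^ (l c) :=
  g3_divpow (polyTime_clog.comp hn) hl

theorem geTl_poly (a b : ℕ) {γ : Type} [Enc γ] {n l : γ → ℕ} (hn : PolyTime n) (hl : PolyTime l) :
    PolyTime fun c => geTl a b (n c) (l c) :=
  PolyTime.add (PolyTime.const a) (PolyTime.mul (PolyTime.const b) (ge_div_poly hn hl))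

theorem gePo_poly (a b : ℕ) {γ : Type} [Enc γ] {n l r : γ → ℕ} (hn : PolyTime n)
    (hl : PolyTime l) (hr : PolyTime r) : PolyTime fun c => gePo a b (n c) (l c) (r c) := by
  have h1 : PolyTime fun c => decide (r c < a) := PolyTime.ltb hr (PolyTime.const a)
  have h2 : PolyTime fun c => a * l c + r c :=
    PolyTime.add (PolyTime.mul (PolyTime.const a) hl) hr
  have h3 : PolyTime fun c =>
      a * geL (n c) + b * (Nat.clog 2 (n c) / 2 ^ (l c)) + (r c - a) :=
    PolyTime.add (PolyTime.add (PolyTime.mul (PolyTime.const a) (geL_poly.comp hn))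
      (PolyTime.mul (PolyTime.const b) (ge_div_poly hn hl))) (PolyTime.sub hr (PolyTime.const a))
  exact (PolyTime.ite h1 h2 h3).of_eq fun c => by
    unfold gePo
    by_cases h : r c < a <;> simp [h]

theorem geI_poly (a b : ℕ) {E : ℕ → ℕ} {G : ℕ → ℕ → ℕ → Bool} (h : NG E G) {γ : Type} [Enc γ]
    {n p v i l : γ → ℕ} (hn : PolyTime n) (hp : PolyTime p) (hv : PolyTime v) (hi : PolyTime i)
    (hl : PolyTime l) : PolyTime fun c => geI a b G (n c) (p c) (v c) (i c) (l c) := by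
  unfold geI
  have h1 := PolyTime.filter (l := fun c : γ => List.range (geTl a b (n c) (l c)))
    (f := fun (c : γ) (r : ℕ) => decide (v c / 2 ^ (gePo a b (n c) (l c) r) % 2 = 1) &&
      geZ a b G (n c) (p c) (i c) (geL (n c) + r)) (PolyTime.range (geTl_poly a b hn hl))
    (PolyTime.and (PolyTime.eqb (d3_mod (g3_divpow (hv.comp PolyTime.fst)
      (gePo_poly a b (hn.comp PolyTime.fst) (hl.comp PolyTime.fst) PolyTime.snd))
      (PolyTime.const 2)) (PolyTime.const 1))
      (geZ_poly a b h (hn.comp PolyTime.fst) (hp.comp PolyTime.fst) (hi.comp PolyTime.fst)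
        (PolyTime.add (geL_poly.comp (hn.comp PolyTime.fst)) PolyTime.snd)))
  exact PolyTime.eqb (d3_mod (PolyTime.length h1) (PolyTime.const 2)) (PolyTime.const 1)

theorem geU_poly (a b : ℕ) {E : ℕ → ℕ} {G : ℕ → ℕ → ℕ → Bool} (h : NG E G) {γ : Type} [Enc γ]
    {n p v i l : γ → ℕ} (hn : PolyTime n) (hp : PolyTime p) (hv : PolyTime v) (hi : PolyTime i)
    (hl : PolyTime l) : PolyTime fun c => geU a b G (n c) (p c) (v c) (i c) (l c) := by
  unfold geU
  have h1 := PolyTime.filter (l := fun c : γ => List.range (l c))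
    (f := fun (c : γ) (t : ℕ) => !geZ a b G (n c) (p c) (i c) t) (PolyTime.range hl)
    (PolyTime.not (geZ_poly a b h (hn.comp PolyTime.fst) (hp.comp PolyTime.fst)
      (hi.comp PolyTime.fst) PolyTime.snd))
  exact PolyTime.and (PolyTime.isEmpty.comp h1) (geI_poly a b h hn hp hv hi hl)

theorem geG_ng (a b : ℕ) {E₁ E₂ : ℕ → ℕ} {G₁ G₂ : ℕ → ℕ → ℕ → Bool} (h₁ : NG E₁ G₁)
    (h₂ : NG E₂ G₂) : NG (geE a b E₁ E₂) (geG a b E₂ G₁ G₂) := by
  refine ⟨?_, ?_, ?_, ?_⟩
  · exact PolyTime.add (PolyTime.add h₁.poly_E (h₂.poly_E.comp (geN_poly a b))) (geR_poly a b)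
  · exact (PolyTime.mul (PolyTime.mul h₁.poly_M (geM_poly a b h₂.poly_M)) (geV_poly a b)).of_eq
      fun n => (geE_pow a b E₁ E₂ n).symm
  · obtain ⟨c, hc⟩ := pb_mul (pb_mul h₁.bound (geM_bound a b h₂.bound))
      (pb_mul (pb_const (2 ^ a)) (pb_pow pb_clog (a + 2 * b)))
    refine ⟨c, fun n => ?_⟩
    rw [geE_pow, geV_eq]
    exact hc n
  · have hn : PolyTime fun q : ℕ × (ℕ × ℕ) => q.1 := PolyTime.fst
    have hp : PolyTime fun q : ℕ × (ℕ × ℕ) => q.2.1 := PolyTime.fst.comp PolyTime.snd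
    have hi : PolyTime fun q : ℕ × (ℕ × ℕ) => q.2.2 := PolyTime.snd.comp PolyTime.snd
    have hV := (geV_poly a b).comp hn
    have hM := (geM_poly a b h₂.poly_M).comp hn
    have h1 : PolyTime fun q : ℕ × (ℕ × ℕ) =>
        G₁ q.1 (q.2.1 / geV a b q.1 / geM a b E₂ q.1) q.2.2 :=
      polyTime_out h₁ hn (d3_div (d3_div hp hV) hM) hi
    have h2 := PolyTime.filter (l := fun q : ℕ × (ℕ × ℕ) => List.range (geL q.1))
      (f := fun (q : ℕ × (ℕ × ℕ)) (l : ℕ) =>
        geU a b G₂ q.1 (q.2.1 / geV a b q.1 % geM a b E₂ q.1) (q.2.1 % geV a b q.1) q.2.2 l)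
      (PolyTime.range (geL_poly.comp hn))
      (geU_poly a b h₂ (hn.comp PolyTime.fst) ((d3_mod (d3_div hp hV) hM).comp PolyTime.fst)
        ((d3_mod hp hV).comp PolyTime.fst) (hi.comp PolyTime.fst) PolyTime.snd)
    have h3 := PolyTime.eqb (d3_mod (PolyTime.length h2) (PolyTime.const 2)) (PolyTime.const 1)
    exact (PolyTime.ite h1 (PolyTime.not h3) h3).of_eq fun q => by
      unfold geG
      cases G₁ q.1 (q.2.1 / geV a b q.1 / geM a b E₂ q.1) q.2.2 <;> simp

/-! ### The true random bits -/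

theorem ge_av_inj {S X : Type} [Fintype S] [Fintype X] [DecidableEq S] [DecidableEq X]
    {j : S → X} (hj : Function.Injective j) (F : (S → Bool) → ℂ) :
    (av fun d : X → Bool => F fun s => d (j s)) = av F := by
  classical
  let C := {x : X // x ∉ Set.range j}
  let e : S ⊕ C ≃ X :=
    ((Equiv.ofInjective j hj).sumCongr (Equiv.refl C)).trans (Equiv.Set.sumCompl (Set.range j))
  have he : ∀ s, e (Sum.inl s) = j s := fun s => rfl
  let φ : (X → Bool) ≃ (S → Bool) × (C → Bool) :=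
    (Equiv.arrowCongr e.symm (Equiv.refl Bool)).trans (Equiv.sumArrowEquivProdArrow S C Bool)
  have hφ : ∀ d : X → Bool, (φ d).1 = fun s => d (j s) := fun d => by
    funext s
    show d (e (Sum.inl s)) = d (j s)
    rw [he]
  have h1 : (av fun d : X → Bool => F fun s => d (j s)) =
      av fun q : (S → Bool) × (C → Bool) => F q.1 := by
    rw [← zn_av_equiv φ fun q : (S → Bool) × (C → Bool) => F q.1]
    congr 1
  rw [h1]
  unfold av
  rw [Fintype.sum_prod_type, Fintype.card_prod]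
  simp only [Finset.sum_const, Finset.card_univ, nsmul_eq_mul]
  rw [← Finset.mul_sum, Nat.cast_mul, mul_comm (Fintype.card (S → Bool) : ℂ),
    mul_div_mul_left _ _ (by exact_mod_cast Fintype.card_ne_zero)]

theorem ge_bits {L T R : ℕ} (t : Fin L → ℕ) (pos : Fin L → Fin T → ℕ)
    (hR : ∀ l (r : Fin T), (r : ℕ) < t l → pos l r < R)
    (hj : ∀ l (r : Fin T) l' (r' : Fin T), (r : ℕ) < t l → (r' : ℕ) < t l' →
      pos l r = pos l' r' → l = l' ∧ r = r')
    (H : (Fin L → Cube T) → ℂ)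
    (hH : ∀ v v', (∀ l (r : Fin T), (r : ℕ) < t l → v l r = v' l r) → H v = H v') :
    na (2 ^ R) (fun c => H fun l r => decide (c / 2 ^ (pos l r) % 2 = 1)) = av H := by
  classical
  let S := {q : Fin L × Fin T // (q.2 : ℕ) < t q.1}
  let F : (S → Bool) → ℂ :=
    fun w => H fun l r => if h : (r : ℕ) < t l then w ⟨(l, r), h⟩ else false
  let j : S → Fin R := fun s => ⟨pos s.1.1 s.1.2, hR _ _ s.2⟩
  have hj' : Function.Injective j := by
    rintro ⟨⟨l, r⟩, h⟩ ⟨⟨l', r'⟩, h'⟩ e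
    have e1 : pos l r = pos l' r' := congrArg Fin.val e
    obtain ⟨h1, h2⟩ := hj l r l' r' h h' e1
    subst h1
    subst h2
    rfl
  have h1 : (fun c => H fun l r => decide (c / 2 ^ (pos l r) % 2 = 1)) =
      fun c => (fun d : Fin R → ℕ => F fun s => decide (d (j s) = 1))
        (fun r => c / 2 ^ (r : ℕ) % 2) := by
    funext c
    refine hH _ _ fun l r h => ?_
    rw [dif_pos h]
  have h2 : na (2 ^ R) (fun c => H fun l r => decide (c / 2 ^ (pos l r) % 2 = 1)) = av F := by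
    rw [h1, na_digits (M := 2) (by norm_num) R (fun d => F fun s => decide (d (j s) = 1)),
      ← ge_av_inj hj' F]
    rw [← zn_av_equiv (Equiv.arrowCongr (Equiv.refl (Fin R)) finTwoEquiv)
      fun d : Fin R → Bool => F fun s => d (j s)]
    congr 1
    funext y
    have h3 : (fun s : S => decide ((y (j s) : ℕ) = 1)) = fun s => finTwoEquiv (y (j s)) := by
      funext s
      generalize y (j s) = b
      fin_cases b <;> rfl
    exact congrArg F h3
  rw [h2, ← ge_av_inj (j := (Subtype.val : S → Fin L × Fin T)) Subtype.val_injective F,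
    ← zn_av_equiv (Equiv.curry (Fin L) (Fin T) Bool) H]
  congr 1
  funext d
  refine hH _ _ fun l r h => ?_
  rw [dif_pos h]
  rfl

/-! ### Positions -/

theorem geTl_le (a b n l : ℕ) : geTl a b n l ≤ geT a b n :=
  Nat.add_le_add_left (Nat.mul_le_mul_left _ (Nat.div_le_self _ _)) _

theorem ge_half (C : ℕ) {l l' : ℕ} (h : l < l') : 2 * (C / 2 ^ l') ≤ C / 2 ^ l := by
  obtain ⟨k, rfl⟩ := Nat.exists_eq_add_of_lt h
  have h1 : C / 2 ^ (l + k + 1) = C / 2 ^ l / 2 ^ k / 2 := by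
    rw [Nat.div_div_eq_div_mul, Nat.div_div_eq_div_mul, pow_succ, pow_add, mul_assoc]
  rw [h1]
  calc 2 * (C / 2 ^ l / 2 ^ k / 2) ≤ C / 2 ^ l / 2 ^ k := Nat.mul_div_le _ _
    _ ≤ C / 2 ^ l := Nat.div_le_self _ _

theorem gePo_lt (a b n : ℕ) {l r : ℕ} (hl : l < geL n) (hr : r < geTl a b n l) :
    gePo a b n l r < geR a b n := by
  unfold gePo geR geTl at *
  split_ifs with h
  · have h1 : a * l + a ≤ a * geL n := by
      rw [← Nat.mul_succ]
      exact Nat.mul_le_mul_left _ hl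
    omega
  · have h1 : b * (Nat.clog 2 n / 2 ^ l) ≤ b * Nat.clog 2 n :=
      Nat.mul_le_mul_left _ (Nat.div_le_self _ _)
    have h2 : 2 * b * Nat.clog 2 n = b * Nat.clog 2 n + b * Nat.clog 2 n := by ring
    omega

theorem gePo_inj (a b n : ℕ) {l r l' r' : ℕ} (hl : l < geL n) (hl' : l' < geL n)
    (hr : r < geTl a b n l) (hr' : r' < geTl a b n l') (h : gePo a b n l r = gePo a b n l' r') :
    l = l' ∧ r = r' := by
  have key : ∀ {l r l' r' : ℕ}, l < l' → l < geL n → l' < geL n → r < geTl a b n l →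
      r' < geTl a b n l' → gePo a b n l r ≠ gePo a b n l' r' := by
    intro l r l' r' hll hl hl' hr hr' h
    have h1 : a * l + a ≤ a * geL n := by
      rw [← Nat.mul_succ]
      exact Nat.mul_le_mul_left _ hl
    have h1' : a * l' + a ≤ a * geL n := by
      rw [← Nat.mul_succ]
      exact Nat.mul_le_mul_left _ hl'
    have h2 : a * l + a ≤ a * l' := by
      rw [← Nat.mul_succ]
      exact Nat.mul_le_mul_left _ hll
    have h3 : b * (Nat.clog 2 n / 2 ^ l') + b * (Nat.clog 2 n / 2 ^ l') ≤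
        b * (Nat.clog 2 n / 2 ^ l) := by
      have h4 := Nat.mul_le_mul_left b (ge_half (Nat.clog 2 n) hll)
      calc b * (Nat.clog 2 n / 2 ^ l') + b * (Nat.clog 2 n / 2 ^ l') =
          b * (2 * (Nat.clog 2 n / 2 ^ l')) := by ring
        _ ≤ _ := h4
    unfold gePo geTl at *
    split_ifs at h <;> omega
  rcases lt_trichotomy l l' with h1 | h1 | h1
  · exact absurd h (key h1 hl hl' hr hr')
  · subst h1
    refine ⟨rfl, ?_⟩
    have h1 : a * l + a ≤ a * geL n := by
      rw [← Nat.mul_succ]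
      exact Nat.mul_le_mul_left _ hl
    unfold gePo geTl at *
    split_ifs at h <;> omega
  · exact absurd h.symm (key h1 hl' hl hr' hr)

/-! ### The number of random bits is large enough -/

theorem ge_pow (b T₀ n : ℕ) (l m : ℕ) (hm : 2 ^ m ≤ n ^ b) :
    (1 + (1 / 2 : ℝ) ^ l) ^ m * 2 ^ T₀ ≤ 2 ^ geTl (T₀ + 2 * b) (2 * b) n l := by
  have h1 : m ≤ b * Nat.clog 2 n := by
    have h2 : n ^ b ≤ 2 ^ (b * Nat.clog 2 n) := by
      rw [mul_comm, pow_mul]
      exact Nat.pow_le_pow_left (Nat.le_pow_clog (by norm_num) n) b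
    exact (Nat.pow_le_pow_iff_right (by norm_num)).mp (hm.trans h2)
  set x := Nat.clog 2 n / 2 ^ l with hx
  have h3 : m ≤ 2 ^ l * (b * (x + 1)) := by
    have h4 : Nat.clog 2 n ≤ 2 ^ l * (x + 1) := by
      have := Nat.lt_mul_div_succ (Nat.clog 2 n) (show 0 < 2 ^ l by positivity)
      exact this.le
    calc m ≤ b * Nat.clog 2 n := h1
      _ ≤ b * (2 ^ l * (x + 1)) := Nat.mul_le_mul_left _ h4
      _ = _ := by ring
  have h5 : (1 + (1 / 2 : ℝ) ^ l) ^ (2 ^ l) ≤ 4 := by
    have h6 : (1 + (1 / 2 : ℝ) ^ l) ≤ Real.exp ((1 / 2 : ℝ) ^ l) := by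
      rw [add_comm]
      exact Real.add_one_le_exp _
    calc (1 + (1 / 2 : ℝ) ^ l) ^ (2 ^ l) ≤ Real.exp ((1 / 2 : ℝ) ^ l) ^ (2 ^ l) :=
          pow_le_pow_left₀ (by positivity) h6 _
      _ = Real.exp 1 := by
          rw [← Real.exp_nat_mul]
          congr 1
          push_cast
          rw [← mul_pow]
          norm_num
      _ ≤ 4 := by
          have := Real.exp_one_lt_d9
          linarith
  have h7 : (1 : ℝ) ≤ 1 + (1 / 2 : ℝ) ^ l := by
    have : (0 : ℝ) ≤ (1 / 2 : ℝ) ^ l := by positivity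
    linarith
  calc (1 + (1 / 2 : ℝ) ^ l) ^ m * 2 ^ T₀ ≤
        (1 + (1 / 2 : ℝ) ^ l) ^ (2 ^ l * (b * (x + 1))) * 2 ^ T₀ :=
        mul_le_mul_of_nonneg_right (pow_le_pow_right₀ h7 h3) (by positivity)
    _ = ((1 + (1 / 2 : ℝ) ^ l) ^ (2 ^ l)) ^ (b * (x + 1)) * 2 ^ T₀ := by rw [pow_mul]
    _ ≤ 4 ^ (b * (x + 1)) * 2 ^ T₀ :=
        mul_le_mul_of_nonneg_right (pow_le_pow_left₀ (by positivity) h5 _) (by positivity)
    _ = 2 ^ geTl (T₀ + 2 * b) (2 * b) n l := by
        rw [show (4 : ℝ) = 2 ^ 2 by norm_num, ← pow_mul, ← pow_add]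
        unfold geTl
        congr 1
        rw [← hx]
        ring

/-! ### The form of the output -/

/-- The vectors. -/
def geW (a b n c : ℕ) : Fin (geL n) → Cube (geT a b n) :=
  fun l r => decide (c / 2 ^ (gePo a b n l r) % 2 = 1)

/-- The second string. -/
def geZs (a b : ℕ) (G : ℕ → ℕ → ℕ → Bool) (n p : ℕ) : Cube (n * (geL n + geT a b n)) :=
  out G (n * (geL n + geT a b n)) p

theorem geZ_eq (a b : ℕ) (G : ℕ → ℕ → ℕ → Bool) (n p : ℕ) (i : Fin n)
    (t : Fin (geL n + geT a b n)) :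
    geZ a b G n p i t = geZs a b G n p (finProdFinEquiv (i, t)) := rfl

theorem geI_eq (a b : ℕ) (G : ℕ → ℕ → ℕ → Bool) (n p c : ℕ) (i : Fin n) (l : Fin (geL n)) :
    geI a b G n p c i l = ip (geTl a b n l) (geW a b n c l) (hv (geZs a b G n p) i) := by
  unfold geI ip
  congr 2
  congr 1
  rw [← zn_count (fun r => decide (c / 2 ^ (gePo a b n l r) % 2 = 1) &&
      geZ a b G n p i (geL n + r)) (geTl a b n l), card_filter]
  rw [Fin.sum_univ_eq_sum_range (fun r => if (decide (c / 2 ^ (gePo a b n l r) % 2 = 1) &&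
      geZ a b G n p i (geL n + r)) = true then 1 else 0) (geTl a b n l)]
  have h1 : (∑ r : Fin (geT a b n), if (r : ℕ) < geTl a b n l ∧ geW a b n c l r = true ∧
      hv (geZs a b G n p) i r = true then 1 else 0) = ∑ r : Fin (geT a b n),
      (fun r : ℕ => if r < geTl a b n l ∧ (decide (c / 2 ^ (gePo a b n l r) % 2 = 1) &&
        geZ a b G n p i (geL n + r)) = true then 1 else 0) (r : ℕ) := by
    refine Finset.sum_congr rfl fun r _ => ?_
    have h2 : geZ a b G n p i (geL n + (r : ℕ)) = hv (geZs a b G n p) i r := rfl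
    refine if_congr (and_congr_right fun _ => ?_) rfl rfl
    rw [h2, Bool.and_eq_true]
    rfl
  rw [h1, Fin.sum_univ_eq_sum_range (fun r : ℕ => if r < geTl a b n l ∧
      (decide (c / 2 ^ (gePo a b n l r) % 2 = 1) &&
        geZ a b G n p i (geL n + r)) = true then 1 else 0) (geT a b n)]
  rw [← Finset.sum_subset (Finset.range_subset_range.mpr (geTl_le a b n l))
    (f := fun r : ℕ => if r < geTl a b n l ∧ (decide (c / 2 ^ (gePo a b n l r) % 2 = 1) &&
        geZ a b G n p i (geL n + r)) = true then 1 else 0)]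
  · refine Finset.sum_congr rfl fun r hr => ?_
    have h3 : r < geTl a b n l := Finset.mem_range.mp hr
    simp only [h3, true_and]
  · intro r _ hr
    have h3 : ¬ r < geTl a b n l := fun h => hr (Finset.mem_range.mpr h)
    simp only [h3, false_and, if_false]

theorem geU_eq (a b : ℕ) (G : ℕ → ℕ → ℕ → Bool) (n p c : ℕ) (i : Fin n) (l : Fin (geL n)) :
    geU a b G n p c i l =
      wv (eta (geZs a b G n p) (l : ℕ)) (hv (geZs a b G n p)) (geTl a b n l) (geW a b n c l) i := by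
  unfold geU wv
  rw [geI_eq]
  congr 1
  rw [Bool.eq_iff_iff, decide_eq_true_iff, List.isEmpty_iff, List.filter_eq_nil_iff]
  unfold eta
  rw [mem_filter]
  constructor
  · intro h
    refine ⟨mem_univ _, fun t ht => ?_⟩
    have := h (t : ℕ) (List.mem_range.mpr ht)
    rw [← geZ_eq]
    simpa using this
  · intro h t ht
    have ht' : t < (l : ℕ) := List.mem_range.mp ht
    have hl := l.2
    have h2 := h.2 ⟨t, by omega⟩ ht'
    rw [← geZ_eq] at h2
    simp only at h2
    simp [h2]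

theorem geG_eq (a b : ℕ) (G₁ G₂ : ℕ → ℕ → ℕ → Bool) (n p q c : ℕ) (i : Fin n) :
    xor (G₁ n p i) (decide (((List.range (geL n)).filter fun l =>
      geU a b G₂ n q c i l).length % 2 = 1)) =
      gr (out G₁ n p) (fun l : Fin (geL n) => eta (geZs a b G₂ n q) (l : ℕ))
        (hv (geZs a b G₂ n q)) (geTl a b n) (geW a b n c) i := by
  unfold gr
  rw [← zn_count, card_filter]
  have h1 : (∑ l : Fin (geL n), if geU a b G₂ n q c i l = true then 1 else 0) =
      ∑ l : Fin (geL n), if wv (eta (geZs a b G₂ n q) (l : ℕ)) (hv (geZs a b G₂ n q))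
        (geTl a b n l) (geW a b n c l) i = true then 1 else 0 := by
    refine Finset.sum_congr rfl fun l _ => ?_
    rw [geU_eq]
  rw [h1]
  rfl

theorem ge_ip_congr {T : ℕ} {t : ℕ} {u u' h : Cube T} (H : ∀ r : Fin T, (r : ℕ) < t → u r = u' r) :
    ip t u h = ip t u' h := by
  unfold ip
  have h1 : (univ.filter fun r : Fin T => (r : ℕ) < t ∧ u r = true ∧ h r = true) =
      univ.filter fun r : Fin T => (r : ℕ) < t ∧ u' r = true ∧ h r = true := by
    refine Finset.filter_congr fun r _ => ?_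
    constructor
    · rintro ⟨h1, h2, h3⟩
      exact ⟨h1, (H r h1) ▸ h2, h3⟩
    · rintro ⟨h1, h2, h3⟩
      exact ⟨h1, (H r h1).symm ▸ h2, h3⟩
  rw [h1]

theorem ge_gr_congr {L T : ℕ} (y : Cube n) (η : Fin L → Finset (Fin n)) (h : Fin n → Cube T)
    (t : ℕ → ℕ) {v v' : Fin L → Cube T}
    (H : ∀ (l : Fin L) (r : Fin T), (r : ℕ) < t l → v l r = v' l r) : gr y η h t v = gr y η h t v' := by
  funext i
  unfold gr
  have h1 : ∀ l : Fin L, wv (η l) h (t l) (v l) i = wv (η l) h (t l) (v' l) i := by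
    intro l
    unfold wv
    rw [ge_ip_congr (H l)]
  simp only [h1]

/-! ## GE: the generator -/

theorem xgenR (b T₀ K : ℕ) : ∃ (E : ℕ → ℕ) (G : ℕ → ℕ → ℕ → Bool), NG E G ∧
    ∀ n : ℕ, ∃ (T : ℕ) (t : ℕ → ℕ), (∀ l, t l ≤ T) ∧
      (∀ l m : ℕ, 2 ^ m ≤ n ^ b → (1 + (1 / 2 : ℝ) ^ l) ^ m * 2 ^ T₀ ≤ 2 ^ t l) ∧
      ∃ (M₁ M₂ : ℕ), 0 < M₁ ∧ 0 < M₂ ∧ ∃ (Y : Fin M₁ → Cube n)
      (Z : Fin M₂ → Cube (n * ((Nat.clog 2 n + 1) + T))),
      Bias (1 / ((n : ℝ) + 1) ^ K) Y ∧ Bias (1 / ((n : ℝ) + 1) ^ K) Z ∧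
      ∀ f : Cube n → ℂ, na (2 ^ E n) (fun p => f (out G n p)) =
        av fun v : Fin (Nat.clog 2 n + 1) → Cube T => av fun ω₂ => av fun ω₁ =>
          f (gr (Y ω₁) (fun l => eta (Z ω₂) (l : ℕ)) (hv (Z ω₂)) t v) := by
  obtain ⟨E, G, hG, H⟩ := Hyb.small_bias_poly K one_pos
  let a := T₀ + 2 * b
  let b' := 2 * b
  refine ⟨_, _, geG_ng a b' hG hG, fun n => ⟨geT a b' n, geTl a b' n, geTl_le a b' n,
    fun l m hm => ge_pow b T₀ n l m hm, 2 ^ E n, 2 ^ E (n * (geL n + geT a b' n)), by positivity,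
    by positivity, fun ω => out G n ω, fun ω => geZs a b' G n ω, zn_bias (H n), ?_, fun f => ?_⟩⟩
  · have hpos : (0 : ℝ) < ((n : ℝ) + 1) ^ K := by positivity
    intro S hS
    refine (zn_bias (H (n * (geL n + geT a b' n))) S hS).trans ?_
    refine div_le_div_of_nonneg_left one_pos.le hpos (pow_le_pow_left₀ (by positivity) ?_ K)
    have h1 : n ≤ n * (geL n + geT a b' n) := Nat.le_mul_of_pos_right n (by unfold geL; omega)
    have h2 : (n : ℝ) ≤ ((n * (geL n + geT a b' n) : ℕ) : ℝ) := by exact_mod_cast h1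
    linarith
  · rw [geE_pow]
    have h1 : (fun p => f (out (geG a b' E G G) n p)) = fun p =>
        (fun x y c => f (gr (out G n x) (fun l : Fin (geL n) => eta (geZs a b' G n y) (l : ℕ))
          (hv (geZs a b' G n y)) (geTl a b' n) (geW a b' n c))) (p / geV a b' n / geM a b' E n)
          (p / geV a b' n % geM a b' E n) (p % geV a b' n) := by
      funext p
      refine congrArg f (funext fun i => ?_)
      exact geG_eq a b' G G n _ _ _ i
    rw [h1, zn_split _ _ _ (by unfold geM; positivity) (by unfold geV; positivity)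
      (fun x y c => f (gr (out G n x) (fun l : Fin (geL n) => eta (geZs a b' G n y) (l : ℕ))
          (hv (geZs a b' G n y)) (geTl a b' n) (geW a b' n c)))]
    have h2 := ge_bits (L := geL n) (T := geT a b' n) (R := geR a b' n)
      (fun l => geTl a b' n l) (fun l r => gePo a b' n l r) (fun l r h => gePo_lt a b' n l.2 h)
      (fun l r l' r' h h' e => by
        obtain ⟨e1, e2⟩ := gePo_inj a b' n l.2 l'.2 h h' e
        exact ⟨Fin.ext e1, Fin.ext e2⟩)
      (fun v => na (geM a b' E n) fun y => na (2 ^ E n) fun x =>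
        f (gr (out G n x) (fun l : Fin (geL n) => eta (geZs a b' G n y) (l : ℕ))
          (hv (geZs a b' G n y)) (geTl a b' n) v))
      (fun v v' hvv => by
        refine na_congr fun y _ => na_congr fun x _ => ?_
        rw [ge_gr_congr _ _ _ _ hvv])
    refine h2.trans ?_
    show _ = av fun v : Fin (geL n) → Cube (geT a b' n) =>
      av fun ω₂ : Fin (2 ^ E (n * (geL n + geT a b' n))) => av fun ω₁ : Fin (2 ^ E n) =>
      f (gr (out G n ω₁) (fun l : Fin (geL n) => eta (geZs a b' G n ω₂) (l : ℕ))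
          (hv (geZs a b' G n ω₂)) (geTl a b' n) v)
    congr 1
    funext v
    rw [av_fin (2 ^ E (n * (geL n + geT a b' n))) (fun ω₂ => av fun ω₁ : Fin (2 ^ E n) =>
      f (gr (out G n ω₁) (fun l : Fin (geL n) => eta (geZs a b' G n ω₂) (l : ℕ))
          (hv (geZs a b' G n ω₂)) (geTl a b' n) v))]
    refine na_congr fun y _ => ?_
    rw [av_fin (2 ^ E n) (fun x =>
      f (gr (out G n x) (fun l : Fin (geL n) => eta (geZs a b' G n y) (l : ℕ))
          (hv (geZs a b' G n y)) (geTl a b' n) v))]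

end Pool.Agent.MP_ca1109_lc.Rf
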