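import Pool.Agent.MP_ca1109_lc.Rf.MWa
import Pool.Agent.MP_ca1109_lc.Agp.K1
import Pool.Agent.MP_ca1109_lc.Xp.GX

/-!
# Row GL: one level is averaged first
-/

namespace Pool.Agent.MP_ca1109_lc.Rf

open Finset Pool.Agent.H66 Pool.Agent.MP_ca1109_lc.Mpg Pool.Agent.MP_ca1109_lc.Agp
  Pool.Agent.MP_ca1109_lc.Xp Pool.Agent.MP_ca1109_lc.Pt
open Pool.Agent.MP_ca1109_lc.Dnf (Cube ch one On)
open Pool.Agent.MP_ca1109_lc.Ph (Ev Dp Bd1 Dj)

variable {n : ℕ}

theorem gl_wv_zero {T : ℕ} (η : Finset (Fin n)) (h : Fin n → Cube T) (t : ℕ) (i : Fin n) :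
    wv η h t (fun _ => false) i = false := by
  simp [wv, ip]

/-- The level `l` of the generator split off. -/
theorem gl_update {L T : ℕ} (y : Cube n) (η : Fin L → Finset (Fin n)) (h : Fin n → Cube T)
    (t : ℕ → ℕ) (v : Fin L → Cube T) (l : Fin L) (u : Cube T) :
    gr y η h t (Function.update v l u) =
      xo (xo y (gr (fun _ => false) η h t (Function.update v l fun _ => false)))
        (wv (η l) h (t l) u) := by
  classical
  funext i
  have h1 : ∀ w : Cube T, (univ.filter fun l' : Fin L =>
      wv (η l') h (t l') (Function.update v l w l') i = true) =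
      ((univ.erase l).filter fun l' : Fin L => wv (η l') h (t l') (v l') i = true) ∪
        if wv (η l) h (t l) w i = true then {l} else ∅ := by
    intro w
    ext l'
    simp only [mem_filter, mem_univ, true_and, mem_union, mem_erase, ne_eq, and_true]
    by_cases hl : l' = l
    · subst hl
      rw [Function.update_self]
      by_cases hw : wv (η l') h (t l') w i = true <;> simp [hw]
    · rw [Function.update_of_ne hl]
      by_cases hw : wv (η l) h (t l) w i = true <;> simp [hw, hl]
  have h2 : ∀ w : Cube T, (univ.filter fun l' : Fin L =>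
      wv (η l') h (t l') (Function.update v l w l') i = true).card =
      ((univ.erase l).filter fun l' : Fin L => wv (η l') h (t l') (v l') i = true).card +
        if wv (η l) h (t l) w i = true then 1 else 0 := by
    intro w
    rw [h1 w, card_union_of_disjoint]
    · congr 1
      split_ifs <;> simp
    · rw [disjoint_left]
      intro l' hl' hl2
      have h3 : l' ≠ l := (mem_erase.1 (mem_filter.1 hl').1).1
      by_cases hw : wv (η l) h (t l) w i = true
      · rw [if_pos hw, mem_singleton] at hl2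
        exact h3 hl2
      · rw [if_neg hw] at hl2
        exact absurd hl2 (Finset.notMem_empty _)
  unfold gr xo
  beta_reduce
  rw [h2 u, h2 fun _ => false, gl_wv_zero]
  generalize ((univ.erase l).filter fun l' : Fin L => wv (η l') h (t l') (v l') i = true).card = s
  generalize y i = b
  rcases Nat.mod_two_eq_zero_or_one s with h4 | h4 <;> cases hw : wv (η l) h (t l) u i
  · simp [h4]
  · have h5 : (s + 1) % 2 = 1 := by omega
    simp [h4, h5]
  · simp [h4]
  · have h5 : (s + 1) % 2 = 0 := by omega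
    simp [h4, h5]

/-- One level is averaged first. -/
theorem gr_level {L T : ℕ} (l : Fin L) (t : ℕ → ℕ) {Ω₁ Ω₂ : Type} [Fintype Ω₁] [Fintype Ω₂]
    (Y : Ω₁ → Cube n) (Z : Ω₂ → Cube (n * (L + T))) (f : Cube n → ℂ) :
    (av fun v : Fin L → Cube T => av fun ω₂ => av fun ω₁ =>
      f (gr (Y ω₁) (fun l => eta (Z ω₂) (l : ℕ)) (hv (Z ω₂)) t v)) =
    av fun v : Fin L → Cube T => av fun ω₂ => av fun ω₁ => av fun u : Cube T =>
      f (xo (xo (Y ω₁) (gr (fun _ => false) (fun l => eta (Z ω₂) (l : ℕ)) (hv (Z ω₂)) t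
        (Function.update v l fun _ => false))) (Wd l (t l) (Z ω₂) u)) := by
  rw [av_update l fun v : Fin L → Cube T => av fun ω₂ => av fun ω₁ =>
      f (gr (Y ω₁) (fun l => eta (Z ω₂) (l : ℕ)) (hv (Z ω₂)) t v)]
  congr 1
  funext v
  rw [av_comm]
  congr 1
  funext ω₂
  rw [av_comm]
  congr 1
  funext ω₁
  congr 1
  funext u
  rw [gl_update]
  rfl

end Pool.Agent.MP_ca1109_lc.Rf
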