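import Pool.Agent.MP_ca1109_lc.Rf.RE
import Pool.Agent.MP_ca1109_lc.Pt.C0

/-!
# The first easy case with a pattern: the second moments are small
-/

namespace Pool.Agent.MP_ca1109_lc.Rf

open Finset Pool.Agent.H66 Pool.Agent.MP_ca1109_lc.Mpg Pool.Agent.MP_ca1109_lc.Agp
  Pool.Agent.MP_ca1109_lc.Xp Pool.Agent.MP_ca1109_lc.Pt
open Pool.Agent.MP_ca1109_lc.Dnf (Cube ch one On)

variable {n : ℕ}

/-- The Cauchy–Schwarz inequality with a weight with values in `{0, 1}`. -/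
theorem r0_cs {A : Type*} [Fintype A] [Nonempty A] (w : A → ℝ) (F : A → ℂ)
    (hw : ∀ a, w a = 0 ∨ w a = 1) :
    ‖av fun a => ((w a : ℝ) : ℂ) * F a‖ ^ 2 ≤ avg w * avg fun a => w a * ‖F a‖ ^ 2 := by
  have hc : (0 : ℝ) < Fintype.card A := by exact_mod_cast Fintype.card_pos
  have hw0 : ∀ a, 0 ≤ w a := fun a => by
    rcases hw a with h | h
    · exact h.ge
    · rw [h]
      exact zero_le_one
  have hw2 : ∀ a, w a ^ 2 = w a := fun a => by
    rcases hw a with h | h <;> rw [h] <;> norm_num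
  have h1 : ‖∑ a, ((w a : ℝ) : ℂ) * F a‖ ≤ ∑ a, w a * (w a * ‖F a‖) := by
    refine (norm_sum_le _ _).trans (le_of_eq (sum_congr rfl fun a _ => ?_))
    rw [norm_mul, Complex.norm_real, Real.norm_eq_abs, abs_of_nonneg (hw0 a), ← mul_assoc,
      ← pow_two, hw2]
  have h2 : (∑ a, w a * (w a * ‖F a‖)) ^ 2 ≤ (∑ a, w a) * ∑ a, w a * ‖F a‖ ^ 2 := by
    refine (sum_mul_sq_le_sq_mul_sq univ w fun a => w a * ‖F a‖).trans (le_of_eq ?_)
    congr 1
    · exact sum_congr rfl fun a _ => hw2 a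
    · exact sum_congr rfl fun a _ => by rw [mul_pow, hw2]
  have h3 := (pow_le_pow_left₀ (norm_nonneg _) h1 2).trans h2
  unfold av avg
  rw [norm_div, Complex.norm_natCast, div_pow, div_mul_div_comm, ← pow_two]
  exact div_le_div_of_nonneg_right h3 (by positivity)

theorem r0_one (p : Prop) : one p = 0 ∨ one p = 1 := by
  unfold one
  split_ifs
  · exact Or.inr rfl
  · exact Or.inl rfl

theorem rcase0 {ε : ℝ} (hε : 0 < ε) : ∃ C K : ℕ, ∀ (n N : ℕ) (J : Finset (Fin n))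
    (I : Fin n → Finset (Fin n)) (f : Fin n → Cube n → ℂ), Blk N J I f → (C : ℝ) ≤ Ls J f 0 →
    ∀ (B : Finset (Fin n)), (∀ j ∈ J, Disjoint (I j) B) → ∀ (v : Cube n)
    {Ω : Type} [Fintype Ω] [Nonempty Ω] (Y : Ω → Cube n) (δ : ℝ), 0 ≤ δ → Bias δ Y →
      ‖av (fun ω => pc B v (Y ω) * ∏ j ∈ J, f j (Y ω))‖ ^ 2 ≤
        ((1 / 2) ^ B.card) ^ 2 * ε + δ * bd K n N := by
  classical
  obtain ⟨ε', hε', hεε, hε1⟩ : ∃ ε' : ℝ, 0 < ε' ∧ ε' ≤ ε ∧ ε' ≤ 1 :=
    ⟨min ε 1, lt_min hε one_pos, min_le_left _ _, min_le_right _ _⟩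
  obtain ⟨C, hC⟩ := exists_nat_ge (2 * Real.log (2 / ε'))
  obtain ⟨K, hK⟩ := relSB (Lam := (C : ℝ) + 1) (half_pos hε')
  refine ⟨C, K + K + 1, ?_⟩
  intro n N J I f h hCL B hB v Ω _ _ Y δ hδ hY
  set b : Fin n → ℝ := fun j => avg fun x => ‖f j x‖ ^ 2 with hb
  have hb0 : ∀ j, 0 ≤ b j := fun j => by
    rw [hb]
    unfold avg
    positivity
  have hb1 : ∀ j ∈ J, b j ≤ 1 := fun j hj =>
    (avg_mono fun x => pow_le_one₀ (norm_nonneg _) (h.le j hj x)).trans (le_of_eq (avg_const 1))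
  rw [Ls_zero] at hCL
  obtain ⟨J', hJ', h1, h2⟩ := c0_sel (fun j => 1 - b j ^ 2) (Nat.cast_nonneg C) J
    (fun j _ => by nlinarith [hb0 j]) hCL
  set g : Fin n → Cube n → ℂ := fun j x => ((‖f j x‖ ^ 2 : ℝ) : ℂ) with hg
  have hgn : ∀ j x, ‖g j x‖ = ‖f j x‖ ^ 2 := fun j x => by
    rw [hg]
    simp only
    rw [Complex.norm_real, Real.norm_eq_abs, abs_of_nonneg (by positivity)]
  have hBlk : Blk N J' I g := by
    refine ⟨h.pos, fun i hi j hj => h.dj i (hJ' hi) j (hJ' hj), fun j hj => h.wd j (hJ' hj),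
      fun j hj x y hxy => ?_, fun j hj x => ?_⟩
    · rw [hg]
      simp only
      rw [h.on j (hJ' hj) x y hxy]
    · rw [hgn]
      exact pow_le_one₀ (norm_nonneg _) (h.le j (hJ' hj) x)
  have hav : ∀ j, av (g j) = ((b j : ℝ) : ℂ) := fun j => c0_av_ofReal _
  have havn : ∀ j, ‖av (g j)‖ = b j := fun j => by
    rw [hav, Complex.norm_real, Real.norm_eq_abs, abs_of_nonneg (hb0 j)]
  have hloss : ∑ j ∈ J', (1 - ‖av (g j)‖) ≤ (C : ℝ) + 1 := by
    refine le_trans (sum_le_sum fun j hj => ?_) h2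
    rw [havn]
    nlinarith [hb0 j, hb1 j (hJ' hj)]
  have h3 := hK n N J' I g hBlk hloss B (fun j hj => hB j (hJ' hj)) v ∅ (disjoint_empty_left B)
    Y δ hδ hY
  simp only [Dnf.ch_empty, Complex.ofReal_one, one_mul] at h3
  have h4 : av (fun x => ∏ j ∈ J', g j x) = ∏ j ∈ J', av (g j) := av_prod hBlk.dj g hBlk.on
  have h5 : ‖∏ j ∈ J', av (g j)‖ ≤ ε' / 2 := by
    rw [norm_prod]
    calc ∏ j ∈ J', ‖av (g j)‖ ≤ ∏ j ∈ J', Real.exp (-(1 - b j ^ 2) / 2) := by
          refine prod_le_prod (fun j _ => norm_nonneg _) fun j hj => ?_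
          rw [havn]
          have e1 := Real.add_one_le_exp (-(1 - b j))
          have e2 : Real.exp (-(1 - b j)) ≤ Real.exp (-(1 - b j ^ 2) / 2) := by
            apply Real.exp_le_exp.2
            nlinarith [hb0 j, hb1 j (hJ' hj)]
          linarith
      _ = Real.exp (-(∑ j ∈ J', (1 - b j ^ 2)) / 2) := by
          rw [← Real.exp_sum, neg_div, sum_div, ← sum_neg_distrib]
          congr 1
          exact sum_congr rfl fun j _ => by ring
      _ ≤ Real.exp (-Real.log (2 / ε')) := by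
          apply Real.exp_le_exp.2
          linarith
      _ = ε' / 2 := by
          rw [Real.exp_neg, Real.exp_log (by positivity), inv_div]
  -- the pattern and the main mean
  set q : ℝ := (1 / 2) ^ B.card with hq
  have hq0 : 0 ≤ q := by positivity
  have hq1 : q ≤ 1 := pow_le_one₀ (by norm_num) (by norm_num)
  have hqc : ‖(1 / 2 : ℂ) ^ B.card‖ = q := by
    rw [norm_pow, hq]
    norm_num
  have hone : ∀ ω, 0 ≤ one (pat B v (Y ω)) := fun ω => by
    rcases r0_one (pat B v (Y ω)) with e | e <;> rw [e] <;> norm_num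
  have hone1 : ∀ ω, one (pat B v (Y ω)) ≤ 1 := fun ω => by
    rcases r0_one (pat B v (Y ω)) with e | e <;> rw [e] <;> norm_num
  have h6 : ‖av fun ω => pc B v (Y ω) * ∏ j ∈ J, f j (Y ω)‖ ^ 2 ≤
      (avg fun ω => one (pat B v (Y ω))) *
        avg fun ω => one (pat B v (Y ω)) * ∏ j ∈ J', ‖f j (Y ω)‖ ^ 2 := by
    refine (r0_cs (fun ω => one (pat B v (Y ω))) (fun ω => ∏ j ∈ J, f j (Y ω))
      fun ω => r0_one _).trans ?_
    refine mul_le_mul_of_nonneg_left (avg_mono fun ω => ?_) ?_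
    · refine mul_le_mul_of_nonneg_left ?_ (hone ω)
      rw [norm_prod, ← prod_pow, ← prod_sdiff hJ']
      calc (∏ j ∈ J \ J', ‖f j (Y ω)‖ ^ 2) * ∏ j ∈ J', ‖f j (Y ω)‖ ^ 2
          ≤ 1 * ∏ j ∈ J', ‖f j (Y ω)‖ ^ 2 := by
            refine mul_le_mul_of_nonneg_right ?_ (prod_nonneg fun j _ => by positivity)
            exact prod_le_one (fun j _ => by positivity) fun j hj =>
              pow_le_one₀ (norm_nonneg _) (h.le j (mem_sdiff.1 hj).1 _)
        _ = _ := one_mul _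
    · have := avg_mono (f := fun _ : Ω => (0 : ℝ)) (g := fun ω => one (pat B v (Y ω))) hone
      rwa [avg_const] at this
  set a : ℝ := avg fun ω => one (pat B v (Y ω)) with ha
  set m : ℝ := avg fun ω => one (pat B v (Y ω)) * ∏ j ∈ J', ‖f j (Y ω)‖ ^ 2 with hm
  have ha0 : 0 ≤ a := by
    have := avg_mono (f := fun _ : Ω => (0 : ℝ)) (g := fun ω => one (pat B v (Y ω))) hone
    rwa [avg_const] at this
  have ha1 : a ≤ 1 := (avg_mono hone1).trans (le_of_eq (avg_const 1))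
  have hm0 : 0 ≤ m := by
    have := avg_mono (f := fun _ : Ω => (0 : ℝ))
      (g := fun ω => one (pat B v (Y ω)) * ∏ j ∈ J', ‖f j (Y ω)‖ ^ 2)
      fun ω => mul_nonneg (hone ω) (prod_nonneg fun j _ => by positivity)
    rwa [avg_const] at this
  have hm1 : m ≤ 1 := by
    refine (avg_mono fun ω => ?_).trans (le_of_eq (avg_const 1))
    refine mul_le_one₀ (hone1 ω) (prod_nonneg fun j _ => by positivity) ?_
    exact prod_le_one (fun j _ => by positivity) fun j hj =>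
      pow_le_one₀ (norm_nonneg _) (h.le j (hJ' hj) _)
  -- the bound of `a`
  have ha2 : a ≤ q + δ := by
    have e0 : Sp 1 (fun _ : Cube n => (1 : ℂ)) := by
      simpa using Sp.const (n := n) (1 : ℂ)
    have e1 := rel (B := B) (v := v) e0 (fun _ _ _ => rfl) hδ hY
    have e2 : av (fun ω => pc B v (Y ω) * 1) = ((a : ℝ) : ℂ) := by
      rw [ha, ← c0_av_ofReal]
      congr 1
      funext ω
      rw [mul_one, pc]
    have e3 : av (fun _ : Cube n => (1 : ℂ)) = 1 := by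
      have := c0_av_ofReal (fun _ : Cube n => (1 : ℝ))
      rw [avg_const] at this
      simpa using this
    rw [e2, e3, mul_one, mul_one] at e1
    have e4 : (a : ℝ) = ‖((a : ℝ) : ℂ)‖ := by
      rw [Complex.norm_real, Real.norm_eq_abs, abs_of_nonneg ha0]
    have e5 := norm_add_le (((a : ℝ) : ℂ) - (1 / 2) ^ B.card) ((1 / 2) ^ B.card)
    rw [sub_add_cancel, ← e4, hqc] at e5
    linarith
  -- the bound of `m`
  have hm2 : m ≤ q * ε' + δ * bd K n N := by
    have e1 : (av fun ω => pc B v (Y ω) * ∏ j ∈ J', g j (Y ω)) = ((m : ℝ) : ℂ) := by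
      rw [hm, ← c0_av_ofReal]
      congr 1
      funext ω
      rw [hg, pc]
      push_cast
      rfl
    have e4 : (m : ℝ) = ‖((m : ℝ) : ℂ)‖ := by
      rw [Complex.norm_real, Real.norm_eq_abs, abs_of_nonneg hm0]
    rw [e1, h4] at h3
    have e5 := norm_add_le (((m : ℝ) : ℂ) - (1 / 2) ^ B.card * ∏ j ∈ J', av (g j))
      ((1 / 2) ^ B.card * ∏ j ∈ J', av (g j))
    rw [sub_add_cancel, ← e4, norm_mul, hqc] at e5
    have e6 : q * ‖∏ j ∈ J', av (g j)‖ ≤ q * (ε' / 2) := mul_le_mul_of_nonneg_left h5 hq0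
    linarith
  have hbd0 := bd_nonneg K n N
  have hbd : bd K n N + bd K n N + 1 ≤ bd (K + K + 1) n N := by
    have g1 := bd_add (K := K) (K' := K) h.pos n
    have g2 := bd_add (K := K + K) (K' := 1) h.pos n
    have g3 := bd_one (K := 1) le_rfl h.pos n
    linarith
  refine h6.trans ?_
  by_cases hd : δ ≤ 1
  · have s1 : a * m ≤ (q + δ) * (q * ε' + δ * bd K n N) :=
      mul_le_mul ha2 hm2 hm0 (by positivity)
    have s2 : q * (δ * bd K n N) ≤ δ * bd K n N :=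
      mul_le_of_le_one_left (by positivity) hq1
    have s3 : δ * (δ * bd K n N) ≤ δ * bd K n N :=
      mul_le_of_le_one_left (by positivity) hd
    have s4 : q * ε' ≤ 1 := mul_le_one₀ hq1 hε'.le hε1
    have s5 : δ * (q * ε') ≤ δ * 1 := mul_le_mul_of_nonneg_left s4 hδ
    have s6 : q ^ 2 * ε' ≤ q ^ 2 * ε := mul_le_mul_of_nonneg_left hεε (by positivity)
    have s7 : δ * (bd K n N + bd K n N + 1) ≤ δ * bd (K + K + 1) n N :=
      mul_le_mul_of_nonneg_left hbd hδ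
    nlinarith
  · have s1 : a * m ≤ 1 := mul_le_one₀ ha1 hm0 hm1
    have s2 : 1 * 1 ≤ δ * bd (K + K + 1) n N :=
      mul_le_mul (not_le.1 hd).le (by linarith) (by norm_num) hδ
    have s3 : 0 ≤ q ^ 2 * ε := by positivity
    linarith

end Pool.Agent.MP_ca1109_lc.Rf
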