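import Pool.Agent.MP_ca1109_lc.Rf.RE
import Pool.Agent.MP_ca1109_lc.Pt.C1

/-!
# Conditional fooling: the case of small loss at density `1 / 2`
-/

namespace Pool.Agent.MP_ca1109_lc.Rf

open Finset Pool.Agent.H66 Pool.Agent.MP_ca1109_lc.Mpg Pool.Agent.MP_ca1109_lc.Agp
  Pool.Agent.MP_ca1109_lc.Xp Pool.Agent.MP_ca1109_lc.Pt
open Pool.Agent.MP_ca1109_lc.Dnf (Cube ch one On)

variable {n : ℕ}

theorem rcase1 {Lam ε : ℝ} (hε : 0 < ε) : ∃ K : ℕ, ∀ (n N : ℕ) (J : Finset (Fin n))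
    (I : Fin n → Finset (Fin n)) (f : Fin n → Cube n → ℂ), Blk N J I f →
    Ls J f (1 / 2) ≤ Lam → ∀ (B : Finset (Fin n)), (∀ j ∈ J, Disjoint (I j) B) → ∀ (v : Cube n)
    {Ω : Type} [Fintype Ω] [Nonempty Ω] (Y : Ω → Cube n) (δ : ℝ), 0 ≤ δ → Bias δ Y →
      ‖av (fun ω => pc B v (Y ω) * ∏ j ∈ J, f j (Y ω)) -
        (1 / 2) ^ B.card * av (fun x => ∏ j ∈ J, f j x)‖ ≤
        (1 / 2) ^ B.card * ε + δ * bd K n N := by
  classical
  obtain ⟨K, hK⟩ := relSB (Lam := Lam) hε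
  refine ⟨K, fun n N J I f h hL B hB v Ω _ _ Y δ hδ hY => ?_⟩
  have hex : ∀ j, ∃ S : Finset (Fin n), j ∈ J → (S ⊆ I j ∧
      ∑ U, (‖co (f j) U‖ ^ 2) ^ 2 ≤ ‖co (f j) S‖) := by
    intro j
    by_cases hj : j ∈ J
    · obtain ⟨S, hS, hS'⟩ := c1_max (h.on j hj) (h.le j hj)
      exact ⟨S, fun _ => ⟨hS, hS'⟩⟩
    · exact ⟨∅, fun h' => absurd h' hj⟩
  choose S hS using hex
  obtain ⟨g, hg⟩ : ∃ g : Fin n → Cube n → ℂ, ∀ j x, g j x = f j x * ((ch (S j) x : ℝ) : ℂ) :=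
    ⟨fun j x => f j x * ((ch (S j) x : ℝ) : ℂ), fun _ _ => rfl⟩
  have hch1 : ∀ (T : Finset (Fin n)) (x : Cube n), ‖((ch T x : ℝ) : ℂ)‖ = 1 := by
    intro T x
    rw [Complex.norm_real, Real.norm_eq_abs, Dnf.ch_abs]
  have hgB : Blk N J I g := by
    refine ⟨h.pos, h.dj, h.wd, fun j hj => ?_, fun j hj x => ?_⟩
    · intro x y hxy
      have h1 := h.on j hj x y hxy
      have h2 : ch (S j) x = ch (S j) y := by
        unfold ch
        exact Finset.prod_congr rfl fun i hi => by rw [hxy i ((hS j hj).1 hi)]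
      rw [hg, hg, h1, h2]
    · rw [hg, norm_mul, hch1, mul_one]
      exact h.le j hj x
  have hav : ∀ j, av (g j) = co (f j) (S j) := by
    intro j
    unfold co
    congr 1
    funext x
    exact hg j x
  have hloss : ∑ j ∈ J, (1 - ‖av (g j)‖) ≤ Lam := by
    refine le_trans (Finset.sum_le_sum fun j hj => ?_) ((Ls_half J f).symm.le.trans hL)
    rw [hav]
    have := (hS j hj).2
    linarith
  have hprod : ∀ x, ∏ j ∈ J, f j x = ((ch (J.biUnion S) x : ℝ) : ℂ) * ∏ j ∈ J, g j x := by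
    intro x
    have h1 : ch (J.biUnion S) x = ∏ j ∈ J, ch (S j) x := by
      unfold ch
      rw [Finset.prod_biUnion]
      intro i hi j hj hij
      exact Finset.disjoint_of_subset_left (hS i hi).1
        (Finset.disjoint_of_subset_right (hS j hj).1 (h.dj i hi j hj hij))
    rw [h1]
    push_cast
    rw [← Finset.prod_mul_distrib]
    refine Finset.prod_congr rfl fun j _ => ?_
    rw [hg]
    have h2 : ((ch (S j) x : ℝ) : ℂ) * ((ch (S j) x : ℝ) : ℂ) = 1 := by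
      exact_mod_cast c1_ch_sq (S j) x
    calc f j x = f j x * 1 := (mul_one _).symm
      _ = f j x * (((ch (S j) x : ℝ) : ℂ) * ((ch (S j) x : ℝ) : ℂ)) := by rw [h2]
      _ = _ := by ring
  have hSB : Disjoint (J.biUnion S) B :=
    (Finset.disjoint_biUnion_left J S B).2 fun j hj =>
      Finset.disjoint_of_subset_left (hS j hj).1 (hB j hj)
  have key := hK n N J I g hgB hloss B hB v (J.biUnion S) hSB Y δ hδ hY
  have e1 : (fun ω => pc B v (Y ω) * ∏ j ∈ J, f j (Y ω)) =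
      fun ω => pc B v (Y ω) * (((ch (J.biUnion S) (Y ω) : ℝ) : ℂ) * ∏ j ∈ J, g j (Y ω)) :=
    funext fun ω => by rw [hprod (Y ω)]
  have e2 : (fun x => ∏ j ∈ J, f j x) =
      fun x => ((ch (J.biUnion S) x : ℝ) : ℂ) * ∏ j ∈ J, g j x := funext hprod
  rw [e1, e2]
  exact key

end Pool.Agent.MP_ca1109_lc.Rf
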