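import Pool.Agent.MP_ca1109_lc.Rf.VH
import Pool.Agent.MP_ca1109_lc.Rf.RE
import Pool.Agent.MP_ca1109_lc.Rf.MWa
import Pool.Agent.MP_ca1109_lc.Pt.CS
import Pool.Agent.MP_ca1109_lc.Pt.AU

/-!
# Row CS: the conditional Cauchy-Schwarz inequality
-/

namespace Pool.Agent.MP_ca1109_lc.Rf

open Finset Pool.Agent.H66 Pool.Agent.MP_ca1109_lc.Mpg Pool.Agent.MP_ca1109_lc.Agp
  Pool.Agent.MP_ca1109_lc.Xp Pool.Agent.MP_ca1109_lc.Pt
open Pool.Agent.MP_ca1109_lc.Dnf (Cube ch one On)
open Pool.Agent.MP_ca1109_lc.Ph (Ev Dp Bd1 Dj BC PFools bst)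

variable {n : ℕ}

theorem rcs_one_pos {p : Prop} (h : p) : one p = 1 := by
  unfold one
  rw [if_pos h]

theorem rcs_one_neg {p : Prop} (h : ¬ p) : one p = 0 := by
  unfold one
  rw [if_neg h]

theorem rcs_one_nonneg (p : Prop) : 0 ≤ one p := by
  unfold one
  split_ifs <;> norm_num

/-- Cauchy-Schwarz for averages. -/
theorem rcs_cs {Ω : Type} [Fintype Ω] (f g : Ω → ℝ) :
    (avg fun ω => f ω * g ω) ^ 2 ≤ (avg fun ω => f ω ^ 2) * avg fun ω => g ω ^ 2 := by
  unfold avg
  rw [div_pow, div_mul_div_comm, ← sq]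
  exact div_le_div_of_nonneg_right (Finset.sum_mul_sq_le_sq_mul_sq _ f g) (sq_nonneg _)

theorem rcs_prob (B : Finset (Fin n)) (v : Cube n) {Ω : Type} [Fintype Ω] [Nonempty Ω]
    {Y : Ω → Cube n} {δ : ℝ} (hδ : 0 ≤ δ) (hY : Bias δ Y) :
    (avg fun ω => one (pat B v (Y ω))) ≤ (1 / 2) ^ B.card + δ := by
  have h1 := fool hδ hY (sp_pc B v)
  have h2 : av (pc B v) = (1 / 2) ^ B.card := by
    have h := av_pc B v (t := fun _ : Cube n => (1 : ℂ)) fun x y _ => rfl
    simp only [mul_one] at h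
    have h' : av (fun _ : Cube n => (1 : ℂ)) = 1 := by
      have h'' := spb_avg_ofReal fun _ : Cube n => (1 : ℝ)
      rw [avg_const] at h''
      simpa using h''
    rw [h', mul_one] at h
    exact h
  have h3 : (avg fun ω => one (pat B v (Y ω))) = ‖av fun ω => pc B v (Y ω)‖ := by
    have h4 : (fun ω => pc B v (Y ω)) = fun ω => ((one (pat B v (Y ω)) : ℝ) : ℂ) := rfl
    rw [h4, spb_avg_ofReal, Complex.norm_real, Real.norm_eq_abs, abs_of_nonneg
      (avg_nonneg fun ω => rcs_one_nonneg _)]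
  rw [h3]
  have h5 : ‖av (pc B v)‖ = (1 / 2) ^ B.card := by
    rw [h2, norm_pow, norm_div, norm_one, Complex.norm_ofNat]
  have h6 := norm_sub_norm_le (av fun ω => pc B v (Y ω)) (av (pc B v))
  linarith

theorem rcs_pc_mul (B : Finset (Fin n)) (v x w : Cube n) :
    pc B v x * (starRingEnd ℂ) (pc B v (xo x w)) =
      ((one (∀ i ∈ B, w i = false) : ℝ) : ℂ) * pc B v x := by
  unfold pc
  rw [Complex.conj_ofReal, ← Complex.ofReal_mul, ← Complex.ofReal_mul]
  congr 1
  by_cases hx : pat B v x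
  · rw [rcs_one_pos hx, one_mul, mul_one]
    have : pat B v (xo x w) ↔ ∀ i ∈ B, w i = false := by
      unfold pat xo
      refine forall_congr' fun i => imp_congr_right fun hi => ?_
      have h := hx i hi
      rw [h]
      cases v i <;> cases w i <;> simp
    by_cases hw : ∀ i ∈ B, w i = false
    · rw [rcs_one_pos hw, rcs_one_pos (this.2 hw)]
    · rw [rcs_one_neg hw, rcs_one_neg fun h => hw (this.1 h)]
  · rw [rcs_one_neg hx]
    ring

theorem rcs {L T : ℕ} (B : Finset (Fin n)) (v a : Cube n) (z : Cube (n * (L + T))) (l t : ℕ)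
    {g : Cube n → ℂ} (hg : ∀ x, ‖g x‖ ≤ 1) {Ω : Type} [Fintype Ω] [Nonempty Ω] (Y : Ω → Cube n)
    {δ : ℝ} (hδ : 0 ≤ δ) (hY : Bias δ Y) :
    ‖av fun ω => av fun u : Cube T => pc B v (xo (xo (Y ω) a) (Wd l t z u)) *
        g (xo (xo (Y ω) a) (Wd l t z u))‖ ^ 2 ≤
      (2 ^ (eta z l ∩ B).card * (1 / 2) ^ B.card + δ) *
        avg fun d : Cube T => one (∀ i ∈ B, Wd l t z d i = false) *
          avg fun u : Cube T => ‖av fun ω => pc B v (xo (xo (Y ω) a) (Wd l t z u)) *
            dr g (Wd l t z d) (xo (xo (Y ω) a) (Wd l t z u))‖ := by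
  obtain ⟨G, hG⟩ : ∃ G : Ω → Cube T → ℂ, ∀ ω u, G ω u =
      pc B v (xo (xo (Y ω) a) (Wd l t z u)) * g (xo (xo (Y ω) a) (Wd l t z u)) :=
    ⟨_, fun _ _ => rfl⟩
  obtain ⟨q, hq⟩ : ∃ q : Ω → ℝ, ∀ ω, q ω = one (pat (B \ eta z l) v (xo (Y ω) a)) :=
    ⟨_, fun _ => rfl⟩
  simp only [← hG]
  -- the average vanishes unless the pattern agrees off `η`
  have h1 : ∀ ω, ‖av (G ω)‖ = q ω * ‖av (G ω)‖ := by
    intro ω
    by_cases h : pat (B \ eta z l) v (xo (Y ω) a)
    · rw [hq, rcs_one_pos h, one_mul]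
    · have h2 : G ω = fun _ => 0 := by
        funext u
        rw [hG]
        have h3 : pc B v (xo (xo (Y ω) a) (Wd l t z u)) = 0 := by
          unfold pc
          rw [rcs_one_neg, Complex.ofReal_zero]
          intro hp
          apply h
          intro i hi
          obtain ⟨hiB, hiη⟩ := mem_sdiff.1 hi
          have h4 := hp i hiB
          have h5 : Wd l t z u i = false := by
            unfold Wd wv
            simp [hiη]
          unfold xo at h4 ⊢
          rw [h5] at h4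
          simpa using h4
        rw [h3, zero_mul]
      rw [hq, rcs_one_neg h, zero_mul, h2]
      simp [av]
  have h2 : ‖av fun ω => av (G ω)‖ ^ 2 ≤ (avg fun ω => q ω ^ 2) * avg fun ω => ‖av (G ω)‖ ^ 2 := by
    refine (pow_le_pow_left₀ (norm_nonneg _) (norm_av_le _) 2).trans ?_
    refine le_trans (le_of_eq ?_) (rcs_cs q fun ω => ‖av (G ω)‖)
    congr 2
    funext ω
    exact h1 ω
  have h3 : (avg fun ω => q ω ^ 2) ≤ 2 ^ (eta z l ∩ B).card * (1 / 2) ^ B.card + δ := by
    have e1 : (fun ω => q ω ^ 2) = fun ω => one (pat (B \ eta z l) v (xo (Y ω) a)) := by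
      funext ω
      rw [hq]
      by_cases h : pat (B \ eta z l) v (xo (Y ω) a)
      · rw [rcs_one_pos h, one_pow]
      · rw [rcs_one_neg h]
        norm_num
    rw [e1]
    refine (rcs_prob (B \ eta z l) v hδ (hY.xo a)).trans (le_of_eq ?_)
    congr 1
    have e2 : B.card = (eta z l ∩ B).card + (B \ eta z l).card := by
      rw [inter_comm, Finset.card_inter_add_card_sdiff]
    rw [e2, pow_add, ← mul_assoc, ← mul_pow]
    norm_num
  have h4 : (avg fun ω => ‖av (G ω)‖ ^ 2) ≤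
      avg fun d : Cube T => one (∀ i ∈ B, Wd l t z d i = false) *
          avg fun u : Cube T => ‖av fun ω => pc B v (xo (xo (Y ω) a) (Wd l t z u)) *
            dr g (Wd l t z d) (xo (xo (Y ω) a) (Wd l t z u))‖ := by
    have e1 : (((avg fun ω => ‖av (G ω)‖ ^ 2 : ℝ)) : ℂ) =
        av fun d : Cube T => ((one (∀ i ∈ B, Wd l t z d i = false) : ℝ) : ℂ) *
          av fun u : Cube T => av fun ω => pc B v (xo (xo (Y ω) a) (Wd l t z u)) *
            dr g (Wd l t z d) (xo (xo (Y ω) a) (Wd l t z u)) := by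
      rw [← spb_avg_ofReal]
      have e2 : ∀ ω, ((‖av (G ω)‖ ^ 2 : ℝ) : ℂ) = av fun d : Cube T => av fun u : Cube T =>
          ((one (∀ i ∈ B, Wd l t z d i = false) : ℝ) : ℂ) *
            (pc B v (xo (xo (Y ω) a) (Wd l t z u)) *
            dr g (Wd l t z d) (xo (xo (Y ω) a) (Wd l t z u))) := by
        intro ω
        refine (cs_normsq (G ω)).trans ?_
        congr 1
        funext d
        congr 1
        funext u
        rw [hG, hG]
        have e3 : xo (xo (Y ω) a) (Wd l t z (xo u d)) =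
            xo (xo (xo (Y ω) a) (Wd l t z u)) (Wd l t z d) := by
          unfold Wd
          rw [wv_xo, ← cs_xo_assoc]
        rw [e3, map_mul]
        have e4 := rcs_pc_mul B v (xo (xo (Y ω) a) (Wd l t z u)) (Wd l t z d)
        unfold dr
        linear_combination (g (xo (xo (Y ω) a) (Wd l t z u)) *
          (starRingEnd ℂ) (g (xo (xo (xo (Y ω) a) (Wd l t z u)) (Wd l t z d)))) * e4
      simp_rw [e2]
      rw [av_comm]
      congr 1
      funext d
      rw [av_comm]
      rw [cs_mul_left]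
      congr 1
      funext u
      rw [cs_mul_left]
    have e5 : (avg fun ω => ‖av (G ω)‖ ^ 2) = ‖(((avg fun ω => ‖av (G ω)‖ ^ 2 : ℝ)) : ℂ)‖ := by
      rw [Complex.norm_real, Real.norm_eq_abs, abs_of_nonneg]
      exact avg_nonneg fun _ => by positivity
    rw [e5, e1]
    refine (norm_av_le _).trans (avg_mono fun d => ?_)
    rw [norm_mul, Complex.norm_real, Real.norm_eq_abs, abs_of_nonneg (rcs_one_nonneg _)]
    exact mul_le_mul_of_nonneg_left (norm_av_le _) (rcs_one_nonneg _)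
  refine h2.trans ?_
  refine mul_le_mul h3 h4 (avg_nonneg fun _ => by positivity) (add_nonneg (by positivity) hδ)

end Pool.Agent.MP_ca1109_lc.Rf
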