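import Pool.Agent.MP_ca1109_lc.Rf.MWa
import Pool.Agent.MP_ca1109_lc.Pt.MO

/-!
# The moments of the loss, with the weight
-/

namespace Pool.Agent.MP_ca1109_lc.Rf

open Finset Pool.Agent.H66 Pool.Agent.MP_ca1109_lc.Mpg Pool.Agent.MP_ca1109_lc.Agp
  Pool.Agent.MP_ca1109_lc.Xp Pool.Agent.MP_ca1109_lc.Pt
open Pool.Agent.MP_ca1109_lc.Dnf (Cube ch one On)

variable {n : ℕ}

section MW

variable {L T l t N b : ℕ} {B : Finset (Fin n)} {J : Finset (Fin n)} {I : Fin n → Finset (Fin n)}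
  {f : Fin n → Cube n → ℂ}

theorem mwb_wB_nonneg (B : Finset (Fin n)) (l t : ℕ) (d : Cube T) (z : Cube (n * (L + T))) :
    0 ≤ wB B l t d z := by
  unfold wB
  refine prod_nonneg fun i _ => ?_
  split_ifs <;> norm_num

/-- The square of the autocorrelation as a function of the second string. -/
noncomputable def mwb_A (f : Cube n → ℂ) (L l t : ℕ) (d : Cube T) (z : Cube (n * (L + T))) : ℝ :=
  ‖au f (Wd l t z d)‖ ^ 2

/-- Its mean. -/
noncomputable def mwb_m (f : Cube n → ℂ) (l : ℕ) : ℝ :=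
  ∑ U, cb f U * (1 - 2 * (1 / 2) ^ (l + 1)) ^ U.card

theorem mwb_eq (f : Cube n → ℂ) (d : Cube T) (z : Cube (n * (L + T))) :
    mwb_A f L l t d z = ∑ U, cb f U * cc U (Wd l t z d) := normsq_au _ _

theorem mwb_one (hl : l ≤ L) (ht : t ≤ T) (B : Finset (Fin n)) {d : Cube T}
    (hd : ¬ ∀ r : Fin T, (r : ℕ) < t → d r = false) :
    (avg fun z : Cube (n * (L + T)) => wB B l t d z) = 1 := by
  have h := wB_avg (n := n) (L := L) hl ht (B := B) (U := ∅) (Finset.disjoint_empty_left B) hd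
  simp only [cc_empty, mul_one, card_empty, pow_zero] at h
  exact h

theorem mwb_avg (hl : l ≤ L) (ht : t ≤ T) {I : Finset (Fin n)} {f : Cube n → ℂ} (hI : On I f)
    (hB : Disjoint I B) {d : Cube T} (hd : ¬ ∀ r : Fin T, (r : ℕ) < t → d r = false) :
    (avg fun z : Cube (n * (L + T)) => wB B l t d z * mwb_A f L l t d z) = mwb_m f l := by
  have h1 : (fun z : Cube (n * (L + T)) => wB B l t d z * mwb_A f L l t d z) =
      fun z => ∑ U, cb f U * (wB B l t d z * cc U (Wd l t z d)) := by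
    funext z
    rw [mwb_eq, mul_sum]
    exact sum_congr rfl fun U _ => by ring
  rw [h1, avg_sum]
  refine Finset.sum_congr rfl fun U _ => ?_
  rw [avg_mul_left]
  by_cases hU : U ⊆ I
  · rw [wB_avg hl ht (Finset.disjoint_of_subset_left hU hB) hd]
  · rw [cb_on hI hU, zero_mul, zero_mul]

theorem mwb_nonneg (f : Cube n → ℂ) (d : Cube T) (z : Cube (n * (L + T))) :
    0 ≤ mwb_A f L l t d z := sq_nonneg _

theorem mwb_le {f : Cube n → ℂ} (hf : ∀ x, ‖f x‖ ≤ 1) (d : Cube T) (z : Cube (n * (L + T))) :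
    mwb_A f L l t d z ≤ 1 := by
  have h := au_le f hf (Wd l t z d)
  unfold mwb_A
  nlinarith [norm_nonneg (au f (Wd l t z d))]

theorem mwb_sp (hl : l ≤ L) {I : Finset (Fin n)} {f : Cube n → ℂ} (hI : On I f)
    (hf : ∀ x, ‖f x‖ ≤ 1) (hN : 2 ^ I.card ≤ N) (d : Cube T) :
    Sp ((N : ℝ) ^ 2) (fun z : Cube (n * (L + T)) => ((mwb_A f L l t d z : ℝ) : ℂ)) := by
  have h1 : ∀ U ∈ (univ : Finset (Finset (Fin n))), Sp (cb f U * (3 : ℝ) ^ U.card)
      (fun z : Cube (n * (L + T)) => ((cb f U : ℝ) : ℂ) *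
        ((cc U (Wd l t z d) : ℝ) : ℂ)) := by
    intro U _
    have h := (cc_spv (L := L) (T := T) hl t d U).smul ((cb f U : ℝ) : ℂ)
    rw [Complex.norm_real, Real.norm_eq_abs, abs_of_nonneg (cb_nonneg f U)] at h
    exact h
  refine ((Sp.sum univ _ _ h1).mono ?_).of_eq fun z => ?_
  · calc ∑ U : Finset (Fin n), cb f U * (3 : ℝ) ^ U.card
        ≤ ∑ U : Finset (Fin n), cb f U * (N : ℝ) ^ 2 := by
          refine Finset.sum_le_sum fun U _ => ?_
          by_cases hU : U ⊆ I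
          · refine mul_le_mul_of_nonneg_left ?_ (cb_nonneg f U)
            have h2 : 2 ^ U.card ≤ N :=
              (Nat.pow_le_pow_right (by norm_num) (Finset.card_le_card hU)).trans hN
            have h3 : ((2 : ℝ) ^ U.card) ≤ N := by exact_mod_cast h2
            calc (3 : ℝ) ^ U.card ≤ (2 ^ 2) ^ U.card :=
                  pow_le_pow_left₀ (by norm_num) (by norm_num) _
              _ = ((2 : ℝ) ^ U.card) ^ 2 := by rw [← pow_mul, ← pow_mul, mul_comm]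
              _ ≤ (N : ℝ) ^ 2 := pow_le_pow_left₀ (by positivity) h3 _
          · rw [cb_on hI hU, zero_mul, zero_mul]
      _ = (∑ U, cb f U) * (N : ℝ) ^ 2 := by rw [Finset.sum_mul]
      _ ≤ 1 * (N : ℝ) ^ 2 := mul_le_mul_of_nonneg_right (cb_sum f hf) (by positivity)
      _ = _ := one_mul _
  · rw [mwb_eq]
    push_cast
    rfl

theorem mwb_m_mem (hl : l ≤ L) (ht : t ≤ T) {I : Finset (Fin n)} {f : Cube n → ℂ} (hI : On I f)
    (hf : ∀ x, ‖f x‖ ≤ 1) (hB : Disjoint I B) {d : Cube T}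
    (hd : ¬ ∀ r : Fin T, (r : ℕ) < t → d r = false) : 0 ≤ mwb_m f l ∧ mwb_m f l ≤ 1 := by
  have h := mwb_avg hl ht hI hB hd
  constructor
  · rw [← h]
    exact avg_nonneg fun z => mul_nonneg (mwb_wB_nonneg B l t d z) (mwb_nonneg f d z)
  · rw [← h, ← mwb_one (n := n) hl ht B hd]
    refine avg_mono fun z => ?_
    exact mul_le_of_le_one_right (mwb_wB_nonneg B l t d z) (mwb_le hf d z)

theorem mwb_cross (hl : l ≤ L) (ht : t ≤ T) {f g : Cube n → ℂ} {I I' : Finset (Fin n)}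
    (hI : On I f) (hI' : On I' g) (hII : Disjoint I I') (hB : Disjoint I B) (hB' : Disjoint I' B)
    {d : Cube T} (hd : ¬ ∀ r : Fin T, (r : ℕ) < t → d r = false) :
    (avg fun z : Cube (n * (L + T)) => wB B l t d z * (mwb_A f L l t d z * mwb_A g L l t d z)) =
      mwb_m f l * mwb_m g l := by
  have h1 : (fun z : Cube (n * (L + T)) =>
      wB B l t d z * (mwb_A f L l t d z * mwb_A g L l t d z)) =
      fun z => ∑ U, ∑ V, (cb f U * cb g V) *
        (wB B l t d z * (cc U (Wd l t z d) * cc V (Wd l t z d))) := by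
    funext z
    rw [mwb_eq, mwb_eq, Finset.sum_mul_sum, mul_sum]
    refine Finset.sum_congr rfl fun U _ => ?_
    rw [mul_sum]
    exact Finset.sum_congr rfl fun V _ => by ring
  rw [h1, avg_sum]
  unfold mwb_m
  rw [Finset.sum_mul_sum]
  refine Finset.sum_congr rfl fun U _ => ?_
  rw [avg_sum]
  refine Finset.sum_congr rfl fun V _ => ?_
  rw [avg_mul_left]
  by_cases hU : U ⊆ I
  · by_cases hV : V ⊆ I'
    · have hUV : Disjoint U V := Finset.disjoint_of_subset_left hU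
        (Finset.disjoint_of_subset_right hV hII)
      have hUVB : Disjoint (U ∪ V) B := Finset.disjoint_union_left.2
        ⟨Finset.disjoint_of_subset_left hU hB, Finset.disjoint_of_subset_left hV hB'⟩
      have h2 : (fun z : Cube (n * (L + T)) => wB B l t d z * (cc U (Wd l t z d) *
          cc V (Wd l t z d))) = fun z => wB B l t d z * cc (U ∪ V) (Wd l t z d) := by
        funext z
        unfold cc
        rw [Finset.prod_union hUV]
      rw [h2, wB_avg hl ht hUVB hd, Finset.card_union_of_disjoint hUV, pow_add]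
      ring
    · rw [cb_on hI' hV]
      ring
  · rw [cb_on hI hU]
    ring

theorem mwb_self (hl : l ≤ L) (ht : t ≤ T) {I : Finset (Fin n)} {f : Cube n → ℂ} (hI : On I f)
    (hf : ∀ x, ‖f x‖ ≤ 1) (hB : Disjoint I B) {d : Cube T}
    (hd : ¬ ∀ r : Fin T, (r : ℕ) < t → d r = false) :
    (avg fun z : Cube (n * (L + T)) => wB B l t d z * (mwb_A f L l t d z - mwb_m f l) ^ 2) ≤
      1 - mwb_m f l := by
  obtain ⟨h0, h1⟩ := mwb_m_mem hl ht hI hf hB hd
  set m := mwb_m f l with hm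
  have h2 : ∀ z : Cube (n * (L + T)), wB B l t d z * (mwb_A f L l t d z - m) ^ 2 ≤
      (1 - 2 * m) * (wB B l t d z * mwb_A f L l t d z) + m ^ 2 * wB B l t d z := by
    intro z
    have h3 : 0 ≤ mwb_A f L l t d z := mwb_nonneg f d z
    have h4 : mwb_A f L l t d z ≤ 1 := mwb_le hf d z
    have h5 := mwb_wB_nonneg B l t d z
    have h6 : (mwb_A f L l t d z - m) ^ 2 ≤ (1 - 2 * m) * mwb_A f L l t d z + m ^ 2 := by
      nlinarith
    have h7 := mul_le_mul_of_nonneg_left h6 h5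
    linarith
  refine (avg_mono h2).trans ?_
  rw [avg_add, avg_mul_left, avg_mul_left, mwb_avg hl ht hI hB hd, mwb_one hl ht B hd, ← hm]
  nlinarith

/-- The centred loss. -/
noncomputable def mwb_X (J : Finset (Fin n)) (f : Fin n → Cube n → ℂ) (L l t : ℕ)
    (d : Cube T) (z : Cube (n * (L + T))) : ℝ :=
  ∑ j ∈ J, (mwb_A (f j) L l t d z - mwb_m (f j) l)

theorem mwb_Lo (J : Finset (Fin n)) (f : Fin n → Cube n → ℂ) (d : Cube T)
    (z : Cube (n * (L + T))) :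
    Lo J f (Wd l t z d) = Ls J f ((1 / 2) ^ (l + 1)) - mwb_X J f L l t d z := by
  unfold Lo Ls mwb_X mwb_A mwb_m
  rw [← Finset.sum_sub_distrib]
  exact Finset.sum_congr rfl fun j _ => by ring

theorem mwb_X_avg (hl : l ≤ L) (ht : t ≤ T) (h : Blk N J I f) (hB : ∀ j ∈ J, Disjoint (I j) B)
    {d : Cube T} (hd : ¬ ∀ r : Fin T, (r : ℕ) < t → d r = false) :
    (avg fun z : Cube (n * (L + T)) => wB B l t d z * mwb_X J f L l t d z) = 0 := by
  have h1 : (fun z : Cube (n * (L + T)) => wB B l t d z * mwb_X J f L l t d z) =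
      fun z => ∑ j ∈ J, (wB B l t d z * mwb_A (f j) L l t d z - mwb_m (f j) l * wB B l t d z) := by
    funext z
    unfold mwb_X
    rw [mul_sum]
    exact sum_congr rfl fun j _ => by ring
  rw [h1, avg_sum]
  refine Finset.sum_eq_zero fun j hj => ?_
  rw [avg_sub, avg_mul_left, mwb_avg hl ht (h.on j hj) (hB j hj) hd, mwb_one hl ht B hd]
  ring

theorem mwb_X_sq (hl : l ≤ L) (ht : t ≤ T) (h : Blk N J I f) (hB : ∀ j ∈ J, Disjoint (I j) B)
    {d : Cube T} (hd : ¬ ∀ r : Fin T, (r : ℕ) < t → d r = false) :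
    (avg fun z : Cube (n * (L + T)) => wB B l t d z * mwb_X J f L l t d z ^ 2) ≤
      Ls J f ((1 / 2) ^ (l + 1)) := by
  classical
  have h1 : (fun z : Cube (n * (L + T)) => wB B l t d z * mwb_X J f L l t d z ^ 2) = fun z =>
      ∑ i ∈ J, ∑ j ∈ J, wB B l t d z * ((mwb_A (f i) L l t d z - mwb_m (f i) l) *
        (mwb_A (f j) L l t d z - mwb_m (f j) l)) := by
    funext z
    unfold mwb_X
    rw [sq, Finset.sum_mul_sum, mul_sum]
    exact sum_congr rfl fun i _ => mul_sum _ _ _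
  rw [h1, avg_sum]
  have h2 : ∀ i ∈ J, (avg fun z : Cube (n * (L + T)) =>
      ∑ j ∈ J, wB B l t d z * ((mwb_A (f i) L l t d z - mwb_m (f i) l) *
        (mwb_A (f j) L l t d z - mwb_m (f j) l))) ≤ 1 - mwb_m (f i) l := by
    intro i hi
    rw [avg_sum]
    have h3 : ∀ j ∈ J, j ≠ i → (avg fun z : Cube (n * (L + T)) =>
        wB B l t d z * ((mwb_A (f i) L l t d z - mwb_m (f i) l) *
        (mwb_A (f j) L l t d z - mwb_m (f j) l))) = 0 := by
      intro j hj hji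
      have h4 : (fun z : Cube (n * (L + T)) =>
          wB B l t d z * ((mwb_A (f i) L l t d z - mwb_m (f i) l) *
          (mwb_A (f j) L l t d z - mwb_m (f j) l))) = fun z =>
          wB B l t d z * (mwb_A (f i) L l t d z * mwb_A (f j) L l t d z) -
            (mwb_m (f j) l * (wB B l t d z * mwb_A (f i) L l t d z) +
              (mwb_m (f i) l * (wB B l t d z * mwb_A (f j) L l t d z) -
                mwb_m (f i) l * mwb_m (f j) l * wB B l t d z)) := by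
        funext z
        ring
      rw [h4, avg_sub, mwb_cross hl ht (h.on i hi) (h.on j hj) (h.dj i hi j hj (Ne.symm hji))
        (hB i hi) (hB j hj) hd, avg_add, avg_sub, avg_mul_left, avg_mul_left, avg_mul_left,
        mwb_avg hl ht (h.on i hi) (hB i hi) hd, mwb_avg hl ht (h.on j hj) (hB j hj) hd,
        mwb_one hl ht B hd]
      ring
    rw [Finset.sum_eq_single_of_mem i hi h3]
    have h5 := mwb_self hl ht (h.on i hi) (h.le i hi) (hB i hi) hd
    refine le_trans (le_of_eq ?_) h5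
    congr 1
    funext z
    ring
  refine (Finset.sum_le_sum h2).trans (le_of_eq ?_)
  unfold Ls mwb_m
  rfl

theorem mwb_X_sp (hl : l ≤ L) (ht : t ≤ T) (h : Blk N J I f) (hB : ∀ j ∈ J, Disjoint (I j) B)
    {d : Cube T} (hd : ¬ ∀ r : Fin T, (r : ℕ) < t → d r = false) :
    Sp (2 * (n : ℝ) * (N : ℝ) ^ 2) (fun z : Cube (n * (L + T)) =>
      ((mwb_X J f L l t d z : ℝ) : ℂ)) := by
  have hN1 : (1 : ℝ) ≤ (N : ℝ) ^ 2 := one_le_pow₀ (by exact_mod_cast h.pos)
  have h1 : ∀ j ∈ J, Sp (2 * (N : ℝ) ^ 2) (fun z : Cube (n * (L + T)) =>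
      ((mwb_A (f j) L l t d z : ℝ) : ℂ) - ((mwb_m (f j) l : ℝ) : ℂ)) := by
    intro j hj
    obtain ⟨h0, h1⟩ := mwb_m_mem (B := B) hl ht (h.on j hj) (h.le j hj) (hB j hj) hd
    refine ((mwb_sp hl (h.on j hj) (h.le j hj) (h.wd j hj) d).sub (Sp.const _)).mono ?_
    rw [Complex.norm_real, Real.norm_eq_abs, abs_of_nonneg h0]
    linarith
  refine ((Sp.sum J (fun _ => 2 * (N : ℝ) ^ 2) _ h1).mono ?_).of_eq fun z => ?_
  · rw [Finset.sum_const, nsmul_eq_mul]
    have h2 : ((J.card : ℕ) : ℝ) ≤ n := by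
      have := Finset.card_le_univ J
      rw [Fintype.card_fin] at this
      exact_mod_cast this
    calc (J.card : ℝ) * (2 * (N : ℝ) ^ 2) ≤ n * (2 * (N : ℝ) ^ 2) :=
          mul_le_mul_of_nonneg_right h2 (by positivity)
      _ = _ := by ring
  · unfold mwb_X
    push_cast
    rfl

theorem mwb_bd (hN : 1 ≤ N) (n b : ℕ) {V : ℝ} (hV : V ≤ (N : ℝ) ^ b) {S : ℝ}
    (hS0 : 0 ≤ S) (hS : S ≤ (2 * (n : ℝ) * (N : ℝ) ^ 2) ^ 2 + 2 * (n : ℝ) * (N : ℝ) ^ 2) :
    V * S ≤ bd (8 + b) n N := by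
  have h1 : (1 : ℝ) ≤ N := by exact_mod_cast hN
  have h0 : (0 : ℝ) ≤ n := Nat.cast_nonneg n
  set M : ℝ := ((n : ℝ) + 1) * N with hM
  have hM1 : 1 ≤ M := by rw [hM]; nlinarith
  have hnM : (n : ℝ) * (N : ℝ) ^ 2 ≤ M ^ 2 := by
    rw [hM, mul_pow]
    refine mul_le_mul_of_nonneg_right ?_ (by positivity)
    nlinarith
  have hn0 : 0 ≤ (n : ℝ) * (N : ℝ) ^ 2 := by positivity
  have h2 : S ≤ 6 * M ^ 4 := by
    have h3 : ((n : ℝ) * (N : ℝ) ^ 2) ^ 2 ≤ M ^ 4 := by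
      calc ((n : ℝ) * (N : ℝ) ^ 2) ^ 2 ≤ (M ^ 2) ^ 2 := pow_le_pow_left₀ hn0 hnM 2
        _ = M ^ 4 := by ring
    have h4 : M ^ 2 ≤ M ^ 4 := pow_le_pow_right₀ hM1 (by norm_num)
    have h5 : (2 * (n : ℝ) * (N : ℝ) ^ 2) ^ 2 = 4 * ((n : ℝ) * (N : ℝ) ^ 2) ^ 2 := by ring
    have h6 : 2 * (n : ℝ) * (N : ℝ) ^ 2 = 2 * ((n : ℝ) * (N : ℝ) ^ 2) := by ring
    rw [h5, h6] at hS
    linarith
  have h3 : (N : ℝ) ^ b ≤ M ^ b := by
    refine pow_le_pow_left₀ (by linarith) ?_ b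
    rw [hM]
    nlinarith
  have h4 : V * S ≤ (N : ℝ) ^ b * S := mul_le_mul_of_nonneg_right hV hS0
  unfold bd
  rw [← hM]
  calc V * S ≤ (N : ℝ) ^ b * S := h4
    _ ≤ M ^ b * (6 * M ^ 4) := mul_le_mul h3 h2 hS0 (by positivity)
    _ = 6 * (M ^ (4 + b)) := by ring
    _ ≤ ((8 + b : ℕ) : ℝ) * M ^ (8 + b) := by
      refine mul_le_mul ?_ (pow_le_pow_right₀ hM1 (by omega)) (by positivity) (by positivity)
      push_cast
      have : (0 : ℝ) ≤ b := Nat.cast_nonneg b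
      linarith

end MW

/-- The mean of the loss, with the weight. -/
theorem mw_mean : ∃ K : ℕ, ∀ (n N b : ℕ) (J : Finset (Fin n)) (I : Fin n → Finset (Fin n))
    (f : Fin n → Cube n → ℂ), Blk N J I f → ∀ (B : Finset (Fin n)),
    (∀ j ∈ J, Disjoint (I j) B) → 2 ^ B.card ≤ N ^ b → ∀ (L T l t : ℕ), l ≤ L → t ≤ T →
    ∀ (d : Cube T), (¬ ∀ r : Fin T, (r : ℕ) < t → d r = false) →
    ∀ {Ω : Type} [Fintype Ω] [Nonempty Ω] (Z : Ω → Cube (n * (L + T))) (δ : ℝ), 0 ≤ δ →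
      Bias δ Z → (avg fun ω => wB B l t d (Z ω) * Lo J f (Wd l t (Z ω) d)) ≤
        Ls J f ((1 / 2) ^ (l + 1)) + δ * bd (K + b) n N := by
  refine ⟨8, fun n N b J I f h B hB hb L T l t hl ht d hd Ω _ _ Z δ hδ hZ => ?_⟩
  have hV : ((2 : ℝ) ^ B.card) ≤ (N : ℝ) ^ b := by exact_mod_cast hb
  set S := Ls J f ((1 / 2) ^ (l + 1)) with hS
  have h1 : ∀ z : Cube (n * (L + T)), wB B l t d z * Lo J f (Wd l t z d) =
      S * wB B l t d z - wB B l t d z * mwb_X J f L l t d z := by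
    intro z
    rw [mwb_Lo J f d z, ← hS]
    ring
  have hSb : |S| ≤ n := by
    have h2 : S = ∑ j ∈ J, (1 - mwb_m (f j) l) := rfl
    have h3 : ∀ j ∈ J, 0 ≤ 1 - mwb_m (f j) l ∧ 1 - mwb_m (f j) l ≤ 1 := by
      intro j hj
      obtain ⟨h4, h5⟩ := mwb_m_mem (B := B) hl ht (h.on j hj) (h.le j hj) (hB j hj) hd
      constructor <;> linarith
    rw [h2, abs_of_nonneg (sum_nonneg fun j hj => (h3 j hj).1)]
    calc ∑ j ∈ J, (1 - mwb_m (f j) l) ≤ ∑ _j ∈ J, (1 : ℝ) := sum_le_sum fun j hj => (h3 j hj).2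
      _ = (J.card : ℝ) := by simp
      _ ≤ n := by
        have := Finset.card_le_univ J
        rw [Fintype.card_fin] at this
        exact_mod_cast this
  have h2 : Sp ((2 : ℝ) ^ B.card * (|S| + 2 * (n : ℝ) * (N : ℝ) ^ 2))
      (fun z : Cube (n * (L + T)) => ((wB B l t d z * Lo J f (Wd l t z d) : ℝ) : ℂ)) := by
    have h3 := (wB_sp (n := n) (L := L) (T := T) hl B t d).mul
      ((Sp.const ((S : ℝ) : ℂ)).sub (mwb_X_sp (B := B) (L := L) hl ht h hB hd))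
    refine (h3.mono (le_of_eq ?_)).of_eq fun z => ?_
    · rw [Complex.norm_real, Real.norm_eq_abs]
    · rw [h1 z]
      push_cast
      ring
  have h3 := fool_real hδ hZ h2
  have h4 : (avg fun z : Cube (n * (L + T)) => wB B l t d z * Lo J f (Wd l t z d)) = S := by
    simp only [h1]
    rw [avg_sub, avg_mul_left, mwb_X_avg hl ht h hB hd, mwb_one hl ht B hd]
    ring
  rw [h4] at h3
  have h5 := (abs_le.1 h3).2
  have hN1 : (1 : ℝ) ≤ N := by exact_mod_cast h.pos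
  have hn0 : (0 : ℝ) ≤ n := Nat.cast_nonneg n
  have h6 : (2 : ℝ) ^ B.card * (|S| + 2 * (n : ℝ) * (N : ℝ) ^ 2) ≤ bd (8 + b) n N := by
    refine mwb_bd h.pos n b hV (by positivity) ?_
    have h7 : (n : ℝ) ≤ (2 * (n : ℝ) * (N : ℝ) ^ 2) ^ 2 := by
      have h8 : (1 : ℝ) ≤ (N : ℝ) ^ 2 := one_le_pow₀ hN1
      have h9 : (1 : ℝ) ≤ ((N : ℝ) ^ 2) ^ 2 := one_le_pow₀ h8
      rcases Nat.eq_zero_or_pos n with h10 | h10
      · subst h10
        simp
      · have h11 : (1 : ℝ) ≤ n := by exact_mod_cast h10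
        have h12 : (n : ℝ) ≤ (n : ℝ) ^ 2 := by nlinarith
        have h13 : (2 * (n : ℝ) * (N : ℝ) ^ 2) ^ 2 = 4 * ((n : ℝ) ^ 2 * ((N : ℝ) ^ 2) ^ 2) := by
          ring
        rw [h13]
        have h14 : (n : ℝ) ^ 2 ≤ (n : ℝ) ^ 2 * ((N : ℝ) ^ 2) ^ 2 :=
          le_mul_of_one_le_right (by positivity) h9
        nlinarith
    linarith
  have h7 := mul_le_mul_of_nonneg_left h6 hδ
  linarith

/-- The variance of the loss, with the weight. -/
theorem mw_var : ∃ K : ℕ, ∀ (n N b : ℕ) (J : Finset (Fin n)) (I : Fin n → Finset (Fin n))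
    (f : Fin n → Cube n → ℂ), Blk N J I f → ∀ (B : Finset (Fin n)),
    (∀ j ∈ J, Disjoint (I j) B) → 2 ^ B.card ≤ N ^ b → ∀ (L T l t : ℕ), l ≤ L → t ≤ T →
    ∀ (d : Cube T), (¬ ∀ r : Fin T, (r : ℕ) < t → d r = false) →
    ∀ {Ω : Type} [Fintype Ω] [Nonempty Ω] (Z : Ω → Cube (n * (L + T))) (δ : ℝ), 0 ≤ δ →
      Bias δ Z → (avg fun ω => wB B l t d (Z ω) *
        (Lo J f (Wd l t (Z ω) d) - Ls J f ((1 / 2) ^ (l + 1))) ^ 2) ≤
        Ls J f ((1 / 2) ^ (l + 1)) + δ * bd (K + b) n N := by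
  refine ⟨8, fun n N b J I f h B hB hb L T l t hl ht d hd Ω _ _ Z δ hδ hZ => ?_⟩
  have hV : ((2 : ℝ) ^ B.card) ≤ (N : ℝ) ^ b := by exact_mod_cast hb
  have h1 : (fun ω => wB B l t d (Z ω) *
      (Lo J f (Wd l t (Z ω) d) - Ls J f ((1 / 2) ^ (l + 1))) ^ 2) =
      fun ω => wB B l t d (Z ω) * mwb_X J f L l t d (Z ω) ^ 2 := by
    funext ω
    rw [mwb_Lo J f d (Z ω)]
    ring
  rw [h1]
  have h2 : Sp ((2 : ℝ) ^ B.card * (2 * (n : ℝ) * (N : ℝ) ^ 2) ^ 2)
      (fun z : Cube (n * (L + T)) => ((wB B l t d z * mwb_X J f L l t d z ^ 2 : ℝ) : ℂ)) := by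
    refine ((wB_sp (n := n) (L := L) (T := T) hl B t d).mul
      ((mwb_X_sp (B := B) (L := L) hl ht h hB hd).pow 2)).of_eq fun z => ?_
    push_cast
    rfl
  have h3 := fool_real hδ hZ h2
  have h4 := (abs_le.1 h3).2
  have h5 := mwb_X_sq (L := L) hl ht h hB hd
  have h6 : (2 : ℝ) ^ B.card * (2 * (n : ℝ) * (N : ℝ) ^ 2) ^ 2 ≤ bd (8 + b) n N := by
    refine mwb_bd h.pos n b hV (by positivity) ?_
    have : (0 : ℝ) ≤ 2 * (n : ℝ) * (N : ℝ) ^ 2 := by positivity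
    linarith
  have h7 := mul_le_mul_of_nonneg_left h6 hδ
  linarith

/-- The mean of the weight. -/
theorem mw_one {n : ℕ} (B : Finset (Fin n)) {L T l t : ℕ} (hl : l ≤ L) (ht : t ≤ T) (d : Cube T)
    {Ω : Type} [Fintype Ω] [Nonempty Ω] (Z : Ω → Cube (n * (L + T))) (δ : ℝ) (hδ : 0 ≤ δ)
    (hZ : Bias δ Z) : (avg fun ω => wB B l t d (Z ω)) ≤
      1 + (1 + (1 / 2) ^ l) ^ B.card * one (∀ r : Fin T, (r : ℕ) < t → d r = false) +
        δ * 2 ^ B.card := by
  have h1 := fool_real hδ hZ (wB_sp (n := n) (L := L) (T := T) hl B t d)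
  have h2 := (abs_le.1 h1).2
  by_cases hd : ∀ r : Fin T, (r : ℕ) < t → d r = false
  · rw [wB_zero hl B hd] at h2
    rw [Dnf.one_true hd, mul_one]
    linarith
  · rw [mwb_one hl ht B hd] at h2
    rw [Dnf.one_false hd, mul_zero]
    linarith

end Pool.Agent.MP_ca1109_lc.Rf
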