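import Pool.Agent.MP_ca1109_lc.Rf.Defs

/-!
# Row VH: vector hashing
-/

namespace Pool.Agent.MP_ca1109_lc.Rf

open Finset Pool.Agent.H66 Pool.Agent.MP_ca1109_lc.Mpg Pool.Agent.MP_ca1109_lc.Agp
  Pool.Agent.MP_ca1109_lc.Xp Pool.Agent.MP_ca1109_lc.Pt
open Pool.Agent.MP_ca1109_lc.Dnf (Cube ch one On)
open Pool.Agent.MP_ca1109_lc.Ph (Ev Dp Bd1 Dj)

variable {n : ℕ}

/-! ## VH: vector hashing -/

section VH

variable {T L l t : ℕ}

theorem vh_par {α : Type*} [DecidableEq α] (U D : Finset α) :
    decide (((U \ D) ∪ (D \ U)).card % 2 = 1) = xor (decide (U.card % 2 = 1))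
      (decide (D.card % 2 = 1)) := by
  have h1 : ((U \ D) ∪ (D \ U)).card = (U \ D).card + (D \ U).card :=
    card_union_of_disjoint disjoint_sdiff_sdiff
  have h2 : (U \ D).card + (U ∩ D).card = U.card := card_sdiff_add_card_inter U D
  have h3 : (D \ U).card + (U ∩ D).card = D.card := by
    rw [inter_comm]
    exact card_sdiff_add_card_inter D U
  rw [h1]
  by_cases hU : U.card % 2 = 1 <;> by_cases hD : D.card % 2 = 1
  · rw [decide_eq_true hU, decide_eq_true hD]
    simp only [Bool.xor_self, decide_eq_false_iff_not]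
    omega
  · rw [decide_eq_true hU, decide_eq_false hD]
    simp only [Bool.xor_false, decide_eq_true_eq]
    omega
  · rw [decide_eq_false hU, decide_eq_true hD]
    simp only [Bool.false_xor, decide_eq_true_eq]
    omega
  · rw [decide_eq_false hU, decide_eq_false hD]
    simp only [Bool.xor_self, decide_eq_false_iff_not]
    omega

theorem ip_xo (t : ℕ) (u d h : Cube T) : ip t (xo u d) h = xor (ip t u h) (ip t d h) := by
  have h1 : (univ.filter fun r : Fin T => (r : ℕ) < t ∧ xo u d r = true ∧ h r = true) =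
      ((univ.filter fun r : Fin T => (r : ℕ) < t ∧ u r = true ∧ h r = true) \
        univ.filter fun r : Fin T => (r : ℕ) < t ∧ d r = true ∧ h r = true) ∪
      ((univ.filter fun r : Fin T => (r : ℕ) < t ∧ d r = true ∧ h r = true) \
        univ.filter fun r : Fin T => (r : ℕ) < t ∧ u r = true ∧ h r = true) := by
    ext r
    simp only [mem_filter, mem_univ, true_and, mem_union, mem_sdiff]
    cases hu : u r <;> cases hd : d r <;> simp [xo, hu, hd]
  unfold ip
  rw [← vh_par, h1]

theorem wv_xo (η : Finset (Fin n)) (h : Fin n → Cube T) (t : ℕ) (u d : Cube T) :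
    wv η h t (xo u d) = xo (wv η h t u) (wv η h t d) := by
  funext i
  simp only [wv, xo]
  rw [ip_xo t u d (h i)]
  cases decide (i ∈ η) <;> simp

/-- The fraction of the vanishing vectors. -/
theorem ip_zero (ht : t ≤ T) :
    (avg fun d : Cube T => one (∀ r : Fin T, (r : ℕ) < t → d r = false)) = (1 / 2) ^ t := by
  classical
  have h1 : (univ.filter fun d : Cube T => ∀ r : Fin T, (r : ℕ) < t → d r = false) =
      Fintype.piFinset fun r : Fin T => if (r : ℕ) < t then {false} else univ := by
    ext d
    simp only [mem_filter, mem_univ, true_and, Fintype.mem_piFinset]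
    refine forall_congr' fun r => ?_
    by_cases hr : (r : ℕ) < t <;> simp [hr]
  have h2 : ((univ.filter fun d : Cube T => ∀ r : Fin T, (r : ℕ) < t → d r = false).card : ℝ) =
      2 ^ (T - t) := by
    rw [h1, Fintype.card_piFinset]
    have h3 : ∀ r : Fin T, (if (r : ℕ) < t then ({false} : Finset Bool) else univ).card =
        if (r : ℕ) < t then 1 else 2 := by
      intro r
      split_ifs <;> simp
    simp only [h3]
    rw [Fin.prod_univ_eq_prod_range (fun r : ℕ => if r < t then 1 else 2) T, prod_ite]
    simp only [prod_const, one_pow, one_mul]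
    have h4 : (range T).filter (fun r => ¬ r < t) = Ico t T := by
      ext r
      simp only [mem_filter, mem_range, mem_Ico]
      omega
    rw [h4, Nat.card_Ico]
    push_cast
    rfl
  have h6 : (∑ d : Cube T, one (∀ r : Fin T, (r : ℕ) < t → d r = false)) = 2 ^ (T - t) := by
    have h7 : (∑ d : Cube T, one (∀ r : Fin T, (r : ℕ) < t → d r = false)) =
        ∑ d : Cube T, if (∀ r : Fin T, (r : ℕ) < t → d r = false) then (1 : ℝ) else 0 :=
      sum_congr rfl fun d _ => by
        unfold one
        congr
    rw [h7, sum_boole, h2]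
  unfold avg
  rw [h6]
  have h5 : ((Fintype.card (Cube T) : ℕ) : ℝ) = 2 ^ (T - t) * 2 ^ t := by
    rw [← pow_add, Nat.sub_add_cancel ht]
    simp
  rw [h5, one_div, inv_pow]
  field_simp

end VH

end Pool.Agent.MP_ca1109_lc.Rf
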