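import Pool.Agent.MP_ca1109_lc.Rf.RE
import Pool.Agent.MP_ca1109_lc.Rf.VH
import Pool.Agent.MP_ca1109_lc.Rf.MWb
import Pool.Agent.MP_ca1109_lc.Rf.CS
import Pool.Agent.MP_ca1109_lc.Pt.C2

/-!
# Row R2: the main case, conditionally
-/

namespace Pool.Agent.MP_ca1109_lc.Rf

open Finset Pool.Agent.H66 Pool.Agent.MP_ca1109_lc.Mpg Pool.Agent.MP_ca1109_lc.Agp
  Pool.Agent.MP_ca1109_lc.Xp Pool.Agent.MP_ca1109_lc.Pt
open Pool.Agent.MP_ca1109_lc.Dnf (Cube ch one On)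
open Pool.Agent.MP_ca1109_lc.Ph (Ev Dp Bd1 Dj BC PFools bst)

variable {n : ℕ}

/-- The pointwise bound for one shift. -/
theorem r2_point {X ℓ Λ e δ p b b' A : ℝ} (hX : 0 ≤ X) (hℓ : 0 < ℓ) (hΛ : 0 < Λ) (he : 0 ≤ e)
    (hδ : 0 ≤ δ) (hp : 0 ≤ p) (hb : b ≤ b') (hb1 : 1 ≤ b') (hA1 : A ≤ p + δ)
    (hA : X ≤ Λ → A ≤ p * (Real.exp (-X / 2) + e) + δ * b) :
    A ≤ p * (Real.exp (-ℓ / 4) + 4 / ℓ ^ 2 * (X - ℓ) ^ 2 + 1 / Λ * X + e) + δ * b' := by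
  have h0 : 0 ≤ Real.exp (-ℓ / 4) := (Real.exp_pos _).le
  have h1 : 0 ≤ 4 / ℓ ^ 2 * (X - ℓ) ^ 2 := by positivity
  have h2 : 0 ≤ 1 / Λ * X := by positivity
  have hd1 : δ * b ≤ δ * b' := mul_le_mul_of_nonneg_left hb hδ
  have hd2 : δ * 1 ≤ δ * b' := mul_le_mul_of_nonneg_left hb1 hδ
  rcases le_or_gt X Λ with h | h
  · have h5 : Real.exp (-X / 2) ≤ Real.exp (-ℓ / 4) + 4 / ℓ ^ 2 * (X - ℓ) ^ 2 := by
      rcases le_or_gt (ℓ / 2) X with h' | h'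
      · have h3 : Real.exp (-X / 2) ≤ Real.exp (-ℓ / 4) := Real.exp_le_exp.2 (by linarith)
        linarith
      · have h3 : Real.exp (-X / 2) ≤ 1 := Real.exp_le_one_iff.2 (by linarith)
        have h4 : 1 ≤ 4 / ℓ ^ 2 * (X - ℓ) ^ 2 := by
          rw [div_mul_eq_mul_div, le_div_iff₀ (by positivity)]
          nlinarith
        linarith
    have h6 : p * (Real.exp (-X / 2) + e) ≤
        p * (Real.exp (-ℓ / 4) + 4 / ℓ ^ 2 * (X - ℓ) ^ 2 + 1 / Λ * X + e) :=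
      mul_le_mul_of_nonneg_left (by linarith) hp
    linarith [hA h]
  · have h3 : 1 ≤ 1 / Λ * X := by
      rw [one_div, inv_mul_eq_div, le_div_iff₀ hΛ]
      linarith
    have h6 : p * 1 ≤ p * (Real.exp (-ℓ / 4) + 4 / ℓ ^ 2 * (X - ℓ) ^ 2 + 1 / Λ * X + e) :=
      mul_le_mul_of_nonneg_left (by linarith) hp
    linarith

theorem r2_pc_norm (B : Finset (Fin n)) (v x : Cube n) : ‖pc B v x‖ = one (pat B v x) := by
  unfold pc
  rw [Complex.norm_real, Real.norm_eq_abs, abs_of_nonneg]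
  unfold one
  split_ifs <;> norm_num

theorem r2_one_nonneg (p : Prop) : 0 ≤ one p := by
  unfold one
  split_ifs <;> norm_num

theorem r2_one_le (p : Prop) : one p ≤ 1 := by
  unfold one
  split_ifs <;> norm_num

/-- The probability of a pattern. -/
theorem r2_pc (B : Finset (Fin n)) (v : Cube n) {Ω : Type} [Fintype Ω] [Nonempty Ω]
    {Y : Ω → Cube n} {δ : ℝ} (hδ : 0 ≤ δ) (hY : Bias δ Y) :
    (avg fun ω => ‖pc B v (Y ω)‖) ≤ (1 / 2) ^ B.card + δ := by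
  have h1 := fool hδ hY (sp_pc B v)
  have h2 : av (pc B v) = (1 / 2) ^ B.card := by
    have h := av_pc B v (t := fun _ : Cube n => (1 : ℂ)) fun x y _ => rfl
    simp only [mul_one] at h
    have h' : av (fun _ : Cube n => (1 : ℂ)) = 1 := by
      have h'' := spb_avg_ofReal fun _ : Cube n => (1 : ℝ)
      rw [avg_const] at h''
      simpa using h''
    rw [h', mul_one] at h
    exact h
  have h3 : (avg fun ω => ‖pc B v (Y ω)‖) = ‖av fun ω => pc B v (Y ω)‖ := by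
    have h4 : (fun ω => pc B v (Y ω)) = fun ω => ((one (pat B v (Y ω)) : ℝ) : ℂ) := rfl
    rw [h4, spb_avg_ofReal, Complex.norm_real, Real.norm_eq_abs, abs_of_nonneg
      (avg_nonneg fun ω => r2_one_nonneg _)]
    congr 1
    funext ω
    exact r2_pc_norm B v (Y ω)
  rw [h3]
  have h5 : ‖av (pc B v)‖ = (1 / 2) ^ B.card := by
    rw [h2, norm_pow, norm_div, norm_one, Complex.norm_ofNat]
  have h6 := norm_sub_norm_le (av fun ω => pc B v (Y ω)) (av (pc B v))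
  linarith

theorem r2_bd_one {K N : ℕ} (hK : 1 ≤ K) (hN : 1 ≤ N) (n : ℕ) : 1 ≤ bd K n N := by
  unfold bd
  have hX : (1 : ℝ) ≤ ((n : ℝ) + 1) * N := by
    have h1 : (1 : ℝ) ≤ N := by exact_mod_cast hN
    have h2 : (0 : ℝ) ≤ n := Nat.cast_nonneg n
    nlinarith
  have h3 : (1 : ℝ) ≤ (K : ℝ) := by exact_mod_cast hK
  have h4 : (1 : ℝ) ≤ (((n : ℝ) + 1) * N) ^ K := one_le_pow₀ hX
  nlinarith

theorem r2_bd_pow {b N : ℕ} (hN : 1 ≤ N) (n : ℕ) : ((N : ℝ)) ^ b ≤ bd (b + 1) n N := by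
  unfold bd
  have h1 : (1 : ℝ) ≤ N := by exact_mod_cast hN
  have h2 : (0 : ℝ) ≤ n := Nat.cast_nonneg n
  have hX : (N : ℝ) ≤ ((n : ℝ) + 1) * N := by nlinarith
  have hX1 : (1 : ℝ) ≤ ((n : ℝ) + 1) * N := by nlinarith
  have h3 : (N : ℝ) ^ b ≤ (((n : ℝ) + 1) * N) ^ b := pow_le_pow_left₀ (by linarith) hX b
  have h4 : (((n : ℝ) + 1) * N) ^ b ≤ (((n : ℝ) + 1) * N) ^ (b + 1) :=
    pow_le_pow_right₀ hX1 (Nat.le_succ b)
  have h5 : (1 : ℝ) ≤ ((b + 1 : ℕ) : ℝ) := by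
    push_cast
    have : (0 : ℝ) ≤ b := Nat.cast_nonneg b
    linarith
  nlinarith [pow_nonneg (by linarith : (0 : ℝ) ≤ ((n : ℝ) + 1) * N) (b + 1)]

theorem r2_avg_comm {A C : Type*} [Fintype A] [Fintype C] (F : A → C → ℝ) :
    (avg fun a => avg fun c => F a c) = avg fun c => avg fun a => F a c := by
  unfold avg
  rw [← Finset.sum_div, ← Finset.sum_div, Finset.sum_comm, div_right_comm]

section level

variable {L T N : ℕ} {J : Finset (Fin n)} {I : Fin n → Finset (Fin n)} {f : Fin n → Cube n → ℂ}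
  {Ω₁ : Type} [Fintype Ω₁] [Nonempty Ω₁]

/-- The average for one `z`. -/
theorem r2_level {e Λ ℓ δ b₃ b' : ℝ} (hB : Blk N J I f) (hℓ : 0 < ℓ) (hΛ : 0 < Λ) (he : 0 ≤ e)
    (hδ : 0 ≤ δ) (hb : b₃ ≤ b') (hb1 : 1 ≤ b') (B : Finset (Fin n)) (v a : Cube n)
    (z : Cube (n * (L + T))) (l t : ℕ) (Y : Ω₁ → Cube n) (hY : Bias δ Y)
    (hrel : ∀ (g : Fin n → Cube n → ℂ), Blk N J I g → ∑ j ∈ J, (1 - ‖av (g j)‖) ≤ Λ →
      ∀ (Y' : Ω₁ → Cube n), Bias δ Y' →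
      ‖av (fun ω => pc B v (Y' ω) * (((ch ∅ (Y' ω) : ℝ) : ℂ) * ∏ j ∈ J, g j (Y' ω))) -
        (1 / 2) ^ B.card * av (fun x => ((ch ∅ x : ℝ) : ℂ) * ∏ j ∈ J, g j x)‖ ≤
        (1 / 2) ^ B.card * e + δ * b₃) :
    ‖av fun ω => av fun u : Cube T => pc B v (xo (xo (Y ω) a) (Wd l t z u)) *
        ∏ j ∈ J, f j (xo (xo (Y ω) a) (Wd l t z u))‖ ^ 2 ≤
      ((1 / 2) ^ B.card) ^ 2 * (avg fun d : Cube T => wB B l t d z *
        (one (∀ r : Fin T, (r : ℕ) < t → d r = false) + one (¬ ∀ r : Fin T, (r : ℕ) < t →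
          d r = false) * (Real.exp (-ℓ / 4) + 4 / ℓ ^ 2 * (Lo J f (Wd l t z d) - ℓ) ^ 2 +
            1 / Λ * Lo J f (Wd l t z d) + e))) + δ * (b' + 1) := by
  set p : ℝ := (1 / 2) ^ B.card with hp
  have hp0 : 0 ≤ p := by positivity
  have hp1 : p ≤ 1 := pow_le_one₀ (by norm_num) (by norm_num)
  have hp2 : p * 2 ^ B.card = 1 := by
    rw [hp, ← mul_pow]
    norm_num
  set g : Cube n → ℂ := fun x => ∏ j ∈ J, f j x with hg
  have hg1 : ∀ x, ‖g x‖ ≤ 1 := fun x => by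
    rw [hg]
    beta_reduce
    rw [norm_prod]
    exact prod_le_one (fun j _ => norm_nonneg _) fun j hj => hB.le j hj x
  have h1 := rcs B v a z l t hg1 Y hδ hY
  obtain ⟨S, hS⟩ : ∃ S : Cube T → ℝ, ∀ d, S d =
      avg fun u : Cube T => ‖av fun ω => pc B v (xo (xo (Y ω) a) (Wd l t z u)) *
        dr g (Wd l t z d) (xo (xo (Y ω) a) (Wd l t z u))‖ := ⟨_, fun _ => rfl⟩
  simp only [← hS] at h1
  -- the norm of the inner average
  have h2 : ∀ d u, ‖av fun ω => pc B v (xo (xo (Y ω) a) (Wd l t z u)) *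
      dr g (Wd l t z d) (xo (xo (Y ω) a) (Wd l t z u))‖ ≤ p + δ := by
    intro d u
    refine (norm_av_le _).trans ?_
    refine (avg_mono fun ω => ?_).trans (r2_pc B v hδ ((hY.xo a).xo (Wd l t z u)))
    rw [norm_mul]
    exact mul_le_of_le_one_right (norm_nonneg _) (dr_norm g hg1 _ _)
  have h2' : ∀ d u, ‖av fun ω => pc B v (xo (xo (Y ω) a) (Wd l t z u)) *
      dr g (Wd l t z d) (xo (xo (Y ω) a) (Wd l t z u))‖ ≤ 1 := by
    intro d u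
    refine (norm_av_le _).trans (Agp.avg_le fun ω => ?_)
    rw [norm_mul, r2_pc_norm]
    exact mul_le_one₀ (r2_one_le _) (norm_nonneg _) (dr_norm g hg1 _ _)
  have h3 : ∀ d, S d ≤ 1 := fun d => by
    rw [hS]
    exact Agp.avg_le fun u => h2' d u
  have h3' : ∀ d, S d ≤ p + δ := fun d => by
    rw [hS]
    exact Agp.avg_le fun u => h2 d u
  have hS0 : ∀ d, 0 ≤ S d := fun d => by
    rw [hS]
    exact avg_nonneg fun u => norm_nonneg _
  -- the main bound for one shift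
  have h4 : ∀ d, S d ≤ p * (Real.exp (-ℓ / 4) + 4 / ℓ ^ 2 * (Lo J f (Wd l t z d) - ℓ) ^ 2 +
      1 / Λ * Lo J f (Wd l t z d) + e) + δ * b' := by
    intro d
    rw [hS]
    refine Agp.avg_le fun u => ?_
    refine r2_point (Lo_nonneg hB _) hℓ hΛ he hδ hp0 hb hb1 (h2 d u) fun hX => ?_
    set W := Wd l t z d with hW
    have h5 := hrel (fun j => dr (f j) W) (dr_blk hB W) ((Lo_ge hB W).trans hX)
      (fun ω => xo (xo (Y ω) a) (Wd l t z u)) ((hY.xo a).xo (Wd l t z u))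
    simp only [Dnf.ch_empty, Complex.ofReal_one, one_mul] at h5
    have h6 := au_prod hB W
    have h7 : (fun ω => pc B v (xo (xo (Y ω) a) (Wd l t z u)) *
        dr g W (xo (xo (Y ω) a) (Wd l t z u))) = fun ω =>
        pc B v (xo (xo (Y ω) a) (Wd l t z u)) *
          ∏ j ∈ J, dr (f j) W (xo (xo (Y ω) a) (Wd l t z u)) := by
      funext ω
      rw [hg, dr_prod J f W _]
    rw [h7]
    have h8 := norm_sub_norm_le (av fun ω => pc B v (xo (xo (Y ω) a) (Wd l t z u)) *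
      ∏ j ∈ J, dr (f j) W (xo (xo (Y ω) a) (Wd l t z u)))
      ((1 / 2 : ℂ) ^ B.card * av fun x => ∏ j ∈ J, dr (f j) W x)
    have h9 : ‖(1 / 2 : ℂ) ^ B.card * av fun x => ∏ j ∈ J, dr (f j) W x‖ =
        p * ‖av fun x => ∏ j ∈ J, dr (f j) W x‖ := by
      rw [norm_mul, norm_pow, norm_div, norm_one, Complex.norm_ofNat]
    rw [h9] at h8
    have h10 := mul_le_mul_of_nonneg_left h6 hp0
    linarith
  -- the weight
  have hw : ∀ d, wB B l t d z = 2 ^ (eta z l ∩ B).card * one (∀ i ∈ B, Wd l t z d i = false) :=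
    fun d => wB_eq B l t d z
  have hw0 : ∀ d, 0 ≤ wB B l t d z := fun d => by
    rw [hw]
    exact mul_nonneg (by positivity) (r2_one_nonneg _)
  have hw1 : ∀ d, wB B l t d z ≤ 2 ^ B.card := fun d => by
    rw [hw]
    refine (mul_le_of_le_one_right (by positivity) (r2_one_le _)).trans ?_
    exact pow_le_pow_right₀ (by norm_num) (card_le_card inter_subset_right)
  refine h1.trans ?_
  have h11 : (2 ^ (eta z l ∩ B).card * (1 / 2) ^ B.card + δ) *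
      (avg fun d : Cube T => one (∀ i ∈ B, Wd l t z d i = false) * S d) ≤
      p * (avg fun d : Cube T => wB B l t d z * S d) + δ := by
    rw [add_mul]
    refine add_le_add (le_of_eq ?_) ?_
    · rw [← hp, mul_assoc, mul_left_comm, ← avg_mul_left]
      congr 2
      funext d
      rw [hw d]
      ring
    · refine mul_le_of_le_one_right hδ (Agp.avg_le fun d => ?_)
      exact mul_le_one₀ (r2_one_le _) (hS0 d) (h3 d)
  refine h11.trans ?_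
  have h12 : (avg fun d : Cube T => wB B l t d z * S d) ≤
      avg fun d : Cube T => p * (wB B l t d z *
        (one (∀ r : Fin T, (r : ℕ) < t → d r = false) + one (¬ ∀ r : Fin T, (r : ℕ) < t →
          d r = false) * (Real.exp (-ℓ / 4) + 4 / ℓ ^ 2 * (Lo J f (Wd l t z d) - ℓ) ^ 2 +
            1 / Λ * Lo J f (Wd l t z d) + e))) + 2 ^ B.card * (δ * b') := by
    refine avg_mono fun d => ?_
    have h13 : S d ≤ p * (one (∀ r : Fin T, (r : ℕ) < t → d r = false) +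
        one (¬ ∀ r : Fin T, (r : ℕ) < t → d r = false) * (Real.exp (-ℓ / 4) +
          4 / ℓ ^ 2 * (Lo J f (Wd l t z d) - ℓ) ^ 2 +
            1 / Λ * Lo J f (Wd l t z d) + e)) + δ * b' := by
      by_cases hd : ∀ r : Fin T, (r : ℕ) < t → d r = false
      · have e1 : one (∀ r : Fin T, (r : ℕ) < t → d r = false) = 1 := by
          unfold one
          rw [if_pos hd]
        have e2 : one (¬ ∀ r : Fin T, (r : ℕ) < t → d r = false) = 0 := by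
          unfold one
          rw [if_neg (not_not.2 hd)]
        rw [e1, e2, zero_mul, add_zero, mul_one]
        have := mul_le_mul_of_nonneg_left hb1 hδ
        linarith [h3' d]
      · have e1 : one (∀ r : Fin T, (r : ℕ) < t → d r = false) = 0 := by
          unfold one
          rw [if_neg hd]
        have e2 : one (¬ ∀ r : Fin T, (r : ℕ) < t → d r = false) = 1 := by
          unfold one
          rw [if_pos hd]
        rw [e1, e2, zero_add, one_mul]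
        exact h4 d
    have h14 := mul_le_mul_of_nonneg_left h13 (hw0 d)
    have h15 : wB B l t d z * (δ * b') ≤ 2 ^ B.card * (δ * b') :=
      mul_le_mul_of_nonneg_right (hw1 d) (mul_nonneg hδ (by linarith))
    rw [mul_add] at h14
    linarith
  have h16 := mul_le_mul_of_nonneg_left h12 hp0
  rw [avg_add, avg_const, avg_mul_left, mul_add] at h16
  have h17 : p * (2 ^ B.card * (δ * b')) = δ * b' := by
    rw [← mul_assoc, hp2, one_mul]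
  rw [h17] at h16
  rw [sq, mul_assoc]
  linarith

end level

theorem r2_one_pos {p : Prop} (h : p) : one p = 1 := by
  unfold one
  rw [if_pos h]

theorem r2_one_neg {p : Prop} (h : ¬ p) : one p = 0 := by
  unfold one
  rw [if_neg h]

/-- The average over `Z` for one shift. -/
theorem r2_shift {Ω₂ : Type} [Fintype Ω₂] [Nonempty Ω₂] {w X : Ω₂ → ℝ} {zr : Prop}
    {E₀ e ℓ Λ R η P Q₁ Q₂ ε : ℝ} (hE0 : 0 ≤ E₀) (he : 0 ≤ e) (hη : 0 ≤ η)
    (hP : 0 ≤ P) (hQ₁ : 0 ≤ Q₁) (hQ₂ : 0 ≤ Q₂) (hR : 1 ≤ R) (hℓ : 2 ≤ ℓ) (hΛ : 1 ≤ Λ)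
    (h1 : avg w ≤ 1 + R * one zr + η * P) (h2 : ¬ zr → (avg fun ω => w ω * X ω) ≤ ℓ + η * Q₂)
    (h3 : ¬ zr → (avg fun ω => w ω * (X ω - ℓ) ^ 2) ≤ ℓ + η * Q₁) (g1 : E₀ ≤ ε / 6)
    (g2 : e ≤ ε / 6) (g3 : 4 / ℓ ^ 2 * ℓ ≤ ε / 6) (g4 : 1 / Λ * ℓ ≤ ε / 6) (g5 : ε ≤ 1) :
    (avg fun ω => w ω * (one zr + one (¬ zr) * (E₀ + 4 / ℓ ^ 2 * (X ω - ℓ) ^ 2 +
      1 / Λ * X ω + e))) ≤ 2 * R * one zr + (4 * ε / 6 + η * (P + Q₁ + Q₂)) := by
  have hε : 0 ≤ ε := by linarith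
  have k1 := mul_nonneg hη hP
  have k2 := mul_nonneg hη hQ₁
  have k3 := mul_nonneg hη hQ₂
  by_cases hz : zr
  · rw [r2_one_pos hz] at h1 ⊢
    rw [r2_one_neg (not_not.2 hz)]
    simp only [zero_mul, add_zero, mul_one]
    have : (avg fun ω => w ω) = avg w := rfl
    rw [this]
    nlinarith
  · rw [r2_one_neg hz] at h1 ⊢
    rw [r2_one_pos hz]
    have e1 : (fun ω => w ω * (0 + 1 * (E₀ + 4 / ℓ ^ 2 * (X ω - ℓ) ^ 2 + 1 / Λ * X ω + e))) =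
        fun ω => (E₀ + e) * w ω + 4 / ℓ ^ 2 * (w ω * (X ω - ℓ) ^ 2) +
          1 / Λ * (w ω * X ω) := by
      funext ω
      ring
    rw [e1, avg_add, avg_add, avg_mul_left, avg_mul_left, avg_mul_left]
    have f1 : (E₀ + e) * (avg fun ω => w ω) ≤ 2 * ε / 6 + η * P := by
      have f2 : (avg fun ω => w ω) ≤ 1 + η * P := by
        have : (avg fun ω => w ω) = avg w := rfl
        rw [this]
        linarith
      have f3 := mul_le_mul_of_nonneg_left f2 (add_nonneg hE0 he)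
      have f4 : (E₀ + e) * (η * P) ≤ 1 * (η * P) :=
        mul_le_mul_of_nonneg_right (by linarith) k1
      rw [mul_add] at f3
      linarith
    have f5 : 4 / ℓ ^ 2 * (avg fun ω => w ω * (X ω - ℓ) ^ 2) ≤ ε / 6 + η * Q₁ := by
      have f6 : 4 / ℓ ^ 2 ≤ 1 := by
        rw [div_le_one (by positivity)]
        nlinarith
      have f7 := mul_le_mul_of_nonneg_left (h3 hz) (by positivity : 0 ≤ 4 / ℓ ^ 2)
      have f8 := mul_le_mul_of_nonneg_right f6 k2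
      rw [mul_add] at f7
      linarith
    have f9 : 1 / Λ * (avg fun ω => w ω * X ω) ≤ ε / 6 + η * Q₂ := by
      have f10 : 1 / Λ ≤ 1 := by
        rw [div_le_one (by linarith)]
        exact hΛ
      have f11 := mul_le_mul_of_nonneg_left (h2 hz) (by positivity : 0 ≤ 1 / Λ)
      have f12 := mul_le_mul_of_nonneg_right f10 k3
      rw [mul_add] at f11
      linarith
    linarith

theorem rcase2 (b : ℕ) {ε : ℝ} (hε : 0 < ε) : ∃ T₀ C₀ : ℕ, ∀ C : ℝ, C₀ ≤ C → ∃ K : ℕ,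
    ∀ (n N : ℕ) (J : Finset (Fin n)) (I : Fin n → Finset (Fin n)) (f : Fin n → Cube n → ℂ),
    Blk N J I f → ∀ (B : Finset (Fin n)), (∀ j ∈ J, Disjoint (I j) B) → 2 ^ B.card ≤ N ^ b →
    ∀ (L T l t : ℕ), l ≤ L → t ≤ T → (1 + (1 / 2 : ℝ) ^ l) ^ B.card * 2 ^ T₀ ≤ 2 ^ t →
    C ≤ Ls J f ((1 / 2) ^ (l + 1)) → Ls J f ((1 / 2) ^ (l + 1)) ≤ 2 * C →
    ∀ (v : Cube n) {Ω₁ Ω₂ : Type} [Fintype Ω₁] [Nonempty Ω₁] [Fintype Ω₂] [Nonempty Ω₂]
      (Y : Ω₁ → Cube n) (Z : Ω₂ → Cube (n * (L + T))) (sh : Ω₂ → Cube n) (δ : ℝ), 0 ≤ δ →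
      Bias δ Y → Bias δ Z →
      ‖av fun ω₂ => av fun ω₁ => av fun u : Cube T =>
        pc B v (xo (xo (Y ω₁) (sh ω₂)) (Wd l t (Z ω₂) u)) *
        ∏ j ∈ J, f j (xo (xo (Y ω₁) (sh ω₂)) (Wd l t (Z ω₂) u))‖ ^ 2 ≤
        ((1 / 2) ^ B.card) ^ 2 * ε + δ * bd K n N := by
  obtain ⟨ε', hε', hε1, hεε⟩ : ∃ ε' : ℝ, 0 < ε' ∧ ε' ≤ 1 ∧ ε' ≤ ε :=
    ⟨min ε 1, lt_min hε one_pos, min_le_right _ _, min_le_left _ _⟩
  obtain ⟨T₀, hT₀⟩ : ∃ T₀ : ℕ, (1 / 2 : ℝ) ^ T₀ < ε' / 12 :=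
    exists_pow_lt_of_lt_one (by positivity) (by norm_num)
  obtain ⟨C₀, hC₀⟩ := exists_nat_ge (24 / ε' + 2)
  obtain ⟨K₁, hK₁⟩ := mw_var
  obtain ⟨K₂, hK₂⟩ := mw_mean
  refine ⟨T₀, C₀, fun C hC => ?_⟩
  have hC1 : 24 / ε' + 2 ≤ C := hC₀.trans hC
  have h24 : 0 < 24 / ε' := by positivity
  have hC2 : 2 ≤ C := by linarith
  have hCe : 24 / ε' ≤ C := by linarith
  obtain ⟨Λ, hΛdef⟩ : ∃ Λ : ℝ, Λ = 12 * C / ε' + 1 := ⟨_, rfl⟩
  have hΛ1 : 1 ≤ Λ := by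
    have : 0 ≤ 12 * C / ε' := by positivity
    rw [hΛdef]
    linarith
  obtain ⟨K₃, hK₃⟩ := relSB (Lam := Λ) (ε := ε' / 6) (by positivity)
  refine ⟨(b + 1 + (K₁ + b) + (K₂ + b)) + (K₃ + 1) + 1, ?_⟩
  intro n N J I f hB B hJB hBN L T l t hlL htT hR hCl hCu v Ω₁ Ω₂ _ _ _ _ Y Z sh δ hδ hY hZ
  have hN := hB.pos
  obtain ⟨ℓ, hℓdef⟩ : ∃ ℓ : ℝ, ℓ = Ls J f ((1 / 2) ^ (l + 1)) := ⟨_, rfl⟩
  rw [← hℓdef] at hCl hCu
  have hℓ2 : 2 ≤ ℓ := by linarith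
  have hℓ0 : 0 < ℓ := by linarith
  have hb3 : bd K₃ n N ≤ bd (K₃ + 1) n N := bd_mono (Nat.le_succ _) hN n
  have hb31 : 1 ≤ bd (K₃ + 1) n N := r2_bd_one (by omega) hN n
  have hlev : ∀ ω₂, _ := fun ω₂ => r2_level (e := ε' / 6) (Λ := Λ) (ℓ := ℓ) (b₃ := bd K₃ n N)
    (b' := bd (K₃ + 1) n N) hB hℓ0 (by linarith) (by positivity) hδ hb3 hb31 B v (sh ω₂) (Z ω₂) l t
    Y hY fun g hg hgL Y' hY' => hK₃ n N J I g hg hgL B hJB v ∅ (disjoint_empty_left _) Y' δ hδ hY'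
  have h1 := (cs_sq fun ω₂ => av fun ω₁ => av fun u : Cube T =>
        pc B v (xo (xo (Y ω₁) (sh ω₂)) (Wd l t (Z ω₂) u)) *
        ∏ j ∈ J, f j (xo (xo (Y ω₁) (sh ω₂)) (Wd l t (Z ω₂) u))).trans (avg_mono hlev)
  refine h1.trans ?_
  rw [avg_add, avg_const, avg_mul_left, r2_avg_comm]
  obtain ⟨P, hP⟩ : ∃ P : ℝ, P = 2 ^ B.card := ⟨_, rfl⟩
  have hP0 : 0 ≤ P := by
    rw [hP]
    positivity
  obtain ⟨R, hRdef⟩ : ∃ R : ℝ, R = (1 + (1 / 2) ^ l) ^ B.card := ⟨_, rfl⟩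
  have hR1 : 1 ≤ R := by
    rw [hRdef]
    refine one_le_pow₀ ?_
    have : (0 : ℝ) ≤ (1 / 2) ^ l := by positivity
    linarith
  have g1 : Real.exp (-ℓ / 4) ≤ ε' / 6 := by
    have h2 : (6 : ℝ) / ε' ≤ ℓ / 4 := by
      have h3 : 24 / ε' ≤ ℓ := hCe.trans hCl
      have h4 : 24 / ε' = 4 * (6 / ε') := by ring
      linarith
    have h3 : (6 : ℝ) / ε' ≤ Real.exp (ℓ / 4) :=
      h2.trans ((Real.add_one_le_exp _).trans' (by linarith))
    rw [show -ℓ / 4 = -(ℓ / 4) by ring, Real.exp_neg]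
    rw [inv_le_comm₀ (Real.exp_pos _) (by positivity), inv_div]
    exact h3
  have g3 : 4 / ℓ ^ 2 * ℓ ≤ ε' / 6 := by
    have h2 : 4 / ℓ ^ 2 * ℓ = 4 / ℓ := by
      rw [pow_two]
      field_simp
    rw [h2, div_le_iff₀ hℓ0]
    have h3 : 24 ≤ C * ε' := by
      rw [div_le_iff₀ hε'] at hCe
      exact hCe
    have h4 : C * ε' ≤ ℓ * ε' := mul_le_mul_of_nonneg_right hCl hε'.le
    linarith
  have g4 : 1 / Λ * ℓ ≤ ε' / 6 := by
    rw [one_div, inv_mul_eq_div, div_le_iff₀ (by linarith), hΛdef]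
    have h2 : ε' / 6 * (12 * C / ε' + 1) = 2 * C + ε' / 6 := by
      field_simp
      ring
    rw [h2]
    linarith
  have hb1 := bd_nonneg (K₁ + b) n N
  have hb2 := bd_nonneg (K₂ + b) n N
  have h5 : ∀ d : Cube T, (avg fun ω₂ => wB B l t d (Z ω₂) *
      (one (∀ r : Fin T, (r : ℕ) < t → d r = false) + one (¬ ∀ r : Fin T, (r : ℕ) < t →
        d r = false) * (Real.exp (-ℓ / 4) + 4 / ℓ ^ 2 * (Lo J f (Wd l t (Z ω₂) d) - ℓ) ^ 2 +
          1 / Λ * Lo J f (Wd l t (Z ω₂) d) + ε' / 6))) ≤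
      2 * R * one (∀ r : Fin T, (r : ℕ) < t → d r = false) +
        (4 * ε' / 6 + δ * (P + bd (K₁ + b) n N + bd (K₂ + b) n N)) := by
    intro d
    refine r2_shift (Real.exp_pos _).le (by positivity) hδ hP0 hb1 hb2 hR1 hℓ2 hΛ1 ?_ ?_ ?_ g1
      le_rfl g3 g4 hε1
    · rw [hP, hRdef]
      exact mw_one B hlL htT d Z δ hδ hZ
    · intro hd
      rw [hℓdef]
      exact hK₂ n N b J I f hB B hJB hBN L T l t hlL htT d hd Z δ hδ hZ
    · intro hd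
      rw [hℓdef]
      exact hK₁ n N b J I f hB B hJB hBN L T l t hlL htT d hd Z δ hδ hZ
  have h6 := avg_mono h5
  rw [avg_add, avg_const, avg_mul_left, ip_zero htT] at h6
  have h7 : 2 * R * (1 / 2) ^ t ≤ ε' / 6 := by
    rw [← hRdef] at hR
    have e1 : (2 : ℝ) ^ t * (1 / 2) ^ t = 1 := by
      rw [← mul_pow]
      norm_num
    have e2 : (2 : ℝ) ^ T₀ * (1 / 2) ^ T₀ = 1 := by
      rw [← mul_pow]
      norm_num
    have e3 : R * (1 / 2) ^ t ≤ (1 / 2) ^ T₀ := by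
      calc R * (1 / 2) ^ t = R * 2 ^ T₀ * ((1 / 2) ^ t * (1 / 2) ^ T₀) := by
            rw [show R * 2 ^ T₀ * ((1 / 2) ^ t * (1 / 2) ^ T₀) =
              R * (1 / 2) ^ t * (2 ^ T₀ * (1 / 2) ^ T₀) by ring, e2, mul_one]
        _ ≤ 2 ^ t * ((1 / 2) ^ t * (1 / 2) ^ T₀) :=
            mul_le_mul_of_nonneg_right hR (by positivity)
        _ = (1 / 2) ^ T₀ := by rw [← mul_assoc, e1, one_mul]
    linarith
  obtain ⟨p, hp⟩ : ∃ p : ℝ, p = ((1 / 2) ^ B.card) ^ 2 := ⟨_, rfl⟩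
  have hp0 : 0 ≤ p := by
    rw [hp]
    positivity
  have hp1 : p ≤ 1 := by
    rw [hp]
    exact pow_le_one₀ (by positivity) (pow_le_one₀ (by norm_num) (by norm_num))
  rw [← hp]
  obtain ⟨Q, hQ⟩ : ∃ Q : ℝ, Q = P + bd (K₁ + b) n N + bd (K₂ + b) n N := ⟨_, rfl⟩
  rw [← hQ] at h6
  have hQ0 : 0 ≤ δ * Q := by
    rw [hQ]
    positivity
  have h8 := mul_le_mul_of_nonneg_left h6 hp0
  have h9 : p * (2 * R * (1 / 2) ^ t + (4 * ε' / 6 + δ * Q)) ≤ p * ε + δ * Q := by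
    have e1 : p * (2 * R * (1 / 2) ^ t + 4 * ε' / 6) ≤ p * ε :=
      mul_le_mul_of_nonneg_left (by linarith) hp0
    have e2 : p * (δ * Q) ≤ 1 * (δ * Q) := mul_le_mul_of_nonneg_right hp1 hQ0
    nlinarith
  have hPb : P ≤ bd (b + 1) n N := by
    rw [hP]
    have : (2 : ℝ) ^ B.card ≤ (N : ℝ) ^ b := by exact_mod_cast hBN
    exact this.trans (r2_bd_pow hN n)
  have hfin : Q + (bd (K₃ + 1) n N + 1) ≤
      bd ((b + 1 + (K₁ + b) + (K₂ + b)) + (K₃ + 1) + 1) n N := by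
    have e1 := bd_add (K := b + 1) (K' := K₁ + b) hN n
    have e2 := bd_add (K := b + 1 + (K₁ + b)) (K' := K₂ + b) hN n
    have e3 := bd_add (K := b + 1 + (K₁ + b) + (K₂ + b)) (K' := K₃ + 1) hN n
    have e4 := bd_add (K := b + 1 + (K₁ + b) + (K₂ + b) + (K₃ + 1)) (K' := 1) hN n
    have e5 := r2_bd_one (K := 1) le_rfl hN n
    linarith
  have h10 := mul_le_mul_of_nonneg_left hfin hδ
  rw [mul_add] at h10
  linarith

end Pool.Agent.MP_ca1109_lc.Rf
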