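import Pool.Agent.MP_ca1109_lc.Rf.RE
import Pool.Agent.MP_ca1109_lc.Rf.R0
import Pool.Agent.MP_ca1109_lc.Rf.R1
import Pool.Agent.MP_ca1109_lc.Rf.R2
import Pool.Agent.MP_ca1109_lc.Rf.GE
import Pool.Agent.MP_ca1109_lc.Rf.GL
import Pool.Agent.MP_ca1109_lc.Pt.MA
import Pool.Agent.MP_ca1109_lc.Agp.K1

/-!
# Row RM: the main theorem, conditional fooling
-/

namespace Pool.Agent.MP_ca1109_lc.Rf

open Finset Pool.Agent.H66 Pool.Agent.MP_ca1109_lc.Mpg Pool.Agent.MP_ca1109_lc.Agp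
  Pool.Agent.MP_ca1109_lc.Xp Pool.Agent.MP_ca1109_lc.Pt
open Pool.Agent.MP_ca1109_lc.Dnf (Cube ch one On)

variable {n : ℕ}

/-! ## Averages over the seeds -/

theorem rm_gr_xo {L T : ℕ} (y : Cube n) (η : Fin L → Finset (Fin n)) (h : Fin n → Cube T)
    (t : ℕ → ℕ) (v : Fin L → Cube T) : gr y η h t v = xo y (gr (fun _ => false) η h t v) := by
  funext i
  show xor (y i) _ = xor (y i) (xor false _)
  rw [Bool.false_xor]

/-- The average over all sources. -/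
noncomputable def rmP {n L T : ℕ} {Ω₁ Ω₂ : Type} [Fintype Ω₁] [Fintype Ω₂] (Y : Ω₁ → Cube n)
    (Z : Ω₂ → Cube (n * (L + T))) (t : ℕ → ℕ) (f : Cube n → ℂ) : ℂ :=
  av fun v : Fin L → Cube T => av fun ω₂ => av fun ω₁ =>
    f (gr (Y ω₁) (fun l => eta (Z ω₂) (l : ℕ)) (hv (Z ω₂)) t v)

section rmP

variable {L T : ℕ} {Ω₁ Ω₂ : Type} [Fintype Ω₁] [Fintype Ω₂] [Nonempty Ω₂]
  (Y : Ω₁ → Cube n) (Z : Ω₂ → Cube (n * (L + T))) (t : ℕ → ℕ)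

theorem rm_const {f : Cube n → ℂ} {a : ℂ} {c : ℝ}
    (H : ∀ s : Cube n, ‖(av fun ω₁ => f (xo (Y ω₁) s)) - a‖ ≤ c) : ‖rmP Y Z t f - a‖ ≤ c := by
  have h0 : a = av fun _v : Fin L → Cube T => av fun _ω₂ : Ω₂ => a := by
    simp only [pma_av_const]
  rw [h0]
  unfold rmP
  refine pma_av_close fun v => pma_av_close fun ω₂ => ?_
  have h1 := H (gr (fun _ => false) (fun l : Fin L => eta (Z ω₂) (l : ℕ)) (hv (Z ω₂)) t v)
  simp only [rm_gr_xo (Y _) (fun l : Fin L => eta (Z ω₂) (l : ℕ)) (hv (Z ω₂)) t v]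
  exact h1

theorem rm_unif (f : Cube n → ℂ) : rmP (fun x : Cube n => x) Z t f = av f := by
  unfold rmP
  have h1 : ∀ (v : Fin L → Cube T) (ω₂ : Ω₂),
      (av fun ω₁ : Cube n => f (gr ω₁ (fun l : Fin L => eta (Z ω₂) (l : ℕ)) (hv (Z ω₂)) t v)) =
        av f := by
    intro v ω₂
    have h2 : (fun ω₁ : Cube n => f (gr ω₁ (fun l : Fin L => eta (Z ω₂) (l : ℕ)) (hv (Z ω₂)) t
        v)) = fun ω₁ => f (xo ω₁ (gr (fun _ => false) (fun l : Fin L => eta (Z ω₂) (l : ℕ))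
          (hv (Z ω₂)) t v)) := by
      funext ω₁
      rw [rm_gr_xo ω₁]
    rw [h2]
    exact av_xo f _
  simp only [h1, pma_av_const]

end rmP

/-! ## Numbers -/

theorem rm_err (n c K' K K₁ : ℕ) (h : (c + 1) * K' + 2 * K + 1 ≤ K₁) (hn : 4 * K' ≤ n + 1) :
    1 / ((n : ℝ) + 1) ^ K₁ * bd K' n (n ^ c) ≤ (1 / ((n : ℝ) + 1) ^ K) ^ 2 / 4 := by
  have hn0 : (0 : ℝ) ≤ n := Nat.cast_nonneg n
  have hn1 : (0 : ℝ) < (n : ℝ) + 1 := by linarith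
  have hK0 : (0 : ℝ) ≤ K' := Nat.cast_nonneg K'
  have h0 : (4 : ℝ) * K' ≤ (n : ℝ) + 1 := by exact_mod_cast hn
  have h1 : bd K' n (n ^ c) ≤ K' * ((n : ℝ) + 1) ^ ((c + 1) * K') := by
    unfold bd
    refine mul_le_mul_of_nonneg_left ?_ hK0
    rw [pow_mul]
    refine pow_le_pow_left₀ (by positivity) ?_ K'
    push_cast
    rw [pow_succ, mul_comm]
    exact mul_le_mul_of_nonneg_right (pow_le_pow_left₀ hn0 (by linarith) c) (by linarith)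
  have h2 : ((n : ℝ) + 1) ^ ((c + 1) * K' + 2 * K + 1) ≤ ((n : ℝ) + 1) ^ K₁ :=
    pow_le_pow_right₀ (by linarith) h
  refine (mul_le_mul_of_nonneg_left h1 (by positivity)).trans ?_
  rw [div_pow, one_pow, ← pow_mul, one_div, ← div_eq_inv_mul, div_div,
    div_le_div_iff₀ (by positivity) (by positivity)]
  have h3 : ((n : ℝ) + 1) ^ ((c + 1) * K' + 2 * K + 1) =
      ((n : ℝ) + 1) ^ ((c + 1) * K') * ((n : ℝ) + 1) ^ (K * 2) * ((n : ℝ) + 1) := by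
    rw [← pow_add, ← pow_succ, mul_comm K 2]
  calc (K' : ℝ) * ((n : ℝ) + 1) ^ ((c + 1) * K') * (((n : ℝ) + 1) ^ (K * 2) * 4)
      = ((n : ℝ) + 1) ^ ((c + 1) * K') * ((n : ℝ) + 1) ^ (K * 2) * (4 * K') := by ring
    _ ≤ ((n : ℝ) + 1) ^ ((c + 1) * K') * ((n : ℝ) + 1) ^ (K * 2) * ((n : ℝ) + 1) :=
        mul_le_mul_of_nonneg_left h0 (by positivity)
    _ = ((n : ℝ) + 1) ^ ((c + 1) * K' + 2 * K + 1) := h3.symm
    _ ≤ 1 * ((n : ℝ) + 1) ^ K₁ := by rw [one_mul]; exact h2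

theorem rm_sq {a p τ : ℝ} (hp : 0 ≤ p) (hτ : 0 ≤ τ) (h : a ^ 2 ≤ p ^ 2 / 4 + τ ^ 2 / 4) :
    a ≤ p / 2 + τ / 2 := by
  refine le_of_not_gt fun hlt => ?_
  have h1 : (p / 2 + τ / 2) ^ 2 < a ^ 2 := pow_lt_pow_left₀ hlt (by positivity) (by norm_num)
  nlinarith [mul_nonneg hp hτ]

theorem cmain (c b K : ℕ) {ε : ℝ} (hε : 0 < ε) : ∃ E G, NG E G ∧ ∃ n₀ : ℕ, ∀ n ≥ n₀,
    CFools (n ^ c) b ε (1 / ((n : ℝ) + 1) ^ K) (fun ω : Fin (2 ^ E n) => out G n ω) := by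
  classical
  obtain ⟨C₀, K₀, h0⟩ := rcase0 (show 0 < ε ^ 2 / 4 by positivity)
  obtain ⟨T₀, C₁, h2'⟩ := rcase2 b (show 0 < ε ^ 2 / 4 by positivity)
  obtain ⟨C, hC⟩ : ∃ C : ℝ, C = C₀ + C₁ + 2 := ⟨_, rfl⟩
  have hC₀0 : (0 : ℝ) ≤ C₀ := Nat.cast_nonneg _
  have hC₁0 : (0 : ℝ) ≤ C₁ := Nat.cast_nonneg _
  obtain ⟨K₂, h2⟩ := h2' C (by linarith)
  obtain ⟨K₁, h1⟩ := rcase1 (Lam := 2 * C) hε
  obtain ⟨K', hK'⟩ : ∃ K' : ℕ, K' = K₀ + K₁ + K₂ := ⟨_, rfl⟩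
  obtain ⟨K₃, hK₃⟩ : ∃ K₃ : ℕ, K₃ = (c + 1) * K' + 2 * K + 1 := ⟨_, rfl⟩
  obtain ⟨E, G, hG, hgen⟩ := xgenR (c * b) T₀ K₃
  refine ⟨E, G, hG, 4 * K', fun n hn J I f hf B v hB hb => ?_⟩
  have hn0 : (0 : ℝ) ≤ n := Nat.cast_nonneg n
  obtain ⟨δ, hδ⟩ : ∃ δ : ℝ, δ = 1 / ((n : ℝ) + 1) ^ K₃ := ⟨_, rfl⟩
  obtain ⟨τ, hτ⟩ : ∃ τ : ℝ, τ = 1 / ((n : ℝ) + 1) ^ K := ⟨_, rfl⟩
  obtain ⟨P, hP⟩ : ∃ P : ℝ, P = (1 / 2) ^ B.card := ⟨_, rfl⟩
  have hδ0 : 0 ≤ δ := by rw [hδ]; positivity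
  have hτ0 : 0 ≤ τ := by rw [hτ]; positivity
  have hτ1 : τ ≤ 1 := by
    rw [hτ, div_le_one (by positivity)]
    exact one_le_pow₀ (by linarith)
  have hP0 : 0 ≤ P := by rw [hP]; positivity
  have hPC : ((1 / 2 : ℂ)) ^ B.card = ((P : ℝ) : ℂ) := by
    rw [hP]
    push_cast
    rfl
  have herr : ∀ K'' : ℕ, K'' ≤ K' → δ * bd K'' n (n ^ c) ≤ τ ^ 2 / 4 := by
    intro K'' h
    rw [hδ, hτ]
    refine rm_err n c K'' K K₃ ?_ (by omega)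
    rw [hK₃]
    have := Nat.mul_le_mul_left (c + 1) h
    omega
  have hττ : τ ^ 2 / 4 ≤ τ := by nlinarith
  obtain ⟨T, t, ht, htm, M₁, M₂, hM₁, hM₂, Y, Z, hY, hZ, hout⟩ := hgen n
  have : Nonempty (Fin M₁) := ⟨⟨0, hM₁⟩⟩
  have : Nonempty (Fin M₂) := ⟨⟨0, hM₂⟩⟩
  rw [← hδ] at hY hZ
  have hU : Bias δ (fun x : Cube n => x) := Bias.mono Bias.unif hδ0
  have hout' : av (fun ω : Fin (2 ^ E n) => pc B v (out G n ω) * ∏ j ∈ J, f j (out G n ω)) =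
      rmP Y Z t (fun x => pc B v x * ∏ j ∈ J, f j x) := by
    rw [av_fin (2 ^ E n) (fun p => pc B v (out G n p) * ∏ j ∈ J, f j (out G n p))]
    exact hout (fun x => pc B v x * ∏ j ∈ J, f j x)
  -- the uniform distribution
  have hon : On Bᶜ (fun x : Cube n => ∏ j ∈ J, f j x) := by
    intro x y hxy
    refine prod_congr rfl fun j hj => hf.on j hj x y fun i hi => hxy i ?_
    rw [mem_compl]
    exact Finset.disjoint_left.1 (hB j hj) hi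
  have hpu : av (fun x => pc B v x * ∏ j ∈ J, f j x) =
      (1 / 2) ^ B.card * av fun x => ∏ j ∈ J, f j x := av_pc B v hon
  rw [hout', ← hpu, ← hτ, ← hP]
  rcases le_or_gt C (Ls J f 0) with hA | hA
  · -- the second moments are small
    have hC₀C : (C₀ : ℝ) ≤ Ls J f 0 := by linarith
    have e1 : ∀ {Ω : Type} [Fintype Ω] [Nonempty Ω] (X : Ω → Cube n), Bias δ X →
        ‖av (fun ω => pc B v (X ω) * ∏ j ∈ J, f j (X ω))‖ ≤ P * ε / 2 + τ / 2 := by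
      intro Ω _ _ X hX
      refine rm_sq (by positivity) hτ0 ?_
      have e3 := h0 n (n ^ c) J I f hf hC₀C B hB v X δ hδ0 hX
      have e4 := herr K₀ (by omega)
      rw [← hP] at e3
      have e5 : P ^ 2 * (ε ^ 2 / 4) = (P * ε) ^ 2 / 4 := by ring
      linarith
    have e2 : ‖rmP Y Z t (fun x => pc B v x * ∏ j ∈ J, f j x) - 0‖ ≤ P * ε / 2 + τ / 2 := by
      refine rm_const Y Z t fun s => ?_
      rw [sub_zero]
      exact e1 (fun ω => xo (Y ω) s) (hY.xo s)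
    have e3 := e1 (fun x : Cube n => x) hU
    rw [sub_zero] at e2
    exact (norm_sub_le _ _).trans (by linarith)
  rcases le_or_gt (Ls J f (1 / 2)) (2 * C) with hL | hL
  · -- bounded loss
    refine rm_const Y Z t fun s => ?_
    have e1 := h1 n (n ^ c) J I f hf hL B hB v (fun ω => xo (Y ω) s) δ hδ0 (hY.xo s)
    have e2 := herr K₁ (by omega)
    rw [← hpu, ← hP] at e1
    linarith
  · -- the main case
    obtain ⟨l, hl2, hl, hl3, hl4⟩ := Ls_level hf (by linarith : 2 ≤ C) hA.le hL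
    obtain ⟨l', rfl⟩ : ∃ l', l = l' + 1 := ⟨l - 1, by omega⟩
    have hlt : l' < Nat.clog 2 n + 1 := by omega
    have hm := htm l' B.card (by rw [pow_mul]; exact hb)
    have e1 : ∀ {Ω : Type} [Fintype Ω] [Nonempty Ω] (X : Ω → Cube n), Bias δ X →
        ‖rmP X Z t (fun x => pc B v x * ∏ j ∈ J, f j x)‖ ≤ P * ε / 2 + τ / 2 := by
      intro Ω _ _ X hX
      unfold rmP
      rw [gr_level ⟨l', hlt⟩ t X Z (fun x => pc B v x * ∏ j ∈ J, f j x)]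
      refine pma_norm_av fun w => rm_sq (by positivity) hτ0 ?_
      have e3 := h2 n (n ^ c) J I f hf B hB hb (Nat.clog 2 n + 1) T l' (t l') (by omega) (ht l')
        hm hl3 hl4 v X Z (fun ω₂ => gr (fun _ => false)
          (fun l : Fin (Nat.clog 2 n + 1) => eta (Z ω₂) (l : ℕ)) (hv (Z ω₂)) t
          (Function.update w ⟨l', hlt⟩ fun _ => false)) δ hδ0 hX hZ
      have e4 := herr K₂ (by omega)
      rw [← hP] at e3
      have e5 : P ^ 2 * (ε ^ 2 / 4) = (P * ε) ^ 2 / 4 := by ring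
      refine le_trans e3 ?_
      linarith
    have e2 := e1 Y hY
    have e3 := e1 (fun x : Cube n => x) hU
    rw [rm_unif] at e3
    exact (norm_sub_le _ _).trans (by linarith)

end Pool.Agent.MP_ca1109_lc.Rf
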