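import Pool.Agent.MP_ca1109_lc.Ph.Defs

/-!
# Conditional fooling of product tests: definitions

* `pat B v x`: the string `x` agrees with `v` on `B`.
* `ip t u h`: the inner product of the first `t` bits of `u` and `h`.
* `hv Z i`: the last `T` bits of the block `i` of `Z`; `wv η h t u`: the shift by `⟨u, h i⟩` on `η`.
* `gr y η h t v`: the generator.
* `CFools N b ε τ X`: `X` fools all product tests, conditionally on patterns of few bits.
* `Ad J I A f`: the factors `f c j` depend on `c` only through the blocks at which `A j` happens.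
* `AFools N K ε X`: `X` fools the products `Φ x * ∏ j, f x j x`.
* `AC J I A B F`: combinations of such products.
-/

namespace Pool.Agent.MP_ca1109_lc.Rf

open Finset Pool.Agent.H66 Pool.Agent.MP_ca1109_lc.Mpg Pool.Agent.MP_ca1109_lc.Agp
  Pool.Agent.MP_ca1109_lc.Xp Pool.Agent.MP_ca1109_lc.Pt
open Pool.Agent.MP_ca1109_lc.Dnf (Cube ch one On)
open Pool.Agent.MP_ca1109_lc.Ph (Ev Dp Bd1 Dj)

variable {n : ℕ}

/-- The string agrees with `v` on `B`. -/
def pat (B : Finset (Fin n)) (v x : Cube n) : Prop := ∀ i ∈ B, x i = v i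

/-- The complex indicator of a pattern. -/
noncomputable def pc (B : Finset (Fin n)) (v x : Cube n) : ℂ := ((one (pat B v x) : ℝ) : ℂ)

/-- The inner product of the first `t` bits. -/
def ip {T : ℕ} (t : ℕ) (u h : Cube T) : Bool :=
  decide ((univ.filter fun r : Fin T => (r : ℕ) < t ∧ u r = true ∧ h r = true).card % 2 = 1)

/-- The last `T` bits of the block `i`. -/
def hv {n L T : ℕ} (Z : Cube (n * (L + T))) (i : Fin n) : Cube T :=
  fun r => Z (finProdFinEquiv (i, Fin.natAdd L r))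

/-- The shift by the inner products with `u` on `η`. -/
def wv {T : ℕ} (η : Finset (Fin n)) (h : Fin n → Cube T) (t : ℕ) (u : Cube T) : Cube n :=
  fun i => decide (i ∈ η) && ip t u (h i)

/-- The generator. -/
def gr {L T : ℕ} (y : Cube n) (η : Fin L → Finset (Fin n)) (h : Fin n → Cube T) (t : ℕ → ℕ)
    (v : Fin L → Cube T) : Cube n :=
  fun i => xor (y i) (decide ((univ.filter fun l : Fin L => wv (η l) h (t l) (v l) i = true).card
    % 2 = 1))

/-- Product tests are fooled conditionally on the patterns of at most `b log N` bits outside the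
blocks, with relative error `ε` and absolute error `τ`. -/
def CFools (N b : ℕ) (ε τ : ℝ) {Ω : Type} [Fintype Ω] (X : Ω → Cube n) : Prop :=
  ∀ (J : Finset (Fin n)) (I : Fin n → Finset (Fin n)) (f : Fin n → Cube n → ℂ), Blk N J I f →
    ∀ (B : Finset (Fin n)) (v : Cube n), (∀ j ∈ J, Disjoint (I j) B) → 2 ^ B.card ≤ N ^ b →
      ‖av (fun ω => pc B v (X ω) * ∏ j ∈ J, f j (X ω)) -
        (1 / 2) ^ B.card * av (fun x => ∏ j ∈ J, f j x)‖ ≤ (1 / 2) ^ B.card * ε + τ

/-- The factors depend on the heavy blocks only. -/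
structure Ad (J : Finset (Fin n)) (I : Fin n → Finset (Fin n)) (A : Fin n → Cube n → Prop)
    (f : Cube n → Fin n → Cube n → ℂ) : Prop where
  bd : ∀ c, Bd1 J I (f c)
  dep : ∀ x y : Cube n, (∀ j ∈ J, A j x ∨ A j y → ∀ i ∈ I j, x i = y i) → ∀ j ∈ J, f x j = f y j

/-- Adaptive heavy product tests are fooled. -/
def AFools (N : ℕ) (K ε : ℝ) {Ω : Type} [Fintype Ω] (X : Ω → Cube n) : Prop :=
  ∀ (J : Finset (Fin n)) (I : Fin n → Finset (Fin n)) (A : Fin n → Cube n → Prop)
    (Φ : Cube n → ℂ) (f : Cube n → Fin n → Cube n → ℂ), Dj N J I → Ev K J I A → Dp J I A Φ →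
    Ad J I A f → ‖av (fun ω => Φ (X ω) * ∏ j ∈ J, f (X ω) j (X ω)) -
      av (fun x => Φ x * ∏ j ∈ J, f x j x)‖ ≤ ε

/-- Combinations with coefficients of total size at most `B`. -/
def AC (J : Finset (Fin n)) (I : Fin n → Finset (Fin n)) (A : Fin n → Cube n → Prop) (B : ℝ)
    (F : Cube n → ℂ) : Prop :=
  ∃ (ι : Type) (_ : Fintype ι) (c : ι → ℂ) (Φ : ι → Cube n → ℂ)
    (f : ι → Cube n → Fin n → Cube n → ℂ), (∀ i, Dp J I A (Φ i)) ∧ (∀ i, Ad J I A (f i)) ∧
      (∑ i, ‖c i‖ ≤ B) ∧ ∀ x, F x = ∑ i, c i * (Φ i x * ∏ j ∈ J, f i x j x)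

/-- The bits in `B` are taken from `v`. -/
def st (B : Finset (Fin n)) (v x : Cube n) : Cube n := fun i => if i ∈ B then v i else x i

end Pool.Agent.MP_ca1109_lc.Rf
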